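import Pool.Agent.N978.ME.Main

/-!
The special fields for all the entries.
-/

open MeasureTheory Set Filter Topology Matrix
open scoped ContDiff

namespace Pool.Agent.N978.ME

open H459R3.NS

variable {w g : ℝ → ℝ} {g' : ℝ} {x : V}

theorem adv_00 (hw : HasDerivAt w (2 / 3 * g (x 0 + x 1 + x 2)) (x 0 + x 1 + x 2))
    (hg : HasDerivAt g g' (x 0 + x 1 + x 2)) (j : Fin 3) :
    (1 / 2 : ℂ) * ∑ i, ∑ l, (dat w g x i 0 l * pd i (fun y => dat w g y j l 0) x
      + pd i (fun y => dat w g y j 0 l) x * dat w g x i l 0)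
    = 8 * (w (x 0 + x 1 + x 2) * g (x 0 + x 1 + x 2)) := by
  simp_rw [pd_dat hw hg]
  set s := x 0 + x 1 + x 2 with hs
  have hA : Complex.exp (Complex.I * ((x 0 : ℂ) - x 1)) * Complex.exp (Complex.I * ((x 1 : ℂ) - x 0)) = 1 := by
    rw [← Complex.exp_add, ← Complex.exp_zero]
    congr 1
    ring
  have hB : Complex.exp (Complex.I * ((x 0 : ℂ) - x 2)) * Complex.exp (Complex.I * ((x 2 : ℂ) - x 0)) = 1 := by
    rw [← Complex.exp_add, ← Complex.exp_zero]
    congr 1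
    ring
  unfold dat
  have n1 : ¬ (0 : Fin 3) = 1 := by decide
  have n2 : ¬ (1 : Fin 3) = 0 := by decide
  have n3 : ¬ (0 : Fin 3) = 2 := by decide
  have n4 : ¬ (2 : Fin 3) = 0 := by decide
  simp only [← hs, Fin.sum_univ_three, if_neg n1, if_neg n2, if_neg n3, if_neg n4, if_true, mul_zero,
    zero_mul, add_zero, zero_add]
  revert hA hB
  generalize Complex.exp (Complex.I * ((x 0 : ℂ) - x 1)) = E1
  generalize Complex.exp (Complex.I * ((x 1 : ℂ) - x 0)) = E2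
  generalize Complex.exp (Complex.I * ((x 0 : ℂ) - x 2)) = E3
  generalize Complex.exp (Complex.I * ((x 2 : ℂ) - x 0)) = E4
  intro hA hB
  have hI := Complex.I_sq
  fin_cases j <;> simp [lam] <;> push_cast <;> ring_nf <;>
    simp only [Complex.I_sq, Complex.I_pow_three] <;> ring_nf <;>
    linear_combination (4 * (w s : ℂ) * (g s : ℂ)) * hA + (4 * (w s : ℂ) * (g s : ℂ)) * hB

theorem adv_01 (hw : HasDerivAt w (2 / 3 * g (x 0 + x 1 + x 2)) (x 0 + x 1 + x 2))
    (hg : HasDerivAt g g' (x 0 + x 1 + x 2)) (j : Fin 3) :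
    (1 / 2 : ℂ) * ∑ i, ∑ l, (dat w g x i 0 l * pd i (fun y => dat w g y j l 1) x
      + pd i (fun y => dat w g y j 0 l) x * dat w g x i l 1)
    = Complex.exp (Complex.I * ((x 0 : ℂ) - x 1)) * (3 * (w (x 0 + x 1 + x 2)
        * g (x 0 + x 1 + x 2)) + Complex.I * lam j 0 1 * ((1 / 2) * (g (x 0 + x 1 + x 2) ^ 2
        + 3 * (w (x 0 + x 1 + x 2) * g')))) := by
  simp_rw [pd_dat hw hg]
  set s := x 0 + x 1 + x 2 with hs
  have hE : Complex.exp (Complex.I * ((x 0 : ℂ) - x 1))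
      = Complex.exp (Complex.I * ((x 0 : ℂ) - x 2)) * Complex.exp (Complex.I * ((x 2 : ℂ) - x 1)) := by
    rw [← Complex.exp_add]
    congr 1
    ring
  rw [hE]
  unfold dat
  have n1 : ¬ (0 : Fin 3) = 1 := by decide
  have n2 : ¬ (0 : Fin 3) = 2 := by decide
  have n3 : ¬ (2 : Fin 3) = 1 := by decide
  simp only [← hs, Fin.sum_univ_three, if_neg n1, if_neg n2, if_neg n3, if_true, mul_zero,
    zero_mul, add_zero, zero_add]
  generalize Complex.exp (Complex.I * ((x 0 : ℂ) - x 2)) = E1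
  generalize Complex.exp (Complex.I * ((x 2 : ℂ) - x 1)) = E2
  fin_cases j <;> simp [lam] <;> push_cast <;> ring_nf <;>
    simp only [Complex.I_sq, Complex.I_pow_three] <;> ring_nf

theorem adv_02 (hw : HasDerivAt w (2 / 3 * g (x 0 + x 1 + x 2)) (x 0 + x 1 + x 2))
    (hg : HasDerivAt g g' (x 0 + x 1 + x 2)) (j : Fin 3) :
    (1 / 2 : ℂ) * ∑ i, ∑ l, (dat w g x i 0 l * pd i (fun y => dat w g y j l 2) x
      + pd i (fun y => dat w g y j 0 l) x * dat w g x i l 2)
    = Complex.exp (Complex.I * ((x 0 : ℂ) - x 2)) * (3 * (w (x 0 + x 1 + x 2)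
        * g (x 0 + x 1 + x 2)) + Complex.I * lam j 0 2 * ((1 / 2) * (g (x 0 + x 1 + x 2) ^ 2
        + 3 * (w (x 0 + x 1 + x 2) * g')))) := by
  simp_rw [pd_dat hw hg]
  set s := x 0 + x 1 + x 2 with hs
  have hE : Complex.exp (Complex.I * ((x 0 : ℂ) - x 2))
      = Complex.exp (Complex.I * ((x 0 : ℂ) - x 1)) * Complex.exp (Complex.I * ((x 1 : ℂ) - x 2)) := by
    rw [← Complex.exp_add]
    congr 1
    ring
  rw [hE]
  unfold dat
  have n1 : ¬ (0 : Fin 3) = 2 := by decide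
  have n2 : ¬ (0 : Fin 3) = 1 := by decide
  have n3 : ¬ (1 : Fin 3) = 2 := by decide
  simp only [← hs, Fin.sum_univ_three, if_neg n1, if_neg n2, if_neg n3, if_true, mul_zero,
    zero_mul, add_zero, zero_add]
  generalize Complex.exp (Complex.I * ((x 0 : ℂ) - x 1)) = E1
  generalize Complex.exp (Complex.I * ((x 1 : ℂ) - x 2)) = E2
  fin_cases j <;> simp [lam] <;> push_cast <;> ring_nf <;>
    simp only [Complex.I_sq, Complex.I_pow_three] <;> ring_nf

theorem adv_10 (hw : HasDerivAt w (2 / 3 * g (x 0 + x 1 + x 2)) (x 0 + x 1 + x 2))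
    (hg : HasDerivAt g g' (x 0 + x 1 + x 2)) (j : Fin 3) :
    (1 / 2 : ℂ) * ∑ i, ∑ l, (dat w g x i 1 l * pd i (fun y => dat w g y j l 0) x
      + pd i (fun y => dat w g y j 1 l) x * dat w g x i l 0)
    = Complex.exp (Complex.I * ((x 1 : ℂ) - x 0)) * (3 * (w (x 0 + x 1 + x 2)
        * g (x 0 + x 1 + x 2)) + Complex.I * lam j 1 0 * ((1 / 2) * (g (x 0 + x 1 + x 2) ^ 2
        + 3 * (w (x 0 + x 1 + x 2) * g')))) := by
  simp_rw [pd_dat hw hg]
  set s := x 0 + x 1 + x 2 with hs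
  have hE : Complex.exp (Complex.I * ((x 1 : ℂ) - x 0))
      = Complex.exp (Complex.I * ((x 1 : ℂ) - x 2)) * Complex.exp (Complex.I * ((x 2 : ℂ) - x 0)) := by
    rw [← Complex.exp_add]
    congr 1
    ring
  rw [hE]
  unfold dat
  have n1 : ¬ (1 : Fin 3) = 0 := by decide
  have n2 : ¬ (1 : Fin 3) = 2 := by decide
  have n3 : ¬ (2 : Fin 3) = 0 := by decide
  simp only [← hs, Fin.sum_univ_three, if_neg n1, if_neg n2, if_neg n3, if_true, mul_zero,
    zero_mul, add_zero, zero_add]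
  generalize Complex.exp (Complex.I * ((x 1 : ℂ) - x 2)) = E1
  generalize Complex.exp (Complex.I * ((x 2 : ℂ) - x 0)) = E2
  fin_cases j <;> simp [lam] <;> push_cast <;> ring_nf <;>
    simp only [Complex.I_sq, Complex.I_pow_three] <;> ring_nf

theorem adv_11 (hw : HasDerivAt w (2 / 3 * g (x 0 + x 1 + x 2)) (x 0 + x 1 + x 2))
    (hg : HasDerivAt g g' (x 0 + x 1 + x 2)) (j : Fin 3) :
    (1 / 2 : ℂ) * ∑ i, ∑ l, (dat w g x i 1 l * pd i (fun y => dat w g y j l 1) x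
      + pd i (fun y => dat w g y j 1 l) x * dat w g x i l 1)
    = 8 * (w (x 0 + x 1 + x 2) * g (x 0 + x 1 + x 2)) := by
  simp_rw [pd_dat hw hg]
  set s := x 0 + x 1 + x 2 with hs
  have hA : Complex.exp (Complex.I * ((x 1 : ℂ) - x 0)) * Complex.exp (Complex.I * ((x 0 : ℂ) - x 1)) = 1 := by
    rw [← Complex.exp_add, ← Complex.exp_zero]
    congr 1
    ring
  have hB : Complex.exp (Complex.I * ((x 1 : ℂ) - x 2)) * Complex.exp (Complex.I * ((x 2 : ℂ) - x 1)) = 1 := by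
    rw [← Complex.exp_add, ← Complex.exp_zero]
    congr 1
    ring
  unfold dat
  have n1 : ¬ (1 : Fin 3) = 0 := by decide
  have n2 : ¬ (0 : Fin 3) = 1 := by decide
  have n3 : ¬ (1 : Fin 3) = 2 := by decide
  have n4 : ¬ (2 : Fin 3) = 1 := by decide
  simp only [← hs, Fin.sum_univ_three, if_neg n1, if_neg n2, if_neg n3, if_neg n4, if_true, mul_zero,
    zero_mul, add_zero, zero_add]
  revert hA hB
  generalize Complex.exp (Complex.I * ((x 1 : ℂ) - x 0)) = E1
  generalize Complex.exp (Complex.I * ((x 0 : ℂ) - x 1)) = E2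
  generalize Complex.exp (Complex.I * ((x 1 : ℂ) - x 2)) = E3
  generalize Complex.exp (Complex.I * ((x 2 : ℂ) - x 1)) = E4
  intro hA hB
  have hI := Complex.I_sq
  fin_cases j <;> simp [lam] <;> push_cast <;> ring_nf <;>
    simp only [Complex.I_sq, Complex.I_pow_three] <;> ring_nf <;>
    linear_combination (4 * (w s : ℂ) * (g s : ℂ)) * hA + (4 * (w s : ℂ) * (g s : ℂ)) * hB

theorem adv_12 (hw : HasDerivAt w (2 / 3 * g (x 0 + x 1 + x 2)) (x 0 + x 1 + x 2))
    (hg : HasDerivAt g g' (x 0 + x 1 + x 2)) (j : Fin 3) :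
    (1 / 2 : ℂ) * ∑ i, ∑ l, (dat w g x i 1 l * pd i (fun y => dat w g y j l 2) x
      + pd i (fun y => dat w g y j 1 l) x * dat w g x i l 2)
    = Complex.exp (Complex.I * ((x 1 : ℂ) - x 2)) * (3 * (w (x 0 + x 1 + x 2)
        * g (x 0 + x 1 + x 2)) + Complex.I * lam j 1 2 * ((1 / 2) * (g (x 0 + x 1 + x 2) ^ 2
        + 3 * (w (x 0 + x 1 + x 2) * g')))) := by
  simp_rw [pd_dat hw hg]
  set s := x 0 + x 1 + x 2 with hs
  have hE : Complex.exp (Complex.I * ((x 1 : ℂ) - x 2))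
      = Complex.exp (Complex.I * ((x 1 : ℂ) - x 0)) * Complex.exp (Complex.I * ((x 0 : ℂ) - x 2)) := by
    rw [← Complex.exp_add]
    congr 1
    ring
  rw [hE]
  unfold dat
  have n1 : ¬ (1 : Fin 3) = 2 := by decide
  have n2 : ¬ (1 : Fin 3) = 0 := by decide
  have n3 : ¬ (0 : Fin 3) = 2 := by decide
  simp only [← hs, Fin.sum_univ_three, if_neg n1, if_neg n2, if_neg n3, if_true, mul_zero,
    zero_mul, add_zero, zero_add]
  generalize Complex.exp (Complex.I * ((x 1 : ℂ) - x 0)) = E1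
  generalize Complex.exp (Complex.I * ((x 0 : ℂ) - x 2)) = E2
  fin_cases j <;> simp [lam] <;> push_cast <;> ring_nf <;>
    simp only [Complex.I_sq, Complex.I_pow_three] <;> ring_nf

theorem adv_20 (hw : HasDerivAt w (2 / 3 * g (x 0 + x 1 + x 2)) (x 0 + x 1 + x 2))
    (hg : HasDerivAt g g' (x 0 + x 1 + x 2)) (j : Fin 3) :
    (1 / 2 : ℂ) * ∑ i, ∑ l, (dat w g x i 2 l * pd i (fun y => dat w g y j l 0) x
      + pd i (fun y => dat w g y j 2 l) x * dat w g x i l 0)
    = Complex.exp (Complex.I * ((x 2 : ℂ) - x 0)) * (3 * (w (x 0 + x 1 + x 2)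
        * g (x 0 + x 1 + x 2)) + Complex.I * lam j 2 0 * ((1 / 2) * (g (x 0 + x 1 + x 2) ^ 2
        + 3 * (w (x 0 + x 1 + x 2) * g')))) := by
  simp_rw [pd_dat hw hg]
  set s := x 0 + x 1 + x 2 with hs
  have hE : Complex.exp (Complex.I * ((x 2 : ℂ) - x 0))
      = Complex.exp (Complex.I * ((x 2 : ℂ) - x 1)) * Complex.exp (Complex.I * ((x 1 : ℂ) - x 0)) := by
    rw [← Complex.exp_add]
    congr 1
    ring
  rw [hE]
  unfold dat
  have n1 : ¬ (2 : Fin 3) = 0 := by decide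
  have n2 : ¬ (2 : Fin 3) = 1 := by decide
  have n3 : ¬ (1 : Fin 3) = 0 := by decide
  simp only [← hs, Fin.sum_univ_three, if_neg n1, if_neg n2, if_neg n3, if_true, mul_zero,
    zero_mul, add_zero, zero_add]
  generalize Complex.exp (Complex.I * ((x 2 : ℂ) - x 1)) = E1
  generalize Complex.exp (Complex.I * ((x 1 : ℂ) - x 0)) = E2
  fin_cases j <;> simp [lam] <;> push_cast <;> ring_nf <;>
    simp only [Complex.I_sq, Complex.I_pow_three] <;> ring_nf

theorem adv_21 (hw : HasDerivAt w (2 / 3 * g (x 0 + x 1 + x 2)) (x 0 + x 1 + x 2))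
    (hg : HasDerivAt g g' (x 0 + x 1 + x 2)) (j : Fin 3) :
    (1 / 2 : ℂ) * ∑ i, ∑ l, (dat w g x i 2 l * pd i (fun y => dat w g y j l 1) x
      + pd i (fun y => dat w g y j 2 l) x * dat w g x i l 1)
    = Complex.exp (Complex.I * ((x 2 : ℂ) - x 1)) * (3 * (w (x 0 + x 1 + x 2)
        * g (x 0 + x 1 + x 2)) + Complex.I * lam j 2 1 * ((1 / 2) * (g (x 0 + x 1 + x 2) ^ 2
        + 3 * (w (x 0 + x 1 + x 2) * g')))) := by
  simp_rw [pd_dat hw hg]
  set s := x 0 + x 1 + x 2 with hs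
  have hE : Complex.exp (Complex.I * ((x 2 : ℂ) - x 1))
      = Complex.exp (Complex.I * ((x 2 : ℂ) - x 0)) * Complex.exp (Complex.I * ((x 0 : ℂ) - x 1)) := by
    rw [← Complex.exp_add]
    congr 1
    ring
  rw [hE]
  unfold dat
  have n1 : ¬ (2 : Fin 3) = 1 := by decide
  have n2 : ¬ (2 : Fin 3) = 0 := by decide
  have n3 : ¬ (0 : Fin 3) = 1 := by decide
  simp only [← hs, Fin.sum_univ_three, if_neg n1, if_neg n2, if_neg n3, if_true, mul_zero,
    zero_mul, add_zero, zero_add]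
  generalize Complex.exp (Complex.I * ((x 2 : ℂ) - x 0)) = E1
  generalize Complex.exp (Complex.I * ((x 0 : ℂ) - x 1)) = E2
  fin_cases j <;> simp [lam] <;> push_cast <;> ring_nf <;>
    simp only [Complex.I_sq, Complex.I_pow_three] <;> ring_nf

theorem adv_22 (hw : HasDerivAt w (2 / 3 * g (x 0 + x 1 + x 2)) (x 0 + x 1 + x 2))
    (hg : HasDerivAt g g' (x 0 + x 1 + x 2)) (j : Fin 3) :
    (1 / 2 : ℂ) * ∑ i, ∑ l, (dat w g x i 2 l * pd i (fun y => dat w g y j l 2) x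
      + pd i (fun y => dat w g y j 2 l) x * dat w g x i l 2)
    = 8 * (w (x 0 + x 1 + x 2) * g (x 0 + x 1 + x 2)) := by
  simp_rw [pd_dat hw hg]
  set s := x 0 + x 1 + x 2 with hs
  have hA : Complex.exp (Complex.I * ((x 2 : ℂ) - x 0)) * Complex.exp (Complex.I * ((x 0 : ℂ) - x 2)) = 1 := by
    rw [← Complex.exp_add, ← Complex.exp_zero]
    congr 1
    ring
  have hB : Complex.exp (Complex.I * ((x 2 : ℂ) - x 1)) * Complex.exp (Complex.I * ((x 1 : ℂ) - x 2)) = 1 := by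
    rw [← Complex.exp_add, ← Complex.exp_zero]
    congr 1
    ring
  unfold dat
  have n1 : ¬ (2 : Fin 3) = 0 := by decide
  have n2 : ¬ (0 : Fin 3) = 2 := by decide
  have n3 : ¬ (2 : Fin 3) = 1 := by decide
  have n4 : ¬ (1 : Fin 3) = 2 := by decide
  simp only [← hs, Fin.sum_univ_three, if_neg n1, if_neg n2, if_neg n3, if_neg n4, if_true, mul_zero,
    zero_mul, add_zero, zero_add]
  revert hA hB
  generalize Complex.exp (Complex.I * ((x 2 : ℂ) - x 0)) = E1
  generalize Complex.exp (Complex.I * ((x 0 : ℂ) - x 2)) = E2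
  generalize Complex.exp (Complex.I * ((x 2 : ℂ) - x 1)) = E3
  generalize Complex.exp (Complex.I * ((x 1 : ℂ) - x 2)) = E4
  intro hA hB
  have hI := Complex.I_sq
  fin_cases j <;> simp [lam] <;> push_cast <;> ring_nf <;>
    simp only [Complex.I_sq, Complex.I_pow_three] <;> ring_nf <;>
    linear_combination (4 * (w s : ℂ) * (g s : ℂ)) * hA + (4 * (w s : ℂ) * (g s : ℂ)) * hB

theorem cases3 : ∀ p : Fin 3, p = 0 ∨ p = 1 ∨ p = 2 := by decide

theorem adv_all (hw : HasDerivAt w (2 / 3 * g (x 0 + x 1 + x 2)) (x 0 + x 1 + x 2))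
    (hg : HasDerivAt g g' (x 0 + x 1 + x 2)) (j p q : Fin 3) :
    (1 / 2 : ℂ) * ∑ i, ∑ l, (dat w g x i p l * pd i (fun y => dat w g y j l q) x
      + pd i (fun y => dat w g y j p l) x * dat w g x i l q)
    = if p = q then (8 : ℂ) * ((w (x 0 + x 1 + x 2) : ℂ) * (g (x 0 + x 1 + x 2) : ℂ)) else
      Complex.exp (Complex.I * ((x p : ℂ) - x q)) * (3 * ((w (x 0 + x 1 + x 2) : ℂ)
        * (g (x 0 + x 1 + x 2) : ℂ)) + Complex.I * lam j p q * ((1 / 2) * ((g (x 0 + x 1 + x 2) : ℂ) ^ 2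
        + 3 * ((w (x 0 + x 1 + x 2) : ℂ) * (g' : ℂ))))) := by
  rcases cases3 p with rfl | rfl | rfl <;> rcases cases3 q with rfl | rfl | rfl
  · rw [if_pos rfl]; exact adv_00 hw hg j
  · rw [if_neg (by decide)]; exact adv_01 hw hg j
  · rw [if_neg (by decide)]; exact adv_02 hw hg j
  · rw [if_neg (by decide)]; exact adv_10 hw hg j
  · rw [if_pos rfl]; exact adv_11 hw hg j
  · rw [if_neg (by decide)]; exact adv_12 hw hg j
  · rw [if_neg (by decide)]; exact adv_20 hw hg j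
  · rw [if_neg (by decide)]; exact adv_21 hw hg j
  · rw [if_pos rfl]; exact adv_22 hw hg j

theorem div_all (hw : HasDerivAt w (2 / 3 * g (x 0 + x 1 + x 2)) (x 0 + x 1 + x 2))
    (hg : HasDerivAt g g' (x 0 + x 1 + x 2)) (p q : Fin 3) :
    ∑ j, pd j (fun y => dat w g y j p q) x = 0 := by
  simp_rw [pd_dat hw hg]
  by_cases hpq : p = q
  · simp [hpq]
  · simp only [if_neg hpq]
    have hI := Complex.I_sq
    fin_cases p <;> fin_cases q <;> first
      | exact absurd rfl hpq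
      | (simp only [Fin.sum_univ_three]
         simp [lam]
         push_cast
         ring_nf
         simp only [Complex.I_sq]
         ring_nf)

end Pool.Agent.N978.ME
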