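import Pool.Agent.H459R3.NS.Evo

/-!
Integrals over a period cell of complex valued `C¹` functions on `ℝ³` with period `2π`.
-/

open MeasureTheory Set Filter Topology
open scoped ContDiff

namespace Pool.Agent.N978.ME

open H459R3.NS

/-- `2π`-periodic functions. -/
def Per2 {F : Type*} (f : V → F) : Prop :=
  ∀ (i : Fin 3) (x : V), f (x + Pi.single i (2 * Real.pi)) = f x

/-- The matrix whose columns are `2π (1, -1, 0)`, `2π (0, 1, -1)`, `2π (1, 1, 1)`. -/
noncomputable def BB : Matrix (Fin 3) (Fin 3) ℝ :=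
  !![2 * Real.pi, 0, 2 * Real.pi; -(2 * Real.pi), 2 * Real.pi, 2 * Real.pi;
     0, -(2 * Real.pi), 2 * Real.pi]

/-- the linear map with the matrix `BB` -/
noncomputable def BL : V →L[ℝ] V := LinearMap.toContinuousLinearMap (Matrix.mulVecLin BB)

theorem BL_apply (y : V) : BL y = ![2 * Real.pi * (y 0 + y 2), 2 * Real.pi * (-y 0 + y 1 + y 2),
    2 * Real.pi * (-y 1 + y 2)] := by
  show BB.mulVec y = _
  funext k
  fin_cases k <;> simp [BB, Matrix.mulVec, dotProduct, Fin.sum_univ_three] <;> ring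

/-- functions periodic with respect to the lattice generated by `2π (1, -1, 0)`, `2π (0, 1, -1)`,
`2π (1, 1, 1)` -/
def PerB {F : Type*} (f : V → F) : Prop :=
  ∀ (i : Fin 3) (x : V), f (x + BL (Pi.single i 1)) = f x

/-- `C¹` periodic complex functions. -/
structure CP (f : V → ℂ) : Prop where
  c1 : ContDiff ℝ 1 f
  per : PerB f

theorem cmul {f g : V → ℂ} (hf : Continuous f) (hg : Continuous g) :
    Continuous (fun x => f x * g x) := hf.mul hg

theorem cadd {f g : V → ℂ} (hf : Continuous f) (hg : Continuous g) :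
    Continuous (fun x => f x + g x) := hf.add hg

theorem csub {f g : V → ℂ} (hf : Continuous f) (hg : Continuous g) :
    Continuous (fun x => f x - g x) := hf.sub hg

theorem csum {ι : Type*} {s : Finset ι} {f : ι → V → ℂ} (hf : ∀ i ∈ s, Continuous (f i)) :
    Continuous (fun x => ∑ i ∈ s, f i x) := continuous_finsetSum s hf

/-- The average over the period cell. -/
noncomputable def av (f : V → ℂ) : ℂ := ∫ y in cube, f (BL y)

theorem CP.cont {f : V → ℂ} (hf : CP f) : Continuous f := hf.c1.continuous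

theorem CP.diff {f : V → ℂ} (hf : CP f) (x : V) : DifferentiableAt ℝ f x :=
  (hf.c1.differentiable one_ne_zero) x

theorem CP.pd_cont {f : V → ℂ} (hf : CP f) (j : Fin 3) : Continuous (pd j f) :=
  (hf.c1.continuous_fderiv one_ne_zero).clm_apply continuous_const

theorem CP.mul {f g : V → ℂ} (hf : CP f) (hg : CP g) : CP (fun x => f x * g x) where
  c1 := hf.c1.mul hg.c1
  per := fun i x => by simp only [hf.per i x, hg.per i x]

theorem CP.add {f g : V → ℂ} (hf : CP f) (hg : CP g) : CP (fun x => f x + g x) where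
  c1 := hf.c1.add hg.c1
  per := fun i x => by simp only [hf.per i x, hg.per i x]

theorem CP.sub {f g : V → ℂ} (hf : CP f) (hg : CP g) : CP (fun x => f x - g x) where
  c1 := hf.c1.sub hg.c1
  per := fun i x => by simp only [hf.per i x, hg.per i x]

theorem CP.sum {ι : Type*} {s : Finset ι} {f : ι → V → ℂ} (hf : ∀ i ∈ s, CP (f i)) :
    CP (fun x => ∑ i ∈ s, f i x) where
  c1 := ContDiff.sum fun i hi => (hf i hi).c1
  per := fun j x => Finset.sum_congr rfl fun i hi => (hf i hi).per j x

theorem pd_mul' {f g : V → ℂ} {x : V} (hf : DifferentiableAt ℝ f x) (hg : DifferentiableAt ℝ g x)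
    (j : Fin 3) : pd j (fun y => f y * g y) x = f x * pd j g x + pd j f x * g x := by
  unfold pd
  have h : HasFDerivAt (fun y => f y * g y) _ x := hf.hasFDerivAt.mul hg.hasFDerivAt
  rw [h.fderiv]
  simp only [add_apply, smul_apply, smul_eq_mul]
  ring

theorem pd_add' {f g : V → ℂ} {x : V} (hf : DifferentiableAt ℝ f x) (hg : DifferentiableAt ℝ g x)
    (j : Fin 3) : pd j (fun y => f y + g y) x = pd j f x + pd j g x := by
  unfold pd
  have h : HasFDerivAt (fun y => f y + g y) _ x := hf.hasFDerivAt.add hg.hasFDerivAt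
  rw [h.fderiv]
  simp

theorem pd_sub' {f g : V → ℂ} {x : V} (hf : DifferentiableAt ℝ f x) (hg : DifferentiableAt ℝ g x)
    (j : Fin 3) : pd j (fun y => f y - g y) x = pd j f x - pd j g x := by
  unfold pd
  have h : HasFDerivAt (fun y => f y - g y) _ x := hf.hasFDerivAt.sub hg.hasFDerivAt
  rw [h.fderiv]
  simp

theorem pd_sum' {ι : Type*} {s : Finset ι} {f : ι → V → ℂ} {x : V}
    (hf : ∀ i ∈ s, DifferentiableAt ℝ (f i) x) (j : Fin 3) :
    pd j (fun y => ∑ i ∈ s, f i y) x = ∑ i ∈ s, pd j (f i) x := by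
  unfold pd
  have h : HasFDerivAt (fun y => ∑ i ∈ s, f i y) _ x :=
    HasFDerivAt.fun_sum fun i hi => (hf i hi).hasFDerivAt
  rw [h.fderiv]
  simp

theorem pd_const_mul' {f : V → ℂ} {x : V} (hf : DifferentiableAt ℝ f x) (r : ℂ)
    (j : Fin 3) : pd j (fun y => r * f y) x = r * pd j f x := by
  unfold pd
  have h : HasFDerivAt (fun y => r * f y) _ x := hf.hasFDerivAt.const_mul r
  rw [h.fderiv]
  simp

/-- change to period one -/
theorem per_scale {F : Type*} {f : V → F} (hf : PerB f) :
    Per (fun y => f (BL y)) := by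
  intro i y
  show f (BL (y + Pi.single i 1)) = _
  rw [map_add, hf]

theorem pd_scale {f : V → ℂ} (hf : ContDiff ℝ 1 f) (k : Fin 3) (y : V) :
    pd k (fun y => f (BL y)) y = ∑ j, (BB j k : ℂ) * pd j f (BL y) := by
  unfold pd
  have h2 : HasFDerivAt (fun y => f (BL y)) _ y :=
    ((hf.differentiable one_ne_zero) _).hasFDerivAt.comp y BL.hasFDerivAt
  rw [h2.fderiv, ContinuousLinearMap.comp_apply]
  have h3 : BL (Pi.single k (1 : ℝ)) = ∑ j, BB j k • (Pi.single j (1 : ℝ) : V) := by
    show BB.mulVec _ = _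
    funext m
    simp [Matrix.mulVec_single, Pi.single_apply, Finset.sum_apply]
  rw [h3, map_sum]
  refine Finset.sum_congr rfl fun j _ => ?_
  rw [map_smul]
  simp

theorem int_av0 {f : V → ℂ} (hf : Continuous f) :
    IntegrableOn (fun y : V => f (BL y)) cube := integrableOn_cube (hf.comp BL.continuous)

theorem av_pd {f : V → ℂ} (hf : CP f) (j : Fin 3) : av (pd j f) = 0 := by
  have h1 : ContDiff ℝ 1 (fun y : V => f (BL y)) := hf.c1.comp BL.contDiff
  have h2 : ∀ k, ∑ j, (BB j k : ℂ) * av (pd j f) = 0 := by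
    intro k
    have h3 := integral_pd h1 (per_scale hf.per) k
    simp_rw [pd_scale hf.c1] at h3
    rw [integral_finsetSum _ fun j _ => (int_av0 (hf.pd_cont j)).const_mul _] at h3
    simp_rw [integral_const_mul] at h3
    exact h3
  have hpi : ((2 * Real.pi : ℝ) : ℂ) ≠ 0 := by norm_cast; positivity
  have e0 := h2 0
  have e1 := h2 1
  have e2 := h2 2
  simp only [Fin.sum_univ_three, BB, Matrix.of_apply, Matrix.cons_val_zero, Matrix.cons_val_one,
    Matrix.cons_val] at e0 e1 e2
  push_cast at e0 e1 e2 hpi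
  have f0 : av (pd 0 f) = av (pd 1 f) := by
    apply mul_left_cancel₀ hpi
    linear_combination e0
  have f1 : av (pd 1 f) = av (pd 2 f) := by
    apply mul_left_cancel₀ hpi
    linear_combination e1
  have f2 : av (pd 2 f) = 0 := by
    apply mul_left_cancel₀ hpi
    linear_combination (1 / 3) * e2 - (2 * Real.pi / 3) * f0 - (4 * Real.pi / 3) * f1
  fin_cases j
  · exact f0.trans (f1.trans f2)
  · exact f1.trans f2
  · exact f2

theorem int_av {f : V → ℂ} (hf : Continuous f) :
    IntegrableOn (fun y : V => f (BL y)) cube := int_av0 hf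

theorem av_add {f g : V → ℂ} (hf : Continuous f) (hg : Continuous g) :
    av (fun x => f x + g x) = av f + av g := integral_add (int_av hf) (int_av hg)

theorem av_sub {f g : V → ℂ} (hf : Continuous f) (hg : Continuous g) :
    av (fun x => f x - g x) = av f - av g := integral_sub (int_av hf) (int_av hg)

theorem av_const_mul (r : ℂ) (f : V → ℂ) : av (fun x => r * f x) = r * av f :=
  integral_const_mul r _

theorem av_sum {ι : Type*} {s : Finset ι} {f : ι → V → ℂ} (hf : ∀ i ∈ s, Continuous (f i)) :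
    av (fun x => ∑ i ∈ s, f i x) = ∑ i ∈ s, av (f i) :=
  integral_finsetSum s fun i hi => int_av (hf i hi)

/-- integration by parts -/
theorem ibp' {f g : V → ℂ} (hf : CP f) (hg : CP g) (j : Fin 3) :
    av (fun x => pd j f x * g x) = -av (fun x => f x * pd j g x) := by
  have h := av_pd (hf.mul hg) j
  have e : (pd j fun x => f x * g x) = fun x => f x * pd j g x + pd j f x * g x := by
    funext x
    exact pd_mul' (hf.diff x) (hg.diff x) j
  rw [e, av_add (cmul hf.cont (hg.pd_cont j)) (cmul (hf.pd_cont j) hg.cont)] at h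
  exact eq_neg_of_add_eq_zero_right h

/-- `∑ⱼ av (uⱼ g ∂ⱼ h) = - ∑ⱼ av (uⱼ h ∂ⱼ g)` -/
theorem transport' {u : Fin 3 → V → ℂ} (hu : ∀ i, CP (u i)) (hdiv : ∀ x, ∑ i, pd i (u i) x = 0)
    {g h : V → ℂ} (hg : CP g) (hh : CP h) :
    (∑ j, av (fun x => u j x * (g x * pd j h x))) = - ∑ j, av (fun x => u j x * (h x * pd j g x)) := by
  have h1 : ∀ j, av (fun x => u j x * (g x * pd j h x)) + av (fun x => u j x * (h x * pd j g x))
      = - av (fun x => pd j (u j) x * (g x * h x)) := by
    intro j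
    rw [ibp' (hu j) (hg.mul hh) j, neg_neg, ← av_add
      (cmul (hu j).cont (cmul hg.cont (hh.pd_cont j))) (cmul (hu j).cont (cmul hh.cont (hg.pd_cont j)))]
    congr 1
    funext x
    rw [pd_mul' (hg.diff x) (hh.diff x)]
    ring
  rw [eq_neg_iff_add_eq_zero, ← Finset.sum_add_distrib]
  simp_rw [h1]
  rw [Finset.sum_neg_distrib,
    ← av_sum fun j _ => cmul ((hu j).pd_cont j) (cmul hg.cont hh.cont)]
  have : (fun x => ∑ j, pd j (u j) x * (g x * h x)) = fun _ => 0 := by
    funext x
    rw [← Finset.sum_mul, hdiv, zero_mul]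
  rw [this]
  simp [av]

theorem press' {w : Fin 3 → V → ℂ} (hw : ∀ i, CP (w i)) (hdiv : ∀ x, ∑ i, pd i (w i) x = 0)
    {q : V → ℂ} (hq : CP q) : ∑ j, av (fun x => w j x * pd j q x) = 0 := by
  have h1 : ∀ j, av (fun x => w j x * pd j q x) = -av (fun x => pd j (w j) x * q x) := by
    intro j
    rw [ibp' (hw j) hq j]; ring
  simp_rw [h1]
  rw [Finset.sum_neg_distrib, ← av_sum fun j _ => cmul ((hw j).pd_cont j) hq.cont]
  have : (fun x => ∑ j, pd j (w j) x * q x) = fun _ => 0 := by
    funext x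
    rw [← Finset.sum_mul, hdiv, zero_mul]
  rw [this]
  simp [av]

section time

variable {E : Type*} [NormedAddCommGroup E] [NormedSpace ℝ E] [CompleteSpace E] {T : ℝ}

theorem slice_deriv {F : ℝ → V → E}
    (hF : ContDiffOn ℝ 1 (fun z : ℝ × V => F z.1 z.2) (Ioo 0 T ×ˢ univ)) {t : ℝ}
    (ht : t ∈ Ioo 0 T) (x : V) :
    HasDerivAt (fun s => F s x) (fderiv ℝ (fun z : ℝ × V => F z.1 z.2) (t, x) (1, 0)) t := by
  have hmem : Ioo 0 T ×ˢ (univ : Set V) ∈ 𝓝 (t, x) :=
    prod_mem_nhds (Ioo_mem_nhds ht.1 ht.2) Filter.univ_mem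
  have h1 : DifferentiableAt ℝ (fun z : ℝ × V => F z.1 z.2) (t, x) :=
    (hF.contDiffAt hmem).differentiableAt one_ne_zero
  have h2 : HasDerivAt (fun s : ℝ => ((s, x) : ℝ × V)) (1, 0) t :=
    (hasDerivAt_id t).prodMk (hasDerivAt_const t x)
  exact h1.hasFDerivAt.comp_hasDerivAt t h2

theorem deriv_int {F : ℝ → V → E}
    (hF : ContDiffOn ℝ 1 (fun z : ℝ × V => F z.1 z.2) (Ioo 0 T ×ˢ univ)) {t : ℝ}
    (ht : t ∈ Ioo 0 T) :
    HasDerivAt (fun s => ∫ x in cube, F s x) (∫ x in cube, deriv (fun s => F s x) t) t := by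
  obtain ⟨a, ha1, ha2⟩ := exists_between ht.1
  obtain ⟨b, hb1, hb2⟩ := exists_between ht.2
  have hO : IsOpen (Ioo 0 T ×ˢ (univ : Set V)) := isOpen_Ioo.prod isOpen_univ
  have hd : ContinuousOn (fun z : ℝ × V =>
      fderiv ℝ (fun z : ℝ × V => F z.1 z.2) z (1, 0)) (Ioo 0 T ×ˢ univ) :=
    (hF.continuousOn_fderiv_of_isOpen hO le_rfl).clm_apply continuousOn_const
  have hK : IsCompact (Icc a b ×ˢ cube) := isCompact_Icc.prod isCompact_Icc
  have hsub : Icc a b ×ˢ cube ⊆ Ioo 0 T ×ˢ (univ : Set V) :=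
    prod_mono (fun s hs => ⟨ha1.trans_le hs.1, hs.2.trans_lt hb2⟩) (subset_univ _)
  obtain ⟨C, hC⟩ := hK.exists_bound_of_continuousOn (hd.mono hsub)
  have hslice : ∀ s ∈ Ioo 0 T, Continuous (fun x => F s x) := fun s hs => by
    have := hF.continuousOn.comp_continuous (f := fun x : V => ((s, x) : ℝ × V)) (by fun_prop)
      (fun x => ⟨hs, mem_univ _⟩)
    exact this
  have hnh : Icc a b ∈ 𝓝 t := Icc_mem_nhds ha2 hb1
  have hmeas : MeasurableSet cube := measurableSet_Icc
  have := cube_finite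
  have key := (hasDerivAt_integral_of_dominated_loc_of_deriv_le (s := Icc a b)
    (F := fun s x => F s x) (F' := fun s x =>
      fderiv ℝ (fun z : ℝ × V => F z.1 z.2) (s, x) (1, 0))
    (bound := fun _ => C) (μ := volume.restrict cube) hnh ?_ ?_ ?_ ?_ ?_ ?_).2
  · have e : (∫ x in cube, deriv (fun s => F s x) t)
        = ∫ x in cube, fderiv ℝ (fun z : ℝ × V => F z.1 z.2) (t, x) (1, 0) := by
      congr 1
      funext x
      exact (slice_deriv hF ht x).deriv
    rw [e]
    exact key
  · filter_upwards [Ioo_mem_nhds ht.1 ht.2] with s hs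
    exact (hslice s hs).aestronglyMeasurable
  · exact integrableOn_cube (hslice t ht)
  · have : Continuous (fun x => fderiv ℝ (fun z : ℝ × V => F z.1 z.2) (t, x) (1, 0)) := by
      have h := hd.comp_continuous (f := fun x : V => ((t, x) : ℝ × V)) (by fun_prop)
        (fun x => ⟨ht, mem_univ _⟩)
      exact h
    exact this.aestronglyMeasurable
  · refine (ae_restrict_iff' hmeas).2 (Filter.Eventually.of_forall fun x hx s hs => ?_)
    exact hC (s, x) ⟨hs, hx⟩
  · exact integrable_const _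
  · refine Filter.Eventually.of_forall fun x s hs => ?_
    exact slice_deriv hF ⟨ha1.trans_le hs.1, hs.2.trans_lt hb2⟩ x

theorem cont_int {F : ℝ → V → E}
    (hF : ContinuousOn (fun z : ℝ × V => F z.1 z.2) (Ico 0 T ×ˢ univ)) :
    ContinuousOn (fun s => ∫ x in cube, F s x) (Ico 0 T) := by
  intro t ht
  obtain ⟨b, hb1, hb2⟩ := exists_between ht.2
  have hK : IsCompact (Icc 0 b ×ˢ cube) := isCompact_Icc.prod isCompact_Icc
  have hsub : Icc 0 b ×ˢ cube ⊆ Ico 0 T ×ˢ (univ : Set V) :=
    prod_mono (fun s hs => ⟨hs.1, hs.2.trans_lt hb2⟩) (subset_univ _)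
  obtain ⟨C, hC⟩ := hK.exists_bound_of_continuousOn (hF.mono hsub)
  have hev : ∀ᶠ s in 𝓝[Ico 0 T] t, s ∈ Icc 0 b := by
    have h1 : ∀ᶠ s in 𝓝[Ico 0 T] t, s < b := nhdsWithin_le_nhds (Iio_mem_nhds hb1)
    filter_upwards [h1, self_mem_nhdsWithin] with s hs1 hs2
    exact ⟨hs2.1, hs1.le⟩
  have hmeas : MeasurableSet cube := measurableSet_Icc
  have := cube_finite
  refine continuousWithinAt_of_dominated (bound := fun _ => C) ?_ ?_ ?_ ?_
  · filter_upwards [hev] with s hs
    have hc : Continuous (fun x => F s x) := by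
      have := hF.comp_continuous (f := fun x : V => ((s, x) : ℝ × V)) (by fun_prop)
        (fun x => ⟨⟨hs.1, hs.2.trans_lt hb2⟩, mem_univ _⟩)
      exact this
    exact hc.aestronglyMeasurable
  · filter_upwards [hev] with s hs
    refine (ae_restrict_iff' hmeas).2 (Filter.Eventually.of_forall fun x hx => ?_)
    exact hC (s, x) ⟨hs, hx⟩
  · exact integrable_const _
  · refine Filter.Eventually.of_forall fun x => ?_
    have h1 : ContinuousWithinAt (fun z : ℝ × V => F z.1 z.2)
        (Ico 0 T ×ˢ univ) (t, x) := hF (t, x) ⟨ht, mem_univ _⟩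
    exact h1.comp (t := Ico 0 T ×ˢ univ) (f := fun s : ℝ => ((s, x) : ℝ × V))
      (by fun_prop) (fun s hs => ⟨hs, mem_univ _⟩)

end time

theorem cube_sub_closure : cube ⊆ closure (interior cube) := by
  have h1 : cube = Set.pi univ fun _ : Fin 3 => Icc (0 : ℝ) 1 := by
    unfold cube
    rw [← Set.pi_univ_Icc]
    rfl
  rw [h1, interior_pi_set finite_univ, closure_pi_set]
  refine Set.pi_mono fun i _ => ?_
  rw [interior_Icc, closure_Ioo (by norm_num)]

/-- the inverse of `BL` -/
noncomputable def BLi (x : V) : V := ![(x 0 - (x 0 + x 1 + x 2) / 3) / (2 * Real.pi),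
  ((x 0 + x 1 + x 2) / 3 - x 2) / (2 * Real.pi), (x 0 + x 1 + x 2) / (6 * Real.pi)]

theorem BL_BLi (x : V) : BL (BLi x) = x := by
  have hpi : Real.pi ≠ 0 := Real.pi_ne_zero
  rw [BL_apply]
  funext k
  fin_cases k
  · simp [BLi]; field_simp; ring
  · simp [BLi]; field_simp; ring
  · simp [BLi]; field_simp; ring

/-- a nonnegative continuous periodic function with zero integral vanishes -/
theorem zero_of_int {g : V → ℝ} (hg : Continuous g) (hp : PerB g) (h0 : ∀ x, 0 ≤ g x)
    (h : ∫ y in cube, g (BL y) = 0) (x : V) : g x = 0 := by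
  have hgc : Continuous (fun y : V => g (BL y)) := hg.comp BL.continuous
  have hint : IntegrableOn (fun y : V => g (BL y)) cube := integrableOn_cube hgc
  have h1 : (fun y : V => g (BL y)) =ᵐ[volume.restrict cube] 0 :=
    (integral_eq_zero_iff_of_nonneg (fun _ => h0 _) hint).1 h
  have h2 : EqOn (fun y : V => g (BL y)) (0 : V → ℝ) cube :=
    Measure.eqOn_of_ae_eq h1 hgc.continuousOn continuousOn_const cube_sub_closure
  set y : V := BLi x with hy
  have hx : x = BL y := (BL_BLi x).symm
  rw [hx]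
  have h3 : g (BL y) = g (BL fun i => Int.fract (y i)) := by
    have := Per.int (per_scale hp) (fun i => ⌊y i⌋) (fun i => Int.fract (y i))
    rw [← this]
    congr 2
    funext i
    simp
  rw [h3]
  exact h2 (x := fun i => Int.fract (y i)) ⟨fun i => Int.fract_nonneg _,
    fun i => (Int.fract_lt_one _).le⟩

theorem per2_int {F : Type*} {f : V → F} (hf : Per2 f) (i : Fin 3) (n : ℤ) (x : V) :
    f (x + Pi.single i (n * (2 * Real.pi))) = f x := by
  have h1 : Function.Periodic f (Pi.single i (2 * Real.pi)) := fun z => hf i z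
  have h2 := h1.zsmul n x
  have h3 : (n • (Pi.single i (2 * Real.pi) : V)) = Pi.single i (n * (2 * Real.pi)) := by
    rw [← Pi.single_smul]; simp
  rwa [h3] at h2

theorem perB_of_per2 {F : Type*} {f : V → F} (hf : Per2 f) : PerB f := by
  intro i x
  have key : ∀ a b c : ℤ, f (x + ![a * (2 * Real.pi), b * (2 * Real.pi), c * (2 * Real.pi)])
      = f x := by
    intro a b c
    have e : x + ![a * (2 * Real.pi), b * (2 * Real.pi), c * (2 * Real.pi)]
        = x + Pi.single 0 (a * (2 * Real.pi)) + Pi.single 1 (b * (2 * Real.pi))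
          + Pi.single 2 (c * (2 * Real.pi)) := by
      funext k
      fin_cases k <;> simp
    rw [e, per2_int hf, per2_int hf, per2_int hf]
  rw [BL_apply]
  fin_cases i
  · have := key 1 (-1) 0
    convert this using 3 <;> simp
  · have := key 0 1 (-1)
    convert this using 3 <;> simp
  · have := key 1 1 1
    convert this using 3 <;> simp

end Pool.Agent.N978.ME
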