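import Pool.Agent.N978.ME.All

/-!
Passing from `3 × 3` to `n × n` matrices and back.
-/

open MeasureTheory Set Filter Topology Matrix
open scoped ContDiff

namespace Pool.Agent.N978.ME

open H459R3.NS

variable {n : ℕ}

/-- the block matrix with upper left block `A` and zeros elsewhere -/
def ext3 (n : ℕ) (A : Matrix (Fin 3) (Fin 3) ℂ) : Matrix (Fin n) (Fin n) ℂ :=
  Matrix.of fun p q => if h : p.val < 3 ∧ q.val < 3 then A ⟨p.val, h.1⟩ ⟨q.val, h.2⟩ else 0

theorem ext3_castLE (hn : 3 ≤ n) (A : Matrix (Fin 3) (Fin 3) ℂ) (a b : Fin 3) :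
    ext3 n A (Fin.castLE hn a) (Fin.castLE hn b) = A a b := by
  unfold ext3
  rw [Matrix.of_apply, dif_pos ⟨a.isLt, b.isLt⟩]
  rfl

theorem ext3_zero (A : Matrix (Fin 3) (Fin 3) ℂ) {p q : Fin n} (h : ¬ (p.val < 3 ∧ q.val < 3)) :
    ext3 n A p q = 0 := by
  unfold ext3
  rw [Matrix.of_apply, dif_neg h]

theorem mem_range_castLE (hn : 3 ≤ n) {p : Fin n} (hp : p.val < 3) :
    p = Fin.castLE hn ⟨p.val, hp⟩ := by
  ext; rfl

theorem ext3_one_zero : ext3 n (0 : Matrix (Fin 3) (Fin 3) ℂ) = 0 := by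
  ext p q
  unfold ext3
  rw [Matrix.of_apply]
  split_ifs <;> rfl

theorem ext3_add (A B : Matrix (Fin 3) (Fin 3) ℂ) : ext3 n (A + B) = ext3 n A + ext3 n B := by
  ext p q
  unfold ext3
  simp only [Matrix.of_apply, Matrix.add_apply]
  split_ifs <;> simp

theorem ext3_smul (r : ℂ) (A : Matrix (Fin 3) (Fin 3) ℂ) : ext3 n (r • A) = r • ext3 n A := by
  ext p q
  unfold ext3
  simp only [Matrix.of_apply, Matrix.smul_apply]
  split_ifs <;> simp

theorem ext3_sum {κ : Type*} (s : Finset κ) (A : κ → Matrix (Fin 3) (Fin 3) ℂ) :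
    ext3 n (∑ k ∈ s, A k) = ∑ k ∈ s, ext3 n (A k) := by
  classical
  induction s using Finset.induction_on with
  | empty => simp [ext3_one_zero]
  | insert a s ha ih => rw [Finset.sum_insert ha, Finset.sum_insert ha, ext3_add, ih]

theorem ext3_mul (hn : 3 ≤ n) (A B : Matrix (Fin 3) (Fin 3) ℂ) :
    ext3 n (A * B) = ext3 n A * ext3 n B := by
  ext p q
  rw [Matrix.mul_apply]
  by_cases hp : p.val < 3
  · by_cases hq : q.val < 3
    · rw [mem_range_castLE hn hp, mem_range_castLE hn hq, ext3_castLE, Matrix.mul_apply]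
      refine Fintype.sum_of_injective (Fin.castLE hn) (Fin.castLE_injective hn) _ _ ?_ ?_
      · intro l hl
        have hl3 : ¬ l.val < 3 := fun h => hl ⟨⟨l.val, h⟩, (mem_range_castLE hn h).symm⟩
        rw [ext3_zero A (fun h => hl3 h.2), zero_mul]
      · intro l
        rw [ext3_castLE, ext3_castLE]
    · rw [ext3_zero _ (fun h => hq h.2)]
      symm
      refine Finset.sum_eq_zero fun l _ => ?_
      rw [ext3_zero B (fun h => hq h.2), mul_zero]
  · rw [ext3_zero _ (fun h => hp h.1)]
    symm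
    refine Finset.sum_eq_zero fun l _ => ?_
    rw [ext3_zero A (fun h => hp h.1), zero_mul]

theorem ext3_herm {A : Matrix (Fin 3) (Fin 3) ℂ} (hA : A.IsHermitian) :
    (ext3 n A).IsHermitian := by
  ext p q
  rw [Matrix.conjTranspose_apply]
  by_cases h : p.val < 3 ∧ q.val < 3
  · unfold ext3
    rw [Matrix.of_apply, Matrix.of_apply, dif_pos h, dif_pos ⟨h.2, h.1⟩]
    exact hA.apply _ _
  · rw [ext3_zero A h, ext3_zero A (fun h' => h ⟨h'.2, h'.1⟩), star_zero]

theorem ext3_pdM (F : V → Matrix (Fin 3) (Fin 3) ℂ) (i : Fin 3) (x : V) :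
    pdM i (fun y => ext3 n (F y)) x = ext3 n (pdM i F x) := by
  ext p q
  unfold pdM
  rw [Matrix.of_apply]
  by_cases h : p.val < 3 ∧ q.val < 3
  · have e : (fun y => ext3 n (F y) p q) = fun y => F y ⟨p.val, h.1⟩ ⟨q.val, h.2⟩ := by
      funext y
      unfold ext3
      rw [Matrix.of_apply, dif_pos h]
    rw [e]
    unfold ext3
    rw [Matrix.of_apply, dif_pos h]
    rfl
  · have e : (fun y => ext3 n (F y) p q) = fun _ => 0 := by
      funext y
      exact ext3_zero _ h
    rw [e, ext3_zero _ h]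
    unfold pd
    simp

/-- entries of the extended field are entries of the field or zero -/
theorem ext3_cases (p q : Fin n) : (∃ a b : Fin 3, ∀ A : Matrix (Fin 3) (Fin 3) ℂ,
    ext3 n A p q = A a b) ∨ (∀ A : Matrix (Fin 3) (Fin 3) ℂ, ext3 n A p q = 0) := by
  by_cases h : p.val < 3 ∧ q.val < 3
  · left
    refine ⟨⟨p.val, h.1⟩, ⟨q.val, h.2⟩, fun A => ?_⟩
    unfold ext3
    rw [Matrix.of_apply, dif_pos h]
  · right
    exact fun A => ext3_zero A h

theorem Sol.ext {T : ℝ} {u : ℝ → V → Fin 3 → Matrix (Fin 3) (Fin 3) ℂ}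
    {P : ℝ → V → Matrix (Fin 3) (Fin 3) ℂ} (hn : 3 ≤ n) (hu : Sol (Fin 3) T u P) :
    Sol (Fin n) T (fun t x j => ext3 n (u t x j)) (fun t x => ext3 n (P t x)) := by
  refine ⟨fun j p q => ?_, fun p q => ?_, fun t ht i x => ?_, fun t ht i x => ?_,
    fun t ht x j => ext3_herm (hu.herm t ht x j), fun t ht x p q => ?_, fun t ht x j p q => ?_⟩
  · rcases ext3_cases p q with ⟨a, b, h⟩ | h
    · simp only [h]; exact hu.c1_u j a b
    · simp only [h]; exact contDiffOn_const
  · rcases ext3_cases p q with ⟨a, b, h⟩ | h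
    · simp only [h]; exact hu.c1_P a b
    · simp only [h]; exact contDiffOn_const
  · funext j
    rw [hu.per_u t ht i x]
  · simp only [hu.per_P t ht i x]
  · rcases ext3_cases p q with ⟨a, b, h⟩ | h
    · simp only [h]; exact hu.divfree t ht x a b
    · simp only [h]
      refine Finset.sum_eq_zero fun j _ => ?_
      unfold pd
      simp
  · have h1 : adv (fun i => ext3 n (u t x i)) (fun i => pdM i (fun y => ext3 n (u t y j)) x)
        = ext3 n (adv (u t x) (fun i => pdM i (fun y => u t y j) x)) := by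
      unfold adv
      rw [ext3_smul, ext3_sum]
      congr 1
      refine Finset.sum_congr rfl fun i _ => ?_
      beta_reduce
      rw [ext3_pdM, ext3_add, ext3_mul hn, ext3_mul hn]
    rw [h1]
    rcases ext3_cases p q with ⟨a, b, h⟩ | h
    · simp only [h]; exact hu.momentum t ht x j a b
    · simp only [h]
      unfold pd
      simp

/-- the restriction to the upper left block -/
theorem Sol.restr {T : ℝ} {u : ℝ → V → Fin 3 → Matrix (Fin n) (Fin n) ℂ}
    {P : ℝ → V → Matrix (Fin n) (Fin n) ℂ} (hn : 3 ≤ n) (hu : Sol (Fin n) T u P)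
    (hz : ∀ t ∈ Ico 0 T, ∀ x j, ∀ p q : Fin n, p.val < 3 → ¬ q.val < 3 → u t x j p q = 0) :
    Sol (Fin 3) T (fun t x j => (u t x j).submatrix (Fin.castLE hn) (Fin.castLE hn))
      (fun t x => (P t x).submatrix (Fin.castLE hn) (Fin.castLE hn)) := by
  refine ⟨fun j p q => hu.c1_u j _ _, fun p q => hu.c1_P _ _, fun t ht i x => ?_,
    fun t ht i x => ?_, fun t ht x j => (hu.herm t ht x j).submatrix _,
    fun t ht x p q => hu.divfree t ht x _ _, fun t ht x j p q => ?_⟩
  · funext j
    rw [hu.per_u t ht i x]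
  · simp only [hu.per_P t ht i x]
  · have hI : t ∈ Ico 0 T := ⟨ht.1.le, ht.2⟩
    have h1 := hu.momentum t ht x j (Fin.castLE hn p) (Fin.castLE hn q)
    have h2 : adv (fun i => (u t x i).submatrix (Fin.castLE hn) (Fin.castLE hn))
        (fun i => pdM i (fun y => (u t y j).submatrix (Fin.castLE hn) (Fin.castLE hn)) x) p q
        = adv (u t x) (fun i => pdM i (fun y => u t y j) x) (Fin.castLE hn p) (Fin.castLE hn q) := by
      rw [adv_apply, adv_apply]
      congr 1
      refine Finset.sum_congr rfl fun i _ => ?_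
      refine Fintype.sum_of_injective (Fin.castLE hn) (Fin.castLE_injective hn) _ _ ?_ ?_
      · intro l hl
        have hl3 : ¬ l.val < 3 := fun h => hl ⟨⟨l.val, h⟩, (mem_range_castLE hn h).symm⟩
        have z1 : u t x i (Fin.castLE hn p) l = 0 := hz t hI x i _ l p.isLt hl3
        have z2 : pdM i (fun y => u t y j) x (Fin.castLE hn p) l = 0 := by
          unfold pdM
          rw [Matrix.of_apply]
          have e : (fun y => u t y j (Fin.castLE hn p) l) = fun _ => 0 := by
            funext y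
            exact hz t hI y j _ l p.isLt hl3
          rw [e]
          unfold pd
          simp
        rw [z1, z2, zero_mul, zero_mul, add_zero]
      · intro l
        rfl
    rw [h2]
    exact h1

/-- the entries outside the two diagonal blocks vanish -/
theorem cross_zero {T : ℝ} {u : ℝ → V → Fin 3 → Matrix (Fin n) (Fin n) ℂ}
    {P : ℝ → V → Matrix (Fin n) (Fin n) ℂ} (hu : Sol (Fin n) T u P)
    (h0 : ∀ x j, ∀ p q : Fin n, ¬ (p.val < 3 ∧ q.val < 3) → u 0 x j p q = 0) :
    ∀ t ∈ Ico 0 T, ∀ x j, ∀ p q : Fin n, p.val < 3 → ¬ q.val < 3 → u t x j p q = 0 := by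
  intro t ht x j p q hp hq
  set d : Fin n → ℂ := fun p => if p.val < 3 then 1 else -1 with hd
  have h1 := sym_diag hu (d := d) (h := 0) (fun p => by
    simp only [hd]
    split_ifs <;> simp) (fun x j p q => by
      rw [add_zero]
      by_cases h : p.val < 3 ∧ q.val < 3
      · simp [hd, h.1, h.2]
      · rw [h0 x j p q h, mul_zero]) ht x j p q
  rw [add_zero] at h1
  simp only [hd, if_pos hp, if_neg hq] at h1
  simp at h1
  have := self_eq_neg.1 h1.symm
  exact this

end Pool.Agent.N978.ME
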