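import Pool.Agent.N978.ME.Emb

/-!
The solutions with the special initial values: final theorem.
-/

open MeasureTheory Set Filter Topology Matrix
open scoped ContDiff

namespace Pool.Agent.N978.ME

open H459R3.NS

/-- the pressure profile -/
noncomputable def qf (P : ℝ → V → Matrix (Fin 3) (Fin 3) ℂ) (t s : ℝ) : ℝ :=
  ((P t (0 + s • fun _ => 1 / 3) 0 1 - P t (pa + s • fun _ => 1 / 3) 0 1) / 2).re

section conv

variable {T : ℝ} {u : ℝ → V → Fin 3 → Matrix (Fin 3) (Fin 3) ℂ}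
    {P : ℝ → V → Matrix (Fin 3) (Fin 3) ℂ}

theorem qf_c1 (hu : Sol (Fin 3) T u P) :
    ContDiffOn ℝ 1 (fun z : ℝ × ℝ => qf P z.1 z.2) (Ico 0 T ×ˢ univ) := by
  have key : ∀ a : V, ContDiffOn ℝ 1 (fun z : ℝ × ℝ => P z.1 (a + z.2 • fun _ => 1 / 3) 0 1)
      (Ico 0 T ×ˢ univ) := by
    intro a
    have hm : MapsTo (fun z : ℝ × ℝ => ((z.1, a + z.2 • fun _ => 1 / 3) : ℝ × V)) (Ico 0 T ×ˢ univ)
        (Ico 0 T ×ˢ univ) := fun z hz => ⟨hz.1, mem_univ _⟩
    have hg : ContDiffOn ℝ 1 (fun z : ℝ × ℝ => ((z.1, a + z.2 • fun _ => 1 / 3) : ℝ × V))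
        (Ico 0 T ×ˢ univ) :=
      (contDiff_fst.prodMk (contDiff_const.add (contDiff_snd.smul contDiff_const))).contDiffOn
    exact (hu.c1_P 0 1).comp hg hm
  exact Complex.reCLM.contDiff.comp_contDiffOn (((key 0).sub (key pa)).div_const 2)

variable (hu : Sol (Fin 3) T u P) (hpu : ∀ t ∈ Ico 0 T, Per2 (u t))
    (hpP : ∀ t ∈ Ico 0 T, Per2 (P t)) {w0 g0 : ℝ → ℝ} (hw0 : ∀ s, w0 (-s) = -w0 s)
    (hg0 : ∀ s, g0 (-s) = g0 s) (h0 : ∀ x j p q, u 0 x j p q = dat w0 g0 x j p q)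

include hu hpu hpP hw0 hg0 h0

theorem qf_eq {t : ℝ} (ht : t ∈ Ioo 0 T) : qf P t = fun s => -(deriv (fun τ => gf u τ s) t
            + 1 / 2 * (gf u t s ^ 2 + 3 * (wf u t s * deriv (gf u t) s))) := by
  have hI : t ∈ Ico 0 T := ⟨ht.1.le, ht.2⟩
  funext s
  have h1 := (press_lemma0 (p := fun y => P t y 0 1)
    (A := fun s => deriv (fun τ => wf u τ s) t + 3 * (wf u t s * gf u t s))
    (B := fun s => deriv (fun τ => gf u τ s) t
            + 1 / 2 * (gf u t s ^ 2 + 3 * (wf u t s * deriv (gf u t) s)))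
    (fun x => (hu.cpP hI 0 1).diff x)
    (fun x j => press_eq hu hpu hpP hw0 hg0 h0 ht x j) s).1
  unfold qf
  have h2 : (P t (0 + s • fun _ => 1 / 3) 0 1 - P t (pa + s • fun _ => 1 / 3) 0 1) / 2
      = ((-(deriv (fun τ => gf u τ s) t
            + 1 / 2 * (gf u t s ^ 2 + 3 * (wf u t s * deriv (gf u t) s))) : ℝ) : ℂ) := by
    push_cast at h1 ⊢
    linear_combination (-1 / 2 : ℂ) * h1
  rw [h2, Complex.ofReal_re]

theorem deriv_wf {t : ℝ} (ht : t ∈ Ico 0 T) : deriv (wf u t) = fun s => 2 / 3 * gf u t s :=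
  funext fun s => (wf_deriv hu hpu hpP hw0 hg0 h0 ht s).deriv

theorem to_CH : CH T (wf u) (qf P) := by
  have hq : ∀ t ∈ Ioo 0 T, Function.Periodic (qf P t) (2 * Real.pi) := by
    intro t ht
    rw [qf_eq hu hpu hpP hw0 hg0 h0 ht]
    exact q_per hu hpu hpP hw0 hg0 h0 ht
  refine ⟨wf_c1 hu, ?_, qf_c1 hu, fun t ht => wf_per hu hpu hpP hw0 hg0 h0 ht, ?_, ?_, ?_⟩
  · have h1 : ContDiffOn ℝ 1 (fun z : ℝ × ℝ => 2 / 3 * gf u z.1 z.2) (Ico 0 T ×ˢ univ) :=
      contDiffOn_const.mul (gf_c1 hu)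
    refine h1.congr fun z hz => ?_
    rw [deriv_wf hu hpu hpP hw0 hg0 h0 hz.1]
  · intro t ht
    rcases eq_or_lt_of_le ht.1 with h | h
    · subst h
      intro s
      have hc : ContinuousOn (fun t => qf P t (s + 2 * Real.pi) - qf P t s) (Ico 0 T) := by
        have key : ∀ r : ℝ, ContinuousOn (fun t => qf P t r) (Ico 0 T) := by
          intro r
          have h1 : ContinuousOn (fun t : ℝ => ((t, r) : ℝ × ℝ)) (Ico 0 T) := by fun_prop
          exact (qf_c1 hu).continuousOn.comp h1 fun t ht => ⟨ht, mem_univ _⟩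
        exact (key _).sub (key _)
      have h2 : Tendsto (fun t => qf P t (s + 2 * Real.pi) - qf P t s) (𝓝[Ioo 0 T] 0)
          (𝓝 (qf P 0 (s + 2 * Real.pi) - qf P 0 s)) :=
        (hc 0 ht).mono_left (nhdsWithin_mono 0 Ioo_subset_Ico_self)
      have h3 : Tendsto (fun t => qf P t (s + 2 * Real.pi) - qf P t s) (𝓝[Ioo 0 T] 0) (𝓝 0) := by
        refine tendsto_const_nhds.congr' ?_
        filter_upwards [self_mem_nhdsWithin] with t ht'
        rw [hq t ht' s, sub_self]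
      have hne : (𝓝[Ioo 0 T] (0 : ℝ)).NeBot := by
        rw [← mem_closure_iff_nhdsWithin_neBot, closure_Ioo ht.2.ne]
        exact ⟨le_rfl, ht.2.le⟩
      have h4 := tendsto_nhds_unique h2 h3
      linarith
    · exact hq t ⟨h, ht.2⟩
  · intro t ht s
    have hI : t ∈ Ico 0 T := ⟨ht.1.le, ht.2⟩
    have h1 : deriv (qf P t) s
        = -(deriv (fun τ => wf u τ s) t + 6 * (1 / 2) * (wf u t s * gf u t s)) := by
      rw [qf_eq hu hpu hpP hw0 hg0 h0 ht]
      exact (q_deriv hu hpu hpP hw0 hg0 h0 ht s).deriv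
    rw [h1, deriv_wf hu hpu hpP hw0 hg0 h0 hI]
    ring
  · intro t ht s
    have hI : t ∈ Ico 0 T := ⟨ht.1.le, ht.2⟩
    have h1 : deriv (fun τ => deriv (wf u τ) s) t = 2 / 3 * deriv (fun τ => gf u τ s) t := by
      have h2 : deriv (fun τ => deriv (wf u τ) s) t = deriv (fun τ => 2 / 3 * gf u τ s) t := by
        apply Filter.EventuallyEq.deriv_eq
        filter_upwards [Ioo_mem_nhds ht.1 ht.2] with τ hτ
        rw [deriv_wf hu hpu hpP hw0 hg0 h0 ⟨hτ.1.le, hτ.2⟩]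
      rw [h2]
      exact deriv_const_mul _ (slice1 (gf_c1 hu) t ht s).differentiableAt
    have h3 : deriv (deriv (wf u t)) s = 2 / 3 * deriv (gf u t) s := by
      rw [deriv_wf hu hpu hpP hw0 hg0 h0 hI]
      exact deriv_const_mul _ (slice_R (gf_c1 hu) hI s).differentiableAt
    rw [h1, h3, deriv_wf hu hpu hpP hw0 hg0 h0 hI, qf_eq hu hpu hpP hw0 hg0 h0 ht]
    ring

theorem struct_CH {t : ℝ} (ht : t ∈ Ico 0 T) (x : V) (j : Fin 3) :
    u t x j = Matrix.of (dat (wf u t) (fun s => 3 / 2 * deriv (wf u t) s) x j) := by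
  ext p q
  rw [struct hu hpu hpP hw0 hg0 h0 ht, Matrix.of_apply]
  congr 1
  funext s
  rw [deriv_wf hu hpu hpP hw0 hg0 h0 ht]
  ring

end conv

theorem deriv_even {w0 : ℝ → ℝ} (hw0 : ∀ s, w0 (-s) = -w0 s) (s : ℝ) :
    deriv w0 (-s) = deriv w0 s := by
  have h1 : deriv (fun s => w0 (-s)) s = -deriv w0 (-s) := deriv_comp_neg w0 s
  have h2 : (fun s => w0 (-s)) = fun s => -w0 s := funext hw0
  rw [h2] at h1
  have h3 : deriv (fun s => -w0 s) s = -deriv w0 s := by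
    simp
  linarith

/-- the special field with `n × n` matrices -/
noncomputable def fld (n : ℕ) (w : ℝ → ℝ) (x : V) (j : Fin 3) : Matrix (Fin n) (Fin n) ℂ :=
  ext3 n (Matrix.of (dat w (fun s => 3 / 2 * deriv w s) x j))

theorem final {n : ℕ} (hn : 3 ≤ n) {T : ℝ} {u : ℝ → V → Fin 3 → Matrix (Fin n) (Fin n) ℂ}
    {P : ℝ → V → Matrix (Fin n) (Fin n) ℂ} (hu : Sol (Fin n) T u P)
    (hpu : ∀ t ∈ Ico 0 T, Per2 (u t)) (hpP : ∀ t ∈ Ico 0 T, Per2 (P t)) {w0 : ℝ → ℝ}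
    (hw0 : ∀ s, w0 (-s) = -w0 s) (h0 : u 0 = fld n w0) :
    (∃ w q, CH T w q ∧ w 0 = w0 ∧ ∀ t ∈ Ico 0 T, u t = fld n (w t)) ∧
    (deriv w0 0 < 0 → T ≤ 4 / (3 * -deriv w0 0)) := by
  have hz := cross_zero hu (fun x j p q h => by
    rw [h0]
    exact ext3_zero _ h)
  have hr := Sol.restr hn hu hz
  set u' : ℝ → V → Fin 3 → Matrix (Fin 3) (Fin 3) ℂ :=
    fun t x j => (u t x j).submatrix (Fin.castLE hn) (Fin.castLE hn) with hu'
  set P' : ℝ → V → Matrix (Fin 3) (Fin 3) ℂ :=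
    fun t x => (P t x).submatrix (Fin.castLE hn) (Fin.castLE hn) with hP'
  have hpu' : ∀ t ∈ Ico 0 T, Per2 (u' t) := by
    intro t ht i x
    simp only [hu']
    rw [hpu t ht i x]
  have hpP' : ∀ t ∈ Ico 0 T, Per2 (P' t) := by
    intro t ht i x
    simp only [hP']
    rw [hpP t ht i x]
  have hev : ∀ s, (fun s => 3 / 2 * deriv w0 s) (-s) = (fun s => 3 / 2 * deriv w0 s) s := by
    intro s
    simp only [deriv_even hw0 s]
  have h0' : ∀ x j p q, u' 0 x j p q = dat w0 (fun s => 3 / 2 * deriv w0 s) x j p q := by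
    intro x j p q
    simp only [hu', h0, Matrix.submatrix_apply]
    unfold fld
    rw [ext3_castLE, Matrix.of_apply]
  have hCH := to_CH hr hpu' hpP' hw0 hev h0'
  refine ⟨⟨wf u', qf P', hCH, ?_, ?_⟩, fun hneg => ?_⟩
  · funext s
    unfold wf
    rw [h0']
    have n01 : ¬ (0 : Fin 3) = 1 := by decide
    have hl2 : lam 2 0 1 = 0 := by unfold lam; simp
    unfold dat
    rw [if_neg n01, hl2]
    have e : s / 3 + s / 3 + s / 3 = s := by ring
    simp [e]
  · intro t ht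
    have h1 := Sol.ext hn hr
    have h2 : (fun x j => ext3 n (u' 0 x j)) = u 0 := by
      rw [h0]
      funext x j
      unfold fld
      congr 1
      ext p q
      rw [h0', Matrix.of_apply]
    have h3 := uniq h1 hu h2 ht
    rw [← h3]
    funext x j
    unfold fld
    rw [struct_CH hr hpu' hpP' hw0 hev h0' ht]
  · have h1 := blowup3 hr hpu' hpP' hw0 hev h0' (by linarith)
    refine h1.trans (le_of_eq ?_)
    field_simp
    try ring

theorem CH.classical {n : ℕ} (hn : 3 ≤ n) {T : ℝ} {w q : ℝ → ℝ → ℝ} (h : CH T w q) :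
    ∃ P, Sol (Fin n) T (fun t => fld n (w t)) P ∧ (∀ t ∈ Ico 0 T, Per2 (fld n (w t))) ∧
      ∀ t ∈ Ico 0 T, Per2 (P t) := by
  have hgper : ∀ t ∈ Ico 0 T, Function.Periodic (fun s => 3 / 2 * deriv (w t) s) (2 * Real.pi) := by
    intro t ht s
    have h3 : deriv (fun s => w t (s + 2 * Real.pi)) s = deriv (w t) (s + 2 * Real.pi) :=
      deriv_comp_add_const _ _ _
    have h4 : (fun s => w t (s + 2 * Real.pi)) = w t := funext (h.per_w t ht)
    rw [h4] at h3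
    simp only
    rw [← h3]
  refine ⟨_, Sol.ext hn (CH.sol h), fun t ht i x => ?_, fun t ht i x => ?_⟩
  · funext j
    unfold fld
    congr 1
    ext p p'
    exact dat_per (h.per_w t ht) (hgper t ht) j p p' i x
  · beta_reduce
    congr 1
    ext p p'
    exact prs_per (h.per_w t ht) (h.per_q t ht) p p' i x

end Pool.Agent.N978.ME
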