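import Pool.Agent.N978.ME.Block

/-!
Solutions of the Camassa-Holm system give solutions of the Euler equations with values in Hermitian
`3 × 3` matrices, and conversely.
-/

open MeasureTheory Set Filter Topology Matrix
open scoped ContDiff

namespace Pool.Agent.N978.ME

open H459R3.NS

/-- Periodic solutions of the Camassa-Holm equation, written as a system for `w` and for the
pressure `q`. -/
structure CH (T : ℝ) (w q : ℝ → ℝ → ℝ) : Prop where
  c1_w : ContDiffOn ℝ 1 (fun z : ℝ × ℝ => w z.1 z.2) (Ico 0 T ×ˢ univ)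
  c1_dw : ContDiffOn ℝ 1 (fun z : ℝ × ℝ => deriv (w z.1) z.2) (Ico 0 T ×ˢ univ)
  c1_q : ContDiffOn ℝ 1 (fun z : ℝ × ℝ => q z.1 z.2) (Ico 0 T ×ˢ univ)
  per_w : ∀ t ∈ Ico 0 T, Function.Periodic (w t) (2 * Real.pi)
  per_q : ∀ t ∈ Ico 0 T, Function.Periodic (q t) (2 * Real.pi)
  eq1 : ∀ t ∈ Ioo 0 T, ∀ s, deriv (fun τ => w τ s) t + 9 / 2 * (w t s * deriv (w t) s)
    + deriv (q t) s = 0
  eq2 : ∀ t ∈ Ioo 0 T, ∀ s, q t s + 3 / 2 * deriv (fun τ => deriv (w τ) s) t
    + 9 / 8 * deriv (w t) s ^ 2 + 9 / 4 * (w t s * deriv (deriv (w t)) s) = 0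

/-- the pressure of the special solutions -/
noncomputable def prs (w q : ℝ → ℝ) (x : V) (p p' : Fin 3) : ℂ :=
  if p = p' then ((-(6 * w (x 0 + x 1 + x 2) ^ 2) : ℝ) : ℂ) else
    Complex.exp (Complex.I * ((x p : ℂ) - x p')) * (q (x 0 + x 1 + x 2) : ℂ)

theorem c1_comp {T : ℝ} {f : ℝ → ℝ → ℝ}
    (hf : ContDiffOn ℝ 1 (fun z : ℝ × ℝ => f z.1 z.2) (Ico 0 T ×ˢ univ)) :
    ContDiffOn ℝ 1 (fun z : ℝ × V => ((f z.1 (z.2 0 + z.2 1 + z.2 2) : ℝ) : ℂ))
      (Ico 0 T ×ˢ univ) := by
  have hm : MapsTo (fun z : ℝ × V => ((z.1, sL z.2) : ℝ × ℝ)) (Ico 0 T ×ˢ univ)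
      (Ico 0 T ×ˢ univ) := fun z hz => ⟨hz.1, mem_univ _⟩
  have hg : ContDiffOn ℝ 1 (fun z : ℝ × V => ((z.1, sL z.2) : ℝ × ℝ)) (Ico 0 T ×ˢ univ) :=
    (contDiff_fst.prodMk (sL.contDiff.comp contDiff_snd)).contDiffOn
  exact Complex.ofRealCLM.contDiff.comp_contDiffOn (hf.comp hg hm)

theorem c1_exp (p q : Fin 3) : ContDiff ℝ 1 (fun z : ℝ × V =>
    Complex.exp (Complex.I * ((z.2 p : ℂ) - z.2 q))) := by
  have h1 : ∀ k : Fin 3, ContDiff ℝ 1 (fun z : ℝ × V => ((z.2 k : ℝ) : ℂ)) := fun k =>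
    Complex.ofRealCLM.contDiff.comp ((contDiff_apply ℝ ℝ k).comp contDiff_snd)
  exact (contDiff_const.mul ((h1 p).sub (h1 q))).cexp

theorem exp_per (i p q : Fin 3) (x : V) :
    Complex.exp (Complex.I * ((((x + Pi.single i (2 * Real.pi) : V) p : ℝ) : ℂ)
      - (((x + Pi.single i (2 * Real.pi) : V) q : ℝ) : ℂ)))
      = Complex.exp (Complex.I * ((x p : ℂ) - x q)) := by
  have key : ∀ k : Fin 3, Complex.exp (Complex.I * (((x + Pi.single i (2 * Real.pi) : V) k : ℝ) : ℂ))
      = Complex.exp (Complex.I * (x k : ℂ)) := by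
    intro k
    simp only [Pi.add_apply, Pi.single_apply]
    split_ifs
    · push_cast
      rw [mul_add, Complex.exp_add]
      have : Complex.exp (Complex.I * (2 * Real.pi)) = 1 := by
        rw [mul_comm]; exact Complex.exp_two_pi_mul_I
      rw [this, mul_one]
    · rw [add_zero]
  rw [mul_sub, mul_sub, Complex.exp_sub, Complex.exp_sub, key, key]

theorem sum_per (i : Fin 3) (x : V) : (x + Pi.single i (2 * Real.pi) : V) 0
    + (x + Pi.single i (2 * Real.pi) : V) 1 + (x + Pi.single i (2 * Real.pi) : V) 2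
    = x 0 + x 1 + x 2 + 2 * Real.pi := by
  fin_cases i <;> simp <;> ring

theorem dat_per {w g : ℝ → ℝ} (hw : Function.Periodic w (2 * Real.pi))
    (hg : Function.Periodic g (2 * Real.pi)) (j p q : Fin 3) : Per2 (fun x => dat w g x j p q) := by
  intro i x
  unfold dat
  beta_reduce
  rw [sum_per i x, exp_per i p q x, hw (x 0 + x 1 + x 2), hg (x 0 + x 1 + x 2)]

theorem prs_per {w q : ℝ → ℝ} (hw : Function.Periodic w (2 * Real.pi))
    (hq : Function.Periodic q (2 * Real.pi)) (p p' : Fin 3) : Per2 (fun x => prs w q x p p') := by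
  intro i x
  unfold prs
  beta_reduce
  rw [sum_per i x, exp_per i p p' x, hw (x 0 + x 1 + x 2), hq (x 0 + x 1 + x 2)]

theorem dat_herm (w g : ℝ → ℝ) (x : V) (j : Fin 3) :
    (Matrix.of (dat w g x j)).IsHermitian := by
  ext p q
  rw [Matrix.conjTranspose_apply, Matrix.of_apply, Matrix.of_apply]
  unfold dat
  by_cases h : p = q
  · rw [if_pos h, if_pos h.symm, star_zero]
  · rw [if_neg h, if_neg (Ne.symm h)]
    rw [star_mul', star_add, star_mul', star_mul', RCLike.star_def, ← Complex.exp_conj]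
    simp only [RCLike.star_def, map_mul, map_sub, Complex.conj_I, Complex.conj_ofReal]
    have hl : (starRingEnd ℂ) (lam j q p) = lam j q p := by
      unfold lam
      rw [map_sub]
      split_ifs <;> simp
    have hl2 : lam j q p = - lam j p q := by unfold lam; ring
    rw [hl, hl2]
    have e : -Complex.I * ((x q : ℂ) - x p) = Complex.I * ((x p : ℂ) - x q) := by ring
    rw [e]
    ring

theorem pd_prs {w q : ℝ → ℝ} {w' q' : ℝ} {x : V} (hw : HasDerivAt w w' (x 0 + x 1 + x 2))
    (hq : HasDerivAt q q' (x 0 + x 1 + x 2)) (i p p' : Fin 3) :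
    pd i (fun y => prs w q y p p') x = if p = p' then -(12 * (w (x 0 + x 1 + x 2) * w') : ℂ) else
      Complex.exp (Complex.I * ((x p : ℂ) - x p')) * (Complex.I * lam i p p'
        * (q (x 0 + x 1 + x 2) : ℂ) + (q' : ℂ)) := by
  by_cases hpq : p = p'
  · rw [if_pos hpq]
    have e : (fun y => prs w q y p p') = fun y => ((-(6 * w (y 0 + y 1 + y 2) ^ 2) : ℝ) : ℂ) := by
      funext y; unfold prs; rw [if_pos hpq]
    have h1 : HasDerivAt (fun s => -(6 * w s ^ 2)) (-(6 * (2 * w (x 0 + x 1 + x 2) * w')))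
        (x 0 + x 1 + x 2) := by
      refine (((hw.pow 2).const_mul 6).neg).congr_deriv ?_
      push_cast
      ring
    have h2 := pd_sum_fun h1
    rw [e]
    unfold pd
    rw [h2.fderiv]
    simp only [ContinuousLinearMap.comp_apply, _root_.smul_apply, sL_single,
      Complex.ofRealCLM_apply, smul_eq_mul]
    push_cast
    ring
  · rw [if_neg hpq]
    have e : (fun y => prs w q y p p') = fun y => dat q (fun _ => 0) y 0 p p' := by
      funext y; unfold prs dat; rw [if_neg hpq, if_neg hpq]; simp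
    rw [e, pd_dat hq (hasDerivAt_const _ _), if_neg hpq]
    simp

theorem CH.sol {T : ℝ} {w q : ℝ → ℝ → ℝ} (h : CH T w q) :
    Sol (Fin 3) T (fun t x j => Matrix.of (dat (w t) (fun s => 3 / 2 * deriv (w t) s) x j))
      (fun t x => Matrix.of (prs (w t) (q t) x)) := by
  have hdw : ContDiffOn ℝ 1 (fun z : ℝ × ℝ => 3 / 2 * deriv (w z.1) z.2) (Ico 0 T ×ˢ univ) :=
    contDiffOn_const.mul h.c1_dw
  have hws : ∀ t ∈ Ico 0 T, ∀ s, HasDerivAt (w t) (2 / 3 * (3 / 2 * deriv (w t) s)) s := by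
    intro t ht s
    refine (slice_R h.c1_w ht s).congr_deriv ?_
    ring
  have hgs : ∀ t ∈ Ico 0 T, ∀ s, HasDerivAt (fun s => 3 / 2 * deriv (w t) s)
      (3 / 2 * deriv (deriv (w t)) s) s := by
    intro t ht s
    exact (slice_R (f := fun t s => deriv (w t) s) h.c1_dw ht s).const_mul _
  have hgper : ∀ t ∈ Ico 0 T, Function.Periodic (fun s => 3 / 2 * deriv (w t) s) (2 * Real.pi) := by
    intro t ht s
    have h3 : deriv (fun s => w t (s + 2 * Real.pi)) s = deriv (w t) (s + 2 * Real.pi) :=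
      deriv_comp_add_const _ _ _
    have h4 : (fun s => w t (s + 2 * Real.pi)) = w t := funext (h.per_w t ht)
    rw [h4] at h3
    simp only
    rw [← h3]
  refine ⟨fun j p p' => ?_, fun p p' => ?_, fun t ht => perB_of_per2 fun i x => ?_,
    fun t ht => perB_of_per2 fun i x => ?_, fun t ht x j => dat_herm _ _ _ _, fun t ht x p p' => ?_,
    fun t ht x j p p' => ?_⟩
  · by_cases hp : p = p'
    · have e : (fun z : ℝ × V => (Matrix.of (dat (w z.1) (fun s => 3 / 2 * deriv (w z.1) s) z.2 j)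
          : Matrix (Fin 3) (Fin 3) ℂ) p p') = fun _ => 0 := by
        funext z
        rw [Matrix.of_apply]
        unfold dat
        rw [if_pos hp]
      rw [e]
      exact contDiffOn_const
    · have e : (fun z : ℝ × V => (Matrix.of (dat (w z.1) (fun s => 3 / 2 * deriv (w z.1) s) z.2 j)
          : Matrix (Fin 3) (Fin 3) ℂ) p p')
          = fun z => Complex.exp (Complex.I * ((z.2 p : ℂ) - z.2 p'))
            * (((w z.1 (z.2 0 + z.2 1 + z.2 2) : ℝ) : ℂ) + Complex.I * lam j p p'
              * ((3 / 2 * deriv (w z.1) (z.2 0 + z.2 1 + z.2 2) : ℝ) : ℂ)) := by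
        funext z
        rw [Matrix.of_apply]
        unfold dat
        rw [if_neg hp]
      rw [e]
      exact (c1_exp p p').contDiffOn.mul ((c1_comp h.c1_w).add
        (contDiffOn_const.mul (c1_comp (f := fun t s => 3 / 2 * deriv (w t) s) hdw)))
  · by_cases hp : p = p'
    · have e : (fun z : ℝ × V => (Matrix.of (prs (w z.1) (q z.1) z.2)
          : Matrix (Fin 3) (Fin 3) ℂ) p p')
          = fun z => -(6 * ((w z.1 (z.2 0 + z.2 1 + z.2 2) : ℝ) : ℂ) ^ 2) := by
        funext z
        rw [Matrix.of_apply]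
        unfold prs
        rw [if_pos hp]
        push_cast
        rfl
      rw [e]
      exact (contDiffOn_const.mul ((c1_comp h.c1_w).pow 2)).neg
    · have e : (fun z : ℝ × V => (Matrix.of (prs (w z.1) (q z.1) z.2)
          : Matrix (Fin 3) (Fin 3) ℂ) p p')
          = fun z => Complex.exp (Complex.I * ((z.2 p : ℂ) - z.2 p'))
            * ((q z.1 (z.2 0 + z.2 1 + z.2 2) : ℝ) : ℂ) := by
        funext z
        rw [Matrix.of_apply]
        unfold prs
        rw [if_neg hp]
      rw [e]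
      exact (c1_exp p p').contDiffOn.mul (c1_comp h.c1_q)
  · funext j
    ext p p'
    exact dat_per (h.per_w t ht) (hgper t ht) j p p' i x
  · ext p p'
    exact prs_per (h.per_w t ht) (h.per_q t ht) p p' i x
  · exact div_all (g := fun s => 3 / 2 * deriv (w t) s) (hws t ht _) (hgs t ht _) p p'
  · have hI : t ∈ Ico 0 T := ⟨ht.1.le, ht.2⟩
    rw [adv_apply]
    have h2 : (1 / 2 : ℂ) * ∑ i, ∑ l,
        ((Matrix.of (dat (w t) (fun s => 3 / 2 * deriv (w t) s) x i) : Matrix (Fin 3) (Fin 3) ℂ) p l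
          * pdM i (fun y => (Matrix.of (dat (w t) (fun s => 3 / 2 * deriv (w t) s) y j)
            : Matrix (Fin 3) (Fin 3) ℂ)) x l p'
        + pdM i (fun y => (Matrix.of (dat (w t) (fun s => 3 / 2 * deriv (w t) s) y j)
            : Matrix (Fin 3) (Fin 3) ℂ)) x p l
          * (Matrix.of (dat (w t) (fun s => 3 / 2 * deriv (w t) s) x i)
            : Matrix (Fin 3) (Fin 3) ℂ) l p')
        = (1 / 2 : ℂ) * ∑ i, ∑ l, (dat (w t) (fun s => 3 / 2 * deriv (w t) s) x i p l
          * pd i (fun y => dat (w t) (fun s => 3 / 2 * deriv (w t) s) y j l p') x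
        + pd i (fun y => dat (w t) (fun s => 3 / 2 * deriv (w t) s) y j p l) x
          * dat (w t) (fun s => 3 / 2 * deriv (w t) s) x i l p') := rfl
    rw [h2, adv_all (g := fun s => 3 / 2 * deriv (w t) s) (hws t hI _) (hgs t hI _) j p p']
    show deriv (fun s => dat (w s) (fun s' => 3 / 2 * deriv (w s) s') x j p p') t + _
      + pd j (fun y => prs (w t) (q t) y p p') x = 0
    rw [pd_prs (slice_R h.c1_w hI _) (slice_R h.c1_q hI _) j p p']
    by_cases hp : p = p'
    · simp only [if_pos hp]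
      have e : (fun s => dat (w s) (fun s' => 3 / 2 * deriv (w s) s') x j p p') = fun _ => 0 := by
        funext s
        unfold dat
        rw [if_pos hp]
      rw [e, deriv_const]
      push_cast
      ring
    · simp only [if_neg hp]
      have h3 : HasDerivAt (fun s => dat (w s) (fun s' => 3 / 2 * deriv (w s) s') x j p p')
          (Complex.exp (Complex.I * ((x p : ℂ) - x p'))
            * (((deriv (fun τ => w τ (x 0 + x 1 + x 2)) t : ℝ) : ℂ) + Complex.I * lam j p p'
              * ((3 / 2 * deriv (fun τ => deriv (w τ) (x 0 + x 1 + x 2)) t : ℝ) : ℂ))) t := by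
        have e : (fun s => dat (w s) (fun s' => 3 / 2 * deriv (w s) s') x j p p')
            = fun s => Complex.exp (Complex.I * ((x p : ℂ) - x p'))
            * (((w s (x 0 + x 1 + x 2) : ℝ) : ℂ) + Complex.I * lam j p p'
              * ((3 / 2 * deriv (w s) (x 0 + x 1 + x 2) : ℝ) : ℂ)) := by
          funext s
          unfold dat
          rw [if_neg hp]
        rw [e]
        have a1 := (slice1 h.c1_w t ht (x 0 + x 1 + x 2)).differentiableAt.hasDerivAt
        have a2 := (slice1 (f := fun t s => deriv (w t) s) h.c1_dw t ht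
          (x 0 + x 1 + x 2)).differentiableAt.hasDerivAt
        exact (a1.ofReal_comp.add ((a2.const_mul (3 / 2)).ofReal_comp.const_mul
          (Complex.I * lam j p p'))).const_mul _
      rw [h3.deriv]
      have e1 := congrArg (fun r : ℝ => (r : ℂ)) (h.eq1 t ht (x 0 + x 1 + x 2))
      have e2 := congrArg (fun r : ℝ => (r : ℂ)) (h.eq2 t ht (x 0 + x 1 + x 2))
      push_cast at e1 e2 ⊢
      linear_combination Complex.exp (Complex.I * ((x p : ℂ) - x p')) * (e1
        + Complex.I * lam j p p' * e2)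

end Pool.Agent.N978.ME
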