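import Pool.Agent.N978.ME.Reduce

/-!
Blow-up for the Euler equations with values in Hermitian `3 × 3` matrices.
-/

open MeasureTheory Set Filter Topology Matrix
open scoped ContDiff

namespace Pool.Agent.N978.ME

open H459R3.NS

theorem fderiv_dir {p : V → ℂ} (x v : V) : fderiv ℝ p x v = ∑ k, (v k : ℂ) * pd k p x := by
  have h4 : v = ∑ k, v k • (Pi.single k (1 : ℝ) : V) := by
    funext k
    simp [Finset.sum_apply, Pi.single_apply]
  conv_lhs => rw [h4]
  rw [map_sum]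
  refine Finset.sum_congr rfl fun k _ => ?_
  rw [map_smul]
  simp [pd]

/-- derivative along a line -/
theorem line_deriv {p : V → ℂ} (hp : Differentiable ℝ p) (a v : V) (r : ℝ) :
    HasDerivAt (fun r : ℝ => p (a + r • v)) (∑ k, (v k : ℂ) * pd k p (a + r • v)) r := by
  have h1 : HasDerivAt (fun r : ℝ => a + r • v) v r := by
    have := ((hasDerivAt_id r).smul_const v).const_add a
    simpa using this
  have h2 := (hp (a + r • v)).hasFDerivAt.comp_hasDerivAt r h1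
  refine h2.congr_deriv ?_
  exact fderiv_dir _ _

/-- the point at which the character `e^{i(x_0 - x_1)}` equals `-1` -/
noncomputable def pa : V := ![Real.pi / 2, -(Real.pi / 2), 0]

theorem press_lemma0 {p : V → ℂ} (hp : Differentiable ℝ p) {A B : ℝ → ℝ}
    (h : ∀ x j, pd j p x = -(Complex.exp (Complex.I * ((x 0 : ℂ) - x 1))
      * ((A (x 0 + x 1 + x 2) : ℂ) + Complex.I * lam j 0 1 * B (x 0 + x 1 + x 2)))) (s : ℝ) :
    p (pa + s • fun _ => 1 / 3) - p (0 + s • fun _ => 1 / 3) = 2 * (B s : ℂ) ∧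
    HasDerivAt B (A s) s := by
  set n : V := fun _ => 1 / 3 with hn
  set a : V := pa with ha0
  have ha : a = ![Real.pi / 2, -(Real.pi / 2), 0] := rfl
  set e : V := ![1, -1, 0] with he
  have hl0 : lam 0 0 1 = 1 := by unfold lam; simp
  have hl1 : lam 1 0 1 = -1 := by unfold lam; simp
  have hl2 : lam 2 0 1 = 0 := by unfold lam; simp
  have n0 : n 0 = 1 / 3 := rfl
  have n1 : n 1 = 1 / 3 := rfl
  have n2 : n 2 = 1 / 3 := rfl
  have hφ : ∀ r : ℝ, HasDerivAt (fun r : ℝ => p (0 + r • n)) (-(A r : ℂ)) r := by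
    intro r
    refine (line_deriv hp 0 n r).congr_deriv ?_
    have c0 : ((0 : V) + r • n) 0 = r / 3 := by simp [hn]; ring
    have c1 : ((0 : V) + r • n) 1 = r / 3 := by simp [hn]; ring
    have c2 : ((0 : V) + r • n) 2 = r / 3 := by simp [hn]; ring
    have c3 : r / 3 + r / 3 + r / 3 = r := by ring
    simp only [h, Fin.sum_univ_three, c0, c1, c2, c3, hl0, hl1, hl2, sub_self, mul_zero,
      Complex.exp_zero, n0, n1, n2]
    push_cast
    ring
  have hψ : ∀ r : ℝ, HasDerivAt (fun r : ℝ => p (a + r • n)) (A r : ℂ) r := by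
    intro r
    refine (line_deriv hp a n r).congr_deriv ?_
    have c0 : (a + r • n) 0 = Real.pi / 2 + r / 3 := by simp [hn, ha]; ring
    have c1 : (a + r • n) 1 = -(Real.pi / 2) + r / 3 := by simp [hn, ha]; ring
    have c2 : (a + r • n) 2 = r / 3 := by simp [hn, ha]; ring
    have c3 : Real.pi / 2 + r / 3 + (-(Real.pi / 2) + r / 3) + r / 3 = r := by ring
    have c4 : Complex.exp (Complex.I * (((Real.pi / 2 + r / 3 : ℝ) : ℂ)
        - ((-(Real.pi / 2) + r / 3 : ℝ) : ℂ))) = -1 := by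
      rw [← Complex.exp_pi_mul_I]
      congr 1
      push_cast
      ring
    simp only [h, Fin.sum_univ_three, c0, c1, c2, c3, hl0, hl1, hl2, c4, n0, n1, n2]
    push_cast
    ring
  have hdiff : ∀ r : ℝ, p (a + r • n) - p (0 + r • n) = 2 * (B r : ℂ) := by
    intro r
    have hH : ∀ θ : ℝ, HasDerivAt (fun θ : ℝ => p (r • n + θ • e)
        + Complex.exp (2 * Complex.I * θ) * (B r : ℂ)) 0 θ := by
      intro θ
      have b1 := line_deriv hp (r • n) e θ
      have b2 : HasDerivAt (fun θ : ℝ => Complex.exp (2 * Complex.I * (θ : ℂ)))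
          (Complex.exp (2 * Complex.I * θ) * (2 * Complex.I * 1)) θ :=
        (((Complex.ofRealCLM.hasDerivAt (x := θ))).const_mul (2 * Complex.I)).cexp
      refine (b1.add (b2.mul_const (B r : ℂ))).congr_deriv ?_
      have c0 : (r • n + θ • e) 0 = r / 3 + θ := by simp [hn, he]; ring
      have c1 : (r • n + θ • e) 1 = r / 3 - θ := by simp [hn, he]; ring
      have c2 : (r • n + θ • e) 2 = r / 3 := by simp [hn, he]; ring
      have c3 : r / 3 + θ + (r / 3 - θ) + r / 3 = r := by ring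
      have c4 : Complex.I * (((r / 3 + θ : ℝ) : ℂ) - ((r / 3 - θ : ℝ) : ℂ)) = 2 * Complex.I * θ := by
        push_cast
        ring
      have e0 : e 0 = 1 := rfl
      have e1 : e 1 = -1 := rfl
      have e2 : e 2 = 0 := rfl
      simp only [h, Fin.sum_univ_three, c0, c1, c2, c3, hl0, hl1, hl2, c4, e0, e1, e2]
      push_cast
      ring
    have hcst := is_const_of_deriv_eq_zero (fun θ => (hH θ).differentiableAt)
      (fun θ => (hH θ).deriv) (Real.pi / 2) 0
    have e1 : r • n + (Real.pi / 2) • e = a + r • n := by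
      funext k
      fin_cases k <;> simp [hn, ha, he] <;> ring
    have e2 : Complex.exp (2 * Complex.I * ((Real.pi / 2 : ℝ) : ℂ)) = -1 := by
      rw [← Complex.exp_pi_mul_I]
      congr 1
      push_cast
      ring
    rw [e1, e2] at hcst
    simp only [zero_smul, add_zero, Complex.ofReal_zero, mul_zero, Complex.exp_zero] at hcst
    rw [zero_add]
    linear_combination hcst
  have hB : HasDerivAt (fun r : ℝ => ((B r : ℝ) : ℂ)) ((A s : ℝ) : ℂ) s := by
    have h1 := ((hψ s).sub (hφ s)).const_mul (1 / 2 : ℂ)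
    have h2 : (fun r : ℝ => ((B r : ℝ) : ℂ))
        = fun r : ℝ => (1 / 2 : ℂ) * (p (a + r • n) - p (0 + r • n)) := by
      funext r
      rw [hdiff r]
      ring
    rw [h2]
    refine h1.congr_deriv ?_
    ring
  have h3 := Complex.reCLM.hasFDerivAt.comp_hasDerivAt s hB
  have h4 : (⇑Complex.reCLM ∘ fun r : ℝ => ((B r : ℝ) : ℂ)) = B := by
    funext r
    simp
  rw [h4] at h3
  exact ⟨hdiff s, h3.congr_deriv (by simp)⟩

theorem press_lemma {p : V → ℂ} (hp : Differentiable ℝ p) {A B : ℝ → ℝ}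
    (h : ∀ x j, pd j p x = -(Complex.exp (Complex.I * ((x 0 : ℂ) - x 1))
      * ((A (x 0 + x 1 + x 2) : ℂ) + Complex.I * lam j 0 1 * B (x 0 + x 1 + x 2)))) (s : ℝ) :
    HasDerivAt B (A s) s := (press_lemma0 hp h s).2

section main

variable {T : ℝ} {u : ℝ → V → Fin 3 → Matrix (Fin 3) (Fin 3) ℂ}
    {P : ℝ → V → Matrix (Fin 3) (Fin 3) ℂ}

variable (hu : Sol (Fin 3) T u P)

theorem c1_line (j p q : Fin 3) (hu : Sol (Fin 3) T u P) :
    ContDiffOn ℝ 1 (fun z : ℝ × ℝ => u z.1 (fun _ => z.2 / 3) j p q) (Ico 0 T ×ˢ univ) := by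
  have hm : MapsTo (fun z : ℝ × ℝ => ((z.1, fun _ => z.2 / 3) : ℝ × V)) (Ico 0 T ×ˢ univ)
      (Ico 0 T ×ˢ univ) := fun z hz => ⟨hz.1, mem_univ _⟩
  have hg : ContDiffOn ℝ 1 (fun z : ℝ × ℝ => ((z.1, fun _ => z.2 / 3) : ℝ × V))
      (Ico 0 T ×ˢ univ) := by
    refine (contDiff_fst.prodMk ?_).contDiffOn
    rw [contDiff_pi]
    intro _
    exact contDiff_snd.div_const 3
  exact (hu.c1_u j p q).comp hg hm

include hu in
theorem wf_c1 : ContDiffOn ℝ 1 (fun z : ℝ × ℝ => wf u z.1 z.2) (Ico 0 T ×ˢ univ) :=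
  Complex.reCLM.contDiff.comp_contDiffOn (c1_line 2 0 1 hu)

include hu in
theorem gf_c1 : ContDiffOn ℝ 1 (fun z : ℝ × ℝ => gf u z.1 z.2) (Ico 0 T ×ˢ univ) :=
  Complex.imCLM.contDiff.comp_contDiffOn (c1_line 0 0 1 hu)

theorem slice_R {f : ℝ → ℝ → ℝ}
    (hf : ContDiffOn ℝ 1 (fun z : ℝ × ℝ => f z.1 z.2) (Ico 0 T ×ˢ univ)) {t : ℝ}
    (ht : t ∈ Ico 0 T) (s : ℝ) : HasDerivAt (f t) (deriv (f t) s) s := by
  have h1 : ContDiff ℝ 1 (f t) := by
    rw [← contDiffOn_univ]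
    exact hf.comp (contDiff_const.prodMk contDiff_id).contDiffOn (fun x _ => ⟨ht, mem_univ _⟩)
  exact ((h1.differentiable one_ne_zero) s).hasDerivAt

variable (hpu : ∀ t ∈ Ico 0 T, Per2 (u t))
    (hpP : ∀ t ∈ Ico 0 T, Per2 (P t)) {w0 g0 : ℝ → ℝ} (hw0 : ∀ s, w0 (-s) = -w0 s)
    (hg0 : ∀ s, g0 (-s) = g0 s) (h0 : ∀ x j p q, u 0 x j p q = dat w0 g0 x j p q)

include hu hpu hpP hw0 hg0 h0

theorem struct' {t : ℝ} (ht : t ∈ Ico 0 T) (j p q : Fin 3) :
    (fun y => u t y j p q) = fun y => dat (wf u t) (gf u t) y j p q :=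
  funext fun y => struct hu hpu hpP hw0 hg0 h0 ht y j p q

theorem wf_deriv {t : ℝ} (ht : t ∈ Ico 0 T) (s : ℝ) :
    HasDerivAt (wf u t) (2 / 3 * gf u t s) s := by
  have h1 := slice_R (wf_c1 hu) ht s
  have h2 := slice_R (gf_c1 hu) ht s
  set x : V := fun _ => s / 3 with hx
  have hs : x 0 + x 1 + x 2 = s := by simp only [hx]; ring
  have h3 := hu.divfree t ht x 0 1
  simp_rw [struct' hu hpu hpP hw0 hg0 h0 ht] at h3
  rw [← hs] at h1 h2
  simp_rw [pd_dat h1 h2] at h3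
  rw [hs] at h1 h3
  have n01 : ¬ (0 : Fin 3) = 1 := by decide
  have hl0 : lam 0 0 1 = 1 := by unfold lam; simp
  have hl1 : lam 1 0 1 = -1 := by unfold lam; simp
  have hl2 : lam 2 0 1 = 0 := by unfold lam; simp
  simp only [if_neg n01, Fin.sum_univ_three, hl0, hl1, hl2, hx, sub_self, mul_zero,
    Complex.exp_zero, one_mul] at h3
  have h4 := congrArg Complex.re h3
  have h5 : deriv (wf u t) s = 2 / 3 * gf u t s := by
    simp at h4
    linarith
  rw [← h5]
  exact h1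

theorem dt_dat {t : ℝ} (ht : t ∈ Ioo 0 T) (x : V) (j : Fin 3) :
    deriv (fun τ => u τ x j 0 1) t = Complex.exp (Complex.I * ((x 0 : ℂ) - x 1))
      * (((deriv (fun τ => wf u τ (x 0 + x 1 + x 2)) t : ℝ) : ℂ)
        + Complex.I * lam j 0 1 * ((deriv (fun τ => gf u τ (x 0 + x 1 + x 2)) t : ℝ) : ℂ)) := by
  have n01 : ¬ (0 : Fin 3) = 1 := by decide
  have h1 := (slice1 (wf_c1 hu) t ht (x 0 + x 1 + x 2)).differentiableAt.hasDerivAt
  have h2 := (slice1 (gf_c1 hu) t ht (x 0 + x 1 + x 2)).differentiableAt.hasDerivAt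
  have h3 : HasDerivAt (fun τ => Complex.exp (Complex.I * ((x 0 : ℂ) - x 1))
      * ((wf u τ (x 0 + x 1 + x 2) : ℂ) + Complex.I * lam j 0 1 * (gf u τ (x 0 + x 1 + x 2) : ℂ)))
      (Complex.exp (Complex.I * ((x 0 : ℂ) - x 1))
      * (((deriv (fun τ => wf u τ (x 0 + x 1 + x 2)) t : ℝ) : ℂ)
        + Complex.I * lam j 0 1 * ((deriv (fun τ => gf u τ (x 0 + x 1 + x 2)) t : ℝ) : ℂ))) t :=
    (h1.ofReal_comp.add (h2.ofReal_comp.const_mul (Complex.I * lam j 0 1))).const_mul _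
  rw [← h3.deriv]
  apply Filter.EventuallyEq.deriv_eq
  filter_upwards [Ioo_mem_nhds ht.1 ht.2] with τ hτ
  rw [struct hu hpu hpP hw0 hg0 h0 ⟨hτ.1.le, hτ.2⟩]
  unfold dat
  rw [if_neg n01]

theorem press_eq {t : ℝ} (ht : t ∈ Ioo 0 T) (x : V) (j : Fin 3) :
    pd j (fun y => P t y 0 1) x = -(Complex.exp (Complex.I * ((x 0 : ℂ) - x 1))
      * (((deriv (fun τ => wf u τ (x 0 + x 1 + x 2)) t
            + 3 * (wf u t (x 0 + x 1 + x 2) * gf u t (x 0 + x 1 + x 2)) : ℝ) : ℂ)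
        + Complex.I * lam j 0 1 * ((deriv (fun τ => gf u τ (x 0 + x 1 + x 2)) t
            + 1 / 2 * (gf u t (x 0 + x 1 + x 2) ^ 2
              + 3 * (wf u t (x 0 + x 1 + x 2) * deriv (gf u t) (x 0 + x 1 + x 2))) : ℝ) : ℂ))) := by
  have hI : t ∈ Ico 0 T := ⟨ht.1.le, ht.2⟩
  have h1 := hu.momentum t ht x j 0 1
  rw [dt_dat hu hpu hpP hw0 hg0 h0 ht, adv_apply] at h1
  have h2 : (1 / 2 : ℂ) * ∑ i, ∑ l, (u t x i 0 l * pdM i (fun y => u t y j) x l 1
      + pdM i (fun y => u t y j) x 0 l * u t x i l 1)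
      = (1 / 2 : ℂ) * ∑ i, ∑ l, (dat (wf u t) (gf u t) x i 0 l
          * pd i (fun y => dat (wf u t) (gf u t) y j l 1) x
      + pd i (fun y => dat (wf u t) (gf u t) y j 0 l) x * dat (wf u t) (gf u t) x i l 1) := by
    congr 1
    refine Finset.sum_congr rfl fun i _ => Finset.sum_congr rfl fun l _ => ?_
    rw [struct hu hpu hpP hw0 hg0 h0 hI x i 0 l, struct hu hpu hpP hw0 hg0 h0 hI x i l 1]
    unfold pdM
    simp only [Matrix.of_apply]
    rw [struct' hu hpu hpP hw0 hg0 h0 hI j l 1, struct' hu hpu hpP hw0 hg0 h0 hI j 0 l]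
  rw [h2, adv_dat (wf_deriv hu hpu hpP hw0 hg0 h0 hI _) (slice_R (gf_c1 hu) hI _)] at h1
  push_cast
  linear_combination h1

theorem q_deriv {t : ℝ} (ht : t ∈ Ioo 0 T) (s : ℝ) :
    HasDerivAt (fun s => -(deriv (fun τ => gf u τ s) t
            + 1 / 2 * (gf u t s ^ 2 + 3 * (wf u t s * deriv (gf u t) s))))
      (-(deriv (fun τ => wf u τ s) t + 6 * (1 / 2) * (wf u t s * gf u t s))) s := by
  have hI : t ∈ Ico 0 T := ⟨ht.1.le, ht.2⟩
  have h1 := press_lemma (p := fun y => P t y 0 1)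
    (A := fun s => deriv (fun τ => wf u τ s) t + 3 * (wf u t s * gf u t s))
    (B := fun s => deriv (fun τ => gf u τ s) t
            + 1 / 2 * (gf u t s ^ 2 + 3 * (wf u t s * deriv (gf u t) s)))
    (fun x => (hu.cpP hI 0 1).diff x)
    (fun x j => press_eq hu hpu hpP hw0 hg0 h0 ht x j) s
  refine h1.neg.congr_deriv ?_
  ring

theorem wf_per {t : ℝ} (ht : t ∈ Ico 0 T) : Function.Periodic (wf u t) (2 * Real.pi) := by
  intro s
  have n01 : ¬ (0 : Fin 3) = 1 := by decide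
  have hl2 : lam 2 0 1 = 0 := by unfold lam; simp
  set x : V := fun _ => s / 3 with hx
  have h1 := congrFun (congrFun (congrFun (hpu t ht 2 x) 2) 0) 1
  rw [struct hu hpu hpP hw0 hg0 h0 ht, struct hu hpu hpP hw0 hg0 h0 ht] at h1
  unfold dat at h1
  rw [if_neg n01, if_neg n01, hl2] at h1
  have a0 : (x + Pi.single 2 (2 * Real.pi) : V) 0 = s / 3 := by simp [hx]
  have a1 : (x + Pi.single 2 (2 * Real.pi) : V) 1 = s / 3 := by simp [hx]
  have a2 : (x + Pi.single 2 (2 * Real.pi) : V) 2 = s / 3 + 2 * Real.pi := by simp [hx]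
  have a3 : s / 3 + s / 3 + (s / 3 + 2 * Real.pi) = s + 2 * Real.pi := by ring
  have a4 : s / 3 + s / 3 + s / 3 = s := by ring
  rw [a0, a1, a2, a3] at h1
  simp only [hx, a4, sub_self, mul_zero, zero_mul, add_zero, Complex.exp_zero, one_mul] at h1
  exact_mod_cast h1

theorem gf_per {t : ℝ} (ht : t ∈ Ico 0 T) : Function.Periodic (gf u t) (2 * Real.pi) := by
  intro s
  have h1 := wf_deriv hu hpu hpP hw0 hg0 h0 ht (s + 2 * Real.pi)
  have h2 := wf_deriv hu hpu hpP hw0 hg0 h0 ht s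
  have h3 : HasDerivAt (fun s => wf u t (s + 2 * Real.pi)) (2 / 3 * gf u t (s + 2 * Real.pi)) s := by
    have := h1.comp_add_const s (2 * Real.pi)
    exact this
  have h4 : (fun s => wf u t (s + 2 * Real.pi)) = wf u t :=
    funext fun s => wf_per hu hpu hpP hw0 hg0 h0 ht s
  rw [h4] at h3
  have := h3.unique h2
  linarith

theorem q_per {t : ℝ} (ht : t ∈ Ioo 0 T) : Function.Periodic (fun s => -(deriv (fun τ => gf u τ s) t
            + 1 / 2 * (gf u t s ^ 2 + 3 * (wf u t s * deriv (gf u t) s)))) (2 * Real.pi) := by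
  have hI : t ∈ Ico 0 T := ⟨ht.1.le, ht.2⟩
  intro s
  have h1 : deriv (fun τ => gf u τ (s + 2 * Real.pi)) t = deriv (fun τ => gf u τ s) t := by
    apply Filter.EventuallyEq.deriv_eq
    filter_upwards [Ioo_mem_nhds ht.1 ht.2] with τ hτ
    exact gf_per hu hpu hpP hw0 hg0 h0 ⟨hτ.1.le, hτ.2⟩ s
  have h2 : deriv (gf u t) (s + 2 * Real.pi) = deriv (gf u t) s := by
    have h3 : deriv (fun s => gf u t (s + 2 * Real.pi)) s = deriv (gf u t) (s + 2 * Real.pi) :=
      deriv_comp_add_const _ _ _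
    rw [← h3]
    congr 1
    exact funext fun s => gf_per hu hpu hpP hw0 hg0 h0 hI s
  simp only
  rw [h1, h2, gf_per hu hpu hpP hw0 hg0 h0 hI s, wf_per hu hpu hpP hw0 hg0 h0 hI s]

/-- Blow-up for Hermitian `3 × 3` matrices. -/
theorem blowup3 (hneg : g0 0 < 0) : T ≤ 1 / (1 / 2 * -(g0 0)) := by
  rcases le_or_gt T 0 with hT | hT
  · refine hT.trans ?_
    apply div_nonneg zero_le_one
    linarith
  have h00 : (0 : ℝ) ∈ Ico 0 T := ⟨le_rfl, hT⟩
  have hg00 : gf u 0 0 = g0 0 := by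
    unfold gf
    rw [h0]
    unfold dat
    have n01 : ¬ (0 : Fin 3) = 1 := by decide
    have hl0 : lam 0 0 1 = 1 := by unfold lam; simp
    rw [if_neg n01, hl0]
    simp
  rw [← hg00]
  refine breaking (κ := 1 / 2) (by norm_num) (w := wf u) (g := gf u)
    (q := fun t s => -(deriv (fun τ => gf u τ s) t
            + 1 / 2 * (gf u t s ^ 2 + 3 * (wf u t s * deriv (gf u t) s))))
    (gs := fun t s => deriv (gf u t) s) (wf_c1 hu) (gf_c1 hu)
    (fun t ht s => wf_deriv hu hpu hpP hw0 hg0 h0 ht s)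
    (fun t ht s => slice_R (gf_c1 hu) ht s)
    (fun t ht s => q_deriv hu hpu hpP hw0 hg0 h0 ht s)
    (fun t ht s => by ring)
    (fun t ht => wf_zero hu hw0 hg0 h0 ht hpu hpP)
    (fun t ht => wf_per hu hpu hpP hw0 hg0 h0 ht)
    (fun t ht => q_per hu hpu hpP hw0 hg0 h0 ht)
    (by rw [hg00]; exact hneg)

end main

end Pool.Agent.N978.ME
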