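import Mathlib

/-!
Wave breaking for the Camassa-Holm system
`g_t + κ (g² + 3 w g_s) + q = 0`, `q_s = -(w_t + 6 κ w g)`, `w_s = 2 g / 3`.
-/

open MeasureTheory Set Filter Topology
open scoped ContDiff

namespace Pool.Agent.N978.ME

/-- A periodic function `f` with continuous second derivative and `2 f - 3 f'' ≥ 0` is nonnegative. -/
theorem nonneg_of_ode {f f' f'' : ℝ → ℝ} (h1 : ∀ s, HasDerivAt f (f' s) s)
    (h2 : ∀ s, HasDerivAt f' (f'' s) s) (hper : Function.Periodic f (2 * Real.pi))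
    (h3 : ∀ s, 0 ≤ 2 * f s - 3 * f'' s) (s : ℝ) : 0 ≤ f s := by
  have hc : Continuous f := continuous_iff_continuousAt.2 fun s => (h1 s).continuousAt
  obtain ⟨s0, hs0, hmin⟩ := isCompact_Icc.exists_isMinOn
    (nonempty_Icc.2 (by positivity : (0 : ℝ) ≤ 2 * Real.pi)) hc.continuousOn
  have hmin' : ∀ s, f s0 ≤ f s := by
    intro s
    obtain ⟨y, hy, hy2⟩ := hper.exists_mem_Ico₀ (by positivity) s
    rw [hy2]
    exact hmin ⟨hy.1, hy.2.le⟩
  have hloc : IsLocalMin f s0 := Filter.Eventually.of_forall hmin'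
  have hd0 : f' s0 = 0 := hloc.hasDerivAt_eq_zero (h1 s0)
  refine le_trans ?_ (hmin' s)
  by_contra hneg
  push Not at hneg
  have hf2 : f'' s0 < 0 := by
    have := h3 s0
    linarith
  have e1 : deriv f = f' := funext fun s => (h1 s).deriv
  have hmax : IsLocalMax f s0 := by
    apply isLocalMax_of_deriv_deriv_neg
    · rw [e1, (h2 s0).deriv]; exact hf2
    · rw [e1]; exact hd0
    · exact hc.continuousAt
  have hconst : ∀ᶠ y in 𝓝 s0, f y = f s0 := by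
    filter_upwards [hmax, hloc] with y hy1 hy2
    exact le_antisymm hy1 hy2
  have hconst2 : ∀ᶠ y in 𝓝 s0, f' y = 0 := by
    have := hconst.eventually_nhds
    filter_upwards [this] with y hy
    have h4 : HasDerivAt f 0 y := (hasDerivAt_const y (f s0)).congr_of_eventuallyEq hy
    exact (h1 y).unique h4
  have h5 : HasDerivAt f' 0 s0 := (hasDerivAt_const s0 (0 : ℝ)).congr_of_eventuallyEq hconst2
  have h6 := (h2 s0).unique h5
  linarith

theorem pow_pos_of_neg_sq {a : ℝ} (h : a < 0) : 0 < a ^ 2 := by nlinarith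

/-- The differential inequality `y' ≤ -κ y²`. -/
theorem riccati {κ T : ℝ} (hκ : 0 < κ) {y : ℝ → ℝ} (hc : ContinuousOn y (Ico 0 T))
    (hd : ∀ t ∈ Ioo 0 T, ∃ D, D ≤ -κ * y t ^ 2 ∧ HasDerivAt y D t) (h0 : y 0 < 0) :
    T ≤ 1 / (κ * -(y 0)) := by
  by_contra hT
  push Not at hT
  have hpos : 0 < 1 / (κ * -(y 0)) := by
    apply div_pos one_pos; nlinarith
  have hT0 : 0 < T := hpos.trans hT
  set t1 := 1 / (κ * -(y 0)) with ht1
  have ht1I : t1 ∈ Ico 0 T := ⟨hpos.le, hT⟩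
  have hsub : Icc 0 t1 ⊆ Ico 0 T := fun t ht => ⟨ht.1, ht.2.trans_lt hT⟩
  have hanti : AntitoneOn y (Icc 0 t1) := by
    refine antitoneOn_of_deriv_nonpos (convex_Icc 0 t1) (hc.mono hsub) ?_ ?_
    · rw [interior_Icc]
      intro t ht
      obtain ⟨D, hD, hd'⟩ := hd t ⟨ht.1, ht.2.trans hT⟩
      exact hd'.differentiableAt.differentiableWithinAt
    · rw [interior_Icc]
      intro t ht
      obtain ⟨D, hD, hd'⟩ := hd t ⟨ht.1, ht.2.trans hT⟩
      rw [hd'.deriv]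
      nlinarith [sq_nonneg (y t)]
  have hneg : ∀ t ∈ Icc 0 t1, y t < 0 := fun t ht =>
    (hanti (left_mem_Icc.2 hpos.le) ht ht.1).trans_lt h0
  have hmono : MonotoneOn (fun t => (y t)⁻¹ - κ * t) (Icc 0 t1) := by
    refine monotoneOn_of_deriv_nonneg (convex_Icc 0 t1) ?_ ?_ ?_
    · refine ContinuousOn.sub ?_ (by fun_prop)
      exact (hc.mono hsub).inv₀ fun t ht => (hneg t ht).ne
    · rw [interior_Icc]
      intro t ht
      obtain ⟨D, hD, hd'⟩ := hd t ⟨ht.1, ht.2.trans hT⟩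
      have h1 : HasDerivAt (fun t => (y t)⁻¹ - κ * t) (-D / y t ^ 2 - κ * 1) t :=
        (hd'.inv (hneg t ⟨ht.1.le, ht.2.le⟩).ne).sub ((hasDerivAt_id t).const_mul κ)
      exact h1.differentiableAt.differentiableWithinAt
    · rw [interior_Icc]
      intro t ht
      obtain ⟨D, hD, hd'⟩ := hd t ⟨ht.1, ht.2.trans hT⟩
      have hy := hneg t ⟨ht.1.le, ht.2.le⟩
      have h1 : HasDerivAt (fun t => (y t)⁻¹ - κ * t) (-D / y t ^ 2 - κ * 1) t :=
        (hd'.inv hy.ne).sub ((hasDerivAt_id t).const_mul κ)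
      rw [h1.deriv, mul_one, sub_nonneg, le_div_iff₀ (pow_pos_of_neg_sq hy)]
      linarith
  have h1 := hmono (left_mem_Icc.2 hpos.le) (right_mem_Icc.2 hpos.le) hpos.le
  simp only [mul_zero, sub_zero] at h1
  have h2 : (y t1)⁻¹ < 0 := inv_lt_zero.2 (hneg t1 (right_mem_Icc.2 hpos.le))
  have h3 : κ * t1 = -(y 0)⁻¹ := by
    rw [ht1]
    field_simp
  linarith

theorem slice1 {T : ℝ} {f : ℝ → ℝ → ℝ}
    (hf : ContDiffOn ℝ 1 (fun z : ℝ × ℝ => f z.1 z.2) (Ico 0 T ×ˢ univ)) (τ : ℝ)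
    (hτ : τ ∈ Ioo 0 T) (σ : ℝ) : HasDerivAt (fun τ => f τ σ)
        (fderiv ℝ (fun z : ℝ × ℝ => f z.1 z.2) (τ, σ) (1, 0)) τ := by
  have hsubO : Ioo 0 T ×ˢ (univ : Set ℝ) ⊆ Ico 0 T ×ˢ univ :=
    prod_mono Ioo_subset_Ico_self subset_rfl
  have hmem : Ioo 0 T ×ˢ (univ : Set ℝ) ∈ 𝓝 (τ, σ) :=
    prod_mem_nhds (Ioo_mem_nhds hτ.1 hτ.2) Filter.univ_mem
  have h1 : DifferentiableAt ℝ (fun z : ℝ × ℝ => f z.1 z.2) (τ, σ) :=
    ((hf.mono hsubO).contDiffAt hmem).differentiableAt one_ne_zero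
  have h2 : HasDerivAt (fun τ : ℝ => ((τ, σ) : ℝ × ℝ)) (1, 0) τ :=
    (hasDerivAt_id τ).prodMk (hasDerivAt_const τ σ)
  exact h1.hasFDerivAt.comp_hasDerivAt τ h2

/-- Exchange of the derivatives: if `w_s = (2/3) g` and `w, g` are `C¹`, then
`(w_t)_s = (2/3) g_t`. -/
theorem exchange {T : ℝ} {w g : ℝ → ℝ → ℝ}
    (hw : ContDiffOn ℝ 1 (fun z : ℝ × ℝ => w z.1 z.2) (Ico 0 T ×ˢ univ))
    (hg : ContDiffOn ℝ 1 (fun z : ℝ × ℝ => g z.1 z.2) (Ico 0 T ×ˢ univ))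
    (hws : ∀ t ∈ Ico 0 T, ∀ s, HasDerivAt (w t) (2 / 3 * g t s) s) {t : ℝ} (ht : t ∈ Ioo 0 T)
    (s : ℝ) : HasDerivAt (fun s => deriv (fun τ => w τ s) t)
      (2 / 3 * deriv (fun τ => g τ s) t) s := by
  have hO : IsOpen (Ioo 0 T ×ˢ (univ : Set ℝ)) := isOpen_Ioo.prod isOpen_univ
  have hsubO : Ioo 0 T ×ˢ (univ : Set ℝ) ⊆ Ico 0 T ×ˢ univ :=
    prod_mono Ioo_subset_Ico_self subset_rfl
  have slice : ∀ {f : ℝ → ℝ → ℝ}, ContDiffOn ℝ 1 (fun z : ℝ × ℝ => f z.1 z.2) (Ico 0 T ×ˢ univ) →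
      ∀ τ ∈ Ioo 0 T, ∀ σ, HasDerivAt (fun τ => f τ σ)
        (fderiv ℝ (fun z : ℝ × ℝ => f z.1 z.2) (τ, σ) (1, 0)) τ := by
    intro f hf τ hτ σ
    have hmem : Ioo 0 T ×ˢ (univ : Set ℝ) ∈ 𝓝 (τ, σ) :=
      prod_mem_nhds (Ioo_mem_nhds hτ.1 hτ.2) Filter.univ_mem
    have h1 : DifferentiableAt ℝ (fun z : ℝ × ℝ => f z.1 z.2) (τ, σ) :=
      ((hf.mono hsubO).contDiffAt hmem).differentiableAt one_ne_zero
    have h2 : HasDerivAt (fun τ : ℝ => ((τ, σ) : ℝ × ℝ)) (1, 0) τ :=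
      (hasDerivAt_id τ).prodMk (hasDerivAt_const τ σ)
    exact h1.hasFDerivAt.comp_hasDerivAt τ h2
  have hgd : ContinuousOn (fun z : ℝ × ℝ =>
      fderiv ℝ (fun z : ℝ × ℝ => g z.1 z.2) z (1, 0)) (Ioo 0 T ×ˢ univ) :=
    ((hg.mono hsubO).continuousOn_fderiv_of_isOpen hO le_rfl).clm_apply continuousOn_const
  -- the slices of g are continuous
  have hgc : ∀ τ ∈ Ioo 0 T, Continuous (fun σ => g τ σ) := fun τ hτ => by
    have := (hg.mono hsubO).continuousOn.comp_continuous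
      (f := fun σ : ℝ => ((τ, σ) : ℝ × ℝ)) (by fun_prop) (fun σ => ⟨hτ, mem_univ _⟩)
    exact this
  have hgtc : Continuous (fun σ => fderiv ℝ (fun z : ℝ × ℝ => g z.1 z.2) (t, σ) (1, 0)) := by
    have := hgd.comp_continuous
      (f := fun σ : ℝ => ((t, σ) : ℝ × ℝ)) (by fun_prop) (fun σ => ⟨ht, mem_univ _⟩)
    exact this
  -- w(τ, σ) = w(τ, s) + ∫ (2/3) g
  have hint : ∀ τ ∈ Ioo 0 T, ∀ σ, w τ σ - w τ s = ∫ r in s..σ, 2 / 3 * g τ r := by
    intro τ hτ σ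
    rw [intervalIntegral.integral_eq_sub_of_hasDerivAt
      (fun r _ => hws τ ⟨hτ.1.le, hτ.2⟩ r)]
    exact ((continuous_const.mul (hgc τ hτ))).intervalIntegrable _ _
  obtain ⟨a, ha1, ha2⟩ := exists_between ht.1
  obtain ⟨b, hb1, hb2⟩ := exists_between ht.2
  have hder : ∀ σ, deriv (fun τ => w τ σ) t - deriv (fun τ => w τ s) t
      = ∫ r in s..σ, 2 / 3 * fderiv ℝ (fun z : ℝ × ℝ => g z.1 z.2) (t, r) (1, 0) := by
    intro σ
    have hK : IsCompact (Icc a b ×ˢ uIcc s σ) := isCompact_Icc.prod isCompact_uIcc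
    have hsubK : Icc a b ×ˢ uIcc s σ ⊆ Ioo 0 T ×ˢ (univ : Set ℝ) :=
      prod_mono (fun r hr => ⟨ha1.trans_le hr.1, hr.2.trans_lt hb2⟩) (subset_univ _)
    obtain ⟨C, hC⟩ := hK.exists_bound_of_continuousOn (hgd.mono hsubK)
    have h1 := (intervalIntegral.hasDerivAt_integral_of_dominated_loc_of_deriv_le
      (F := fun τ r => 2 / 3 * g τ r)
      (F' := fun τ r => 2 / 3 * fderiv ℝ (fun z : ℝ × ℝ => g z.1 z.2) (τ, r) (1, 0))
      (x₀ := t) (s := Icc a b) (a := s) (b := σ) (bound := fun _ => 2 / 3 * C) (μ := volume)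
      (Icc_mem_nhds ha2 hb1) ?_ ?_ ?_ ?_ ?_ ?_).2
    · have h2 : HasDerivAt (fun τ => w τ σ - w τ s)
          (∫ r in s..σ, 2 / 3 * fderiv ℝ (fun z : ℝ × ℝ => g z.1 z.2) (t, r) (1, 0)) t := by
        refine h1.congr_of_eventuallyEq ?_
        filter_upwards [Ioo_mem_nhds ht.1 ht.2] with τ hτ
        exact hint τ hτ σ
      have h3 : HasDerivAt (fun τ => w τ σ - w τ s) _ t :=
        (slice hw t ht σ).sub (slice hw t ht s)
      rw [(slice hw t ht σ).deriv, (slice hw t ht s).deriv]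
      exact h3.unique h2
    · filter_upwards [Ioo_mem_nhds ht.1 ht.2] with τ hτ
      exact (continuous_const.mul (hgc τ hτ)).aestronglyMeasurable
    · exact (continuous_const.mul (hgc t ht)).intervalIntegrable _ _
    · exact (continuous_const.mul hgtc).aestronglyMeasurable
    · refine Filter.Eventually.of_forall fun r hr τ hτ => ?_
      have h4 := hC (τ, r) ⟨hτ, uIoc_subset_uIcc hr⟩
      rw [norm_mul]
      rw [Real.norm_of_nonneg (by norm_num : (0 : ℝ) ≤ 2 / 3)]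
      exact mul_le_mul_of_nonneg_left h4 (by norm_num)
    · exact intervalIntegrable_const
    · refine Filter.Eventually.of_forall fun r _ τ hτ => ?_
      exact (slice hg τ ⟨ha1.trans_le hτ.1, hτ.2.trans_lt hb2⟩ r).const_mul _
  have hfin : HasDerivAt (fun σ => deriv (fun τ => w τ s) t
      + ∫ r in s..σ, 2 / 3 * fderiv ℝ (fun z : ℝ × ℝ => g z.1 z.2) (t, r) (1, 0))
      (2 / 3 * fderiv ℝ (fun z : ℝ × ℝ => g z.1 z.2) (t, s) (1, 0)) s := by
    refine HasDerivAt.const_add _ ?_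
    have hcc : Continuous (fun r => 2 / 3 * fderiv ℝ (fun z : ℝ × ℝ => g z.1 z.2) (t, r) (1, 0)) :=
      continuous_const.mul hgtc
    exact intervalIntegral.integral_hasDerivAt_right (hcc.intervalIntegrable _ _)
      (hcc.stronglyMeasurableAtFilter _ _) hcc.continuousAt
  rw [(slice hg t ht s).deriv]
  refine hfin.congr_of_eventuallyEq ?_
  refine Filter.Eventually.of_forall fun σ => ?_
  have := hder σ
  simp only
  linarith

/-- Wave breaking. -/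
theorem breaking {T κ : ℝ} (hκ : 0 < κ) {w g q gs : ℝ → ℝ → ℝ}
    (hw : ContDiffOn ℝ 1 (fun z : ℝ × ℝ => w z.1 z.2) (Ico 0 T ×ˢ univ))
    (hg : ContDiffOn ℝ 1 (fun z : ℝ × ℝ => g z.1 z.2) (Ico 0 T ×ˢ univ))
    (hws : ∀ t ∈ Ico 0 T, ∀ s, HasDerivAt (w t) (2 / 3 * g t s) s)
    (hgs : ∀ t ∈ Ico 0 T, ∀ s, HasDerivAt (g t) (gs t s) s)
    (hq : ∀ t ∈ Ioo 0 T, ∀ s, HasDerivAt (q t)
      (-(deriv (fun τ => w τ s) t + 6 * κ * (w t s * g t s))) s)
    (hgt : ∀ t ∈ Ioo 0 T, ∀ s, deriv (fun τ => g τ s) t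
      + κ * (g t s ^ 2 + 3 * (w t s * gs t s)) + q t s = 0)
    (hw0 : ∀ t ∈ Ico 0 T, w t 0 = 0)
    (hwper : ∀ t ∈ Ico 0 T, Function.Periodic (w t) (2 * Real.pi))
    (hqper : ∀ t ∈ Ioo 0 T, Function.Periodic (q t) (2 * Real.pi))
    (hneg : g 0 0 < 0) : T ≤ 1 / (κ * -(g 0 0)) := by
  refine riccati hκ (y := fun t => g t 0) ?_ ?_ hneg
  · have h1 : ContinuousOn (fun t : ℝ => ((t, (0 : ℝ)) : ℝ × ℝ)) (Ico 0 T) := by fun_prop
    exact hg.continuousOn.comp h1 fun t ht => ⟨ht, mem_univ _⟩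
  · intro t ht
    have hI : t ∈ Ico 0 T := ⟨ht.1.le, ht.2⟩
    refine ⟨deriv (fun τ => g τ 0) t, ?_, ?_⟩
    · -- positivity of q + 3 κ w²
      have h1 : ∀ s, HasDerivAt (fun s => q t s + 3 * κ * w t s ^ 2)
          (-(deriv (fun τ => w τ s) t + 2 * κ * (w t s * g t s))) s := by
        intro s
        have a1 : HasDerivAt (fun s => q t s + 3 * κ * w t s ^ 2) _ s :=
          (hq t ht s).add (((hws t hI s).pow 2).const_mul (3 * κ))
        refine a1.congr_deriv ?_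
        push_cast
        ring
      have h2 : ∀ s, HasDerivAt (fun s => -(deriv (fun τ => w τ s) t + 2 * κ * (w t s * g t s)))
          (-(2 / 3 * deriv (fun τ => g τ s) t
            + 2 * κ * (2 / 3 * g t s * g t s + w t s * gs t s))) s := by
        intro s
        exact ((exchange hw hg hws ht s).add
          (((hws t hI s).mul (hgs t hI s)).const_mul (2 * κ))).neg
      have h3 := nonneg_of_ode h1 h2 (fun s => by
        simp only [hqper t ht s, hwper t hI s]) (fun s => by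
          have h4 := hgt t ht s
          nlinarith [mul_nonneg hκ.le (sq_nonneg (w t s)), mul_nonneg hκ.le (sq_nonneg (g t s))]) 0
      have h5 := hgt t ht 0
      rw [hw0 t hI] at h3 h5
      nlinarith
    · exact (slice1 hg t ht 0).differentiableAt.hasDerivAt

end Pool.Agent.N978.ME
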