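import Pool.Agent.N978.ME.Struct
import Pool.Agent.N978.ME.OneD

/-!
Reduction of the system to the Camassa-Holm system.
-/

open MeasureTheory Set Filter Topology Matrix
open scoped ContDiff

namespace Pool.Agent.N978.ME

open H459R3.NS

/-- the sum of the coordinates -/
noncomputable def sL : V →L[ℝ] ℝ :=
  (ContinuousLinearMap.proj (R := ℝ) (φ := fun _ : Fin 3 => ℝ) 0
    + ContinuousLinearMap.proj (R := ℝ) (φ := fun _ : Fin 3 => ℝ) 1)
    + ContinuousLinearMap.proj (R := ℝ) (φ := fun _ : Fin 3 => ℝ) 2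

theorem sL_apply (x : V) : sL x = x 0 + x 1 + x 2 := rfl

theorem sL_single (i : Fin 3) : sL (Pi.single i (1 : ℝ)) = 1 := by
  rw [sL_apply]
  fin_cases i <;> simp

/-- the derivative of a function of the sum of the coordinates -/
theorem pd_sum_fun {f : ℝ → ℝ} {f' : ℝ} {x : V} (hf : HasDerivAt f f' (x 0 + x 1 + x 2)) :
    HasFDerivAt (fun y : V => ((f (y 0 + y 1 + y 2) : ℝ) : ℂ))
      (Complex.ofRealCLM.comp (f' • sL)) x := by
  have h1 : HasFDerivAt (fun y : V => f (sL y)) (f' • sL) x :=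
    hf.comp_hasFDerivAt x sL.hasFDerivAt
  exact Complex.ofRealCLM.hasFDerivAt.comp x h1

theorem pd_exp (x : V) (p q : Fin 3) :
    HasFDerivAt (fun y : V => Complex.exp (Complex.I * ((y p : ℂ) - y q)))
      ((Complex.exp (Complex.I * ((x p : ℂ) - x q))) • (Complex.I •
        (Complex.ofRealCLM.comp (ContinuousLinearMap.proj (R := ℝ) (φ := fun _ : Fin 3 => ℝ) p)
        - Complex.ofRealCLM.comp (ContinuousLinearMap.proj (R := ℝ) (φ := fun _ : Fin 3 => ℝ) q)))) x := by
  have h1 : HasFDerivAt (fun y : V => ((y p : ℝ) : ℂ))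
      (Complex.ofRealCLM.comp (ContinuousLinearMap.proj (R := ℝ) (φ := fun _ : Fin 3 => ℝ) p)) x :=
    (Complex.ofRealCLM.comp (ContinuousLinearMap.proj (R := ℝ) (φ := fun _ : Fin 3 => ℝ) p)).hasFDerivAt
  have h2 : HasFDerivAt (fun y : V => ((y q : ℝ) : ℂ))
      (Complex.ofRealCLM.comp (ContinuousLinearMap.proj (R := ℝ) (φ := fun _ : Fin 3 => ℝ) q)) x :=
    (Complex.ofRealCLM.comp (ContinuousLinearMap.proj (R := ℝ) (φ := fun _ : Fin 3 => ℝ) q)).hasFDerivAt
  have h3 : HasFDerivAt (fun y : V => Complex.I * ((y p : ℂ) - y q)) _ x := (h1.sub h2).const_mul Complex.I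
  exact h3.cexp

/-- the partial derivatives of the special fields -/
theorem pd_dat {w g : ℝ → ℝ} {w' g' : ℝ} {x : V} (hw : HasDerivAt w w' (x 0 + x 1 + x 2))
    (hg : HasDerivAt g g' (x 0 + x 1 + x 2)) (i j p q : Fin 3) :
    pd i (fun y => dat w g y j p q) x = if p = q then 0 else
      Complex.exp (Complex.I * ((x p : ℂ) - x q)) * (Complex.I * lam i p q
        * ((w (x 0 + x 1 + x 2) : ℂ) + Complex.I * lam j p q * g (x 0 + x 1 + x 2))
        + ((w' : ℂ) + Complex.I * lam j p q * g')) := by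
  by_cases hpq : p = q
  · rw [if_pos hpq]
    have : (fun y => dat w g y j p q) = fun _ => 0 := by
      funext y; unfold dat; rw [if_pos hpq]
    rw [this]
    unfold pd
    simp
  · rw [if_neg hpq]
    have e : (fun y => dat w g y j p q) = fun y => Complex.exp (Complex.I * ((y p : ℂ) - y q))
        * ((w (y 0 + y 1 + y 2) : ℂ) + Complex.I * lam j p q * g (y 0 + y 1 + y 2)) := by
      funext y; unfold dat; rw [if_neg hpq]
    rw [e]
    have h1 := pd_exp x p q
    have h2 : HasFDerivAt (fun y : V => ((w (y 0 + y 1 + y 2) : ℂ)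
        + Complex.I * lam j p q * g (y 0 + y 1 + y 2))) _ x :=
      (pd_sum_fun hw).add ((pd_sum_fun hg).const_mul (Complex.I * lam j p q))
    have h3 : HasFDerivAt (fun y : V => Complex.exp (Complex.I * ((y p : ℂ) - y q))
        * ((w (y 0 + y 1 + y 2) : ℂ) + Complex.I * lam j p q * g (y 0 + y 1 + y 2))) _ x := h1.mul h2
    unfold pd
    rw [h3.fderiv]
    have e1 : ((Pi.single i (1 : ℝ) : V) p : ℂ) - ((Pi.single i (1 : ℝ) : V) q : ℂ) = lam i p q := by
      unfold lam
      simp only [Pi.single_apply]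
      congr 1
      · by_cases h : p = i
        · simp [h]
        · simp [h, Ne.symm h]
      · by_cases h : q = i
        · simp [h]
        · simp [h, Ne.symm h]
    simp only [_root_.add_apply, _root_.smul_apply,
      ContinuousLinearMap.comp_apply, smul_eq_mul, Complex.ofRealCLM_apply, sL_single,
      _root_.sub_apply, ContinuousLinearMap.proj_apply, e1]
    push_cast
    ring

/-- the product of the velocity and its gradient for the special fields -/
theorem adv_dat {w g : ℝ → ℝ} {g' : ℝ} {x : V}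
    (hw : HasDerivAt w (2 / 3 * g (x 0 + x 1 + x 2)) (x 0 + x 1 + x 2))
    (hg : HasDerivAt g g' (x 0 + x 1 + x 2)) (j : Fin 3) :
    (1 / 2 : ℂ) * ∑ i, ∑ l, (dat w g x i 0 l * pd i (fun y => dat w g y j l 1) x
      + pd i (fun y => dat w g y j 0 l) x * dat w g x i l 1)
    = Complex.exp (Complex.I * ((x 0 : ℂ) - x 1)) * (3 * (w (x 0 + x 1 + x 2)
        * g (x 0 + x 1 + x 2)) + Complex.I * lam j 0 1 * ((1 / 2) * (g (x 0 + x 1 + x 2) ^ 2
        + 3 * (w (x 0 + x 1 + x 2) * g')))) := by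
  simp_rw [pd_dat hw hg]
  set s := x 0 + x 1 + x 2 with hs
  have hE : Complex.exp (Complex.I * ((x 0 : ℂ) - x 1))
      = Complex.exp (Complex.I * ((x 0 : ℂ) - x 2)) * Complex.exp (Complex.I * ((x 2 : ℂ) - x 1)) := by
    rw [← Complex.exp_add]
    congr 1
    ring
  have hI := Complex.I_sq
  rw [hE]
  unfold dat
  have n01 : ¬ (0 : Fin 3) = 1 := by decide
  have n02 : ¬ (0 : Fin 3) = 2 := by decide
  have n21 : ¬ (2 : Fin 3) = 1 := by decide
  simp only [← hs, Fin.sum_univ_three, if_neg n01, if_neg n02, if_neg n21, if_true, mul_zero,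
    zero_mul, add_zero, zero_add]
  generalize Complex.exp (Complex.I * ((x 0 : ℂ) - x 2)) = E1
  generalize Complex.exp (Complex.I * ((x 2 : ℂ) - x 1)) = E2
  fin_cases j <;> simp [lam] <;> push_cast <;> ring_nf <;>
    simp only [Complex.I_sq, Complex.I_pow_three] <;> ring_nf

end Pool.Agent.N978.ME
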