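import Pool.Agent.N978.ME.Conv

/-!
The solutions which are multiples of the unit matrix.
-/

open MeasureTheory Set Filter Topology Matrix
open scoped ContDiff

namespace Pool.Agent.N978.ME

open H459R3.NS

variable {n : ℕ}

/-- the derivative of a multiple of the unit matrix -/
theorem pdM_scalar {f : V → ℝ} {x : V} (hf : DifferentiableAt ℝ f x) (i : Fin 3) :
    pdM i (fun y => ((f y : ℝ) : ℂ) • (1 : Matrix (Fin n) (Fin n) ℂ)) x
      = ((fderiv ℝ f x (Pi.single i 1) : ℝ) : ℂ) • (1 : Matrix (Fin n) (Fin n) ℂ) := by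
  ext p q
  unfold pdM
  rw [Matrix.of_apply, Matrix.smul_apply]
  have e : (fun y => (((f y : ℝ) : ℂ) • (1 : Matrix (Fin n) (Fin n) ℂ)) p q)
      = fun y => (1 : Matrix (Fin n) (Fin n) ℂ) p q * ((f y : ℝ) : ℂ) := by
    funext y
    rw [Matrix.smul_apply, smul_eq_mul, mul_comm]
  have h1 : HasFDerivAt (fun y => ((f y : ℝ) : ℂ)) (Complex.ofRealCLM.comp (fderiv ℝ f x)) x :=
    Complex.ofRealCLM.hasFDerivAt.comp x hf.hasFDerivAt
  have h2 : HasFDerivAt (fun y => (1 : Matrix (Fin n) (Fin n) ℂ) p q * ((f y : ℝ) : ℂ)) _ x :=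
    h1.const_mul ((1 : Matrix (Fin n) (Fin n) ℂ) p q)
  rw [e]
  unfold pd
  rw [h2.fderiv]
  simp [mul_comm]

theorem smul_one_eq_zero (hn : 1 ≤ n) (r : ℝ) :
    ((r : ℂ) • (1 : Matrix (Fin n) (Fin n) ℂ) = 0) ↔ r = 0 := by
  constructor
  · intro h
    have h1 := congrFun (congrFun h ⟨0, hn⟩) ⟨0, hn⟩
    simpa using h1
  · rintro rfl
    simp

theorem c1_entry {S : Set (ℝ × V)} {f : ℝ × V → ℝ} (hn : 1 ≤ n) :
    (∀ p q : Fin n, ContDiffOn ℝ 1 (fun z => (((f z : ℝ) : ℂ) • (1 : Matrix (Fin n) (Fin n) ℂ)) p q) S)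
      ↔ ContDiffOn ℝ 1 f S := by
  constructor
  · intro h
    have h1 := Complex.reCLM.contDiff.comp_contDiffOn (h ⟨0, hn⟩ ⟨0, hn⟩)
    refine h1.congr fun z _ => ?_
    simp
  · intro h p q
    have e : (fun z => (((f z : ℝ) : ℂ) • (1 : Matrix (Fin n) (Fin n) ℂ)) p q)
        = fun z => ((f z : ℝ) : ℂ) * (1 : Matrix (Fin n) (Fin n) ℂ) p q := by
      funext z
      rw [Matrix.smul_apply, smul_eq_mul]
    rw [e]
    exact (Complex.ofRealCLM.contDiff.comp_contDiffOn h).mul contDiffOn_const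

/-- the product term for multiples of the unit matrix -/
theorem adv_scalar (a b : Fin 3 → ℝ) :
    (1 / 2 : ℂ) • ∑ i, (((a i : ℝ) : ℂ) • (1 : Matrix (Fin n) (Fin n) ℂ)
        * (((b i : ℝ) : ℂ) • (1 : Matrix (Fin n) (Fin n) ℂ))
      + ((b i : ℝ) : ℂ) • (1 : Matrix (Fin n) (Fin n) ℂ)
        * (((a i : ℝ) : ℂ) • (1 : Matrix (Fin n) (Fin n) ℂ)))
      = ((∑ i, a i * b i : ℝ) : ℂ) • (1 : Matrix (Fin n) (Fin n) ℂ) := by
  have h1 : ∀ i, (((a i : ℝ) : ℂ) • (1 : Matrix (Fin n) (Fin n) ℂ)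
        * (((b i : ℝ) : ℂ) • (1 : Matrix (Fin n) (Fin n) ℂ))
      + ((b i : ℝ) : ℂ) • (1 : Matrix (Fin n) (Fin n) ℂ)
        * (((a i : ℝ) : ℂ) • (1 : Matrix (Fin n) (Fin n) ℂ)))
      = (2 * ((a i : ℂ) * (b i : ℂ))) • (1 : Matrix (Fin n) (Fin n) ℂ) := by
    intro i
    rw [smul_mul_smul_comm, smul_mul_smul_comm, mul_one, ← add_smul]
    congr 1
    ring
  simp_rw [h1]
  rw [← Finset.sum_smul, smul_smul, ← Finset.mul_sum]
  congr 1
  push_cast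
  ring

end Pool.Agent.N978.ME
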