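import Pool.Agent.N978.ME.Av

/-!
Classical periodic solutions of the Euler equations with values in Hermitian matrices.
-/

open MeasureTheory Set Filter Topology Matrix
open scoped ContDiff

namespace Pool.Agent.N978.ME

open H459R3.NS

/-- the (symmetrised) product of the velocity and its gradient: the matrix
`½ ∑ᵢ (uᵢ ∂ᵢvⱼ + ∂ᵢvⱼ uᵢ)` -/
noncomputable def adv {ι : Type*} [Fintype ι] (u : Fin 3 → Matrix ι ι ℂ)
    (dv : Fin 3 → Matrix ι ι ℂ) : Matrix ι ι ℂ :=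
  (1 / 2 : ℂ) • ∑ i, (u i * dv i + dv i * u i)

/-- entrywise partial derivative -/
noncomputable def pdM {ι : Type*} (i : Fin 3) (f : V → Matrix ι ι ℂ) (x : V) : Matrix ι ι ℂ :=
  Matrix.of fun p q => pd i (fun y => f y p q) x

/-- Classical `2π`-periodic solutions on `[0, T)`. -/
structure Sol (ι : Type*) [Fintype ι] (T : ℝ) (u : ℝ → V → Fin 3 → Matrix ι ι ℂ)
    (P : ℝ → V → Matrix ι ι ℂ) : Prop where
  c1_u : ∀ j p q, ContDiffOn ℝ 1 (fun z : ℝ × V => u z.1 z.2 j p q) (Ico 0 T ×ˢ univ)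
  c1_P : ∀ p q, ContDiffOn ℝ 1 (fun z : ℝ × V => P z.1 z.2 p q) (Ico 0 T ×ˢ univ)
  per_u : ∀ t ∈ Ico 0 T, PerB (u t)
  per_P : ∀ t ∈ Ico 0 T, PerB (P t)
  herm : ∀ t ∈ Ico 0 T, ∀ x j, (u t x j).IsHermitian
  divfree : ∀ t ∈ Ico 0 T, ∀ x p q, ∑ j, pd j (fun y => u t y j p q) x = 0
  momentum : ∀ t ∈ Ioo 0 T, ∀ x j p q, deriv (fun s => u s x j p q) t
      + adv (u t x) (fun i => pdM i (fun y => u t y j) x) p q + pd j (fun y => P t y p q) x = 0

section slices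

variable {T : ℝ} {f : ℝ → V → ℂ}

theorem slice_c1 (hf : ContDiffOn ℝ 1 (fun z : ℝ × V => f z.1 z.2) (Ico 0 T ×ˢ univ)) {t : ℝ}
    (ht : t ∈ Ico 0 T) : ContDiff ℝ 1 (f t) := by
  rw [← contDiffOn_univ]
  exact hf.comp (contDiff_const.prodMk contDiff_id).contDiffOn (fun x _ => ⟨ht, mem_univ _⟩)

theorem slice_pd (hf : ContDiffOn ℝ 1 (fun z : ℝ × V => f z.1 z.2) (Ico 0 T ×ˢ univ)) {t : ℝ}
    (ht : t ∈ Ico 0 T) (j : Fin 3) (x : V) :
    pd j (f t) x = fderivWithin ℝ (fun z : ℝ × V => f z.1 z.2) (Ico 0 T ×ˢ univ) (t, x)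
      (0, Pi.single j 1) := by
  have h1 : HasFDerivWithinAt (fun z : ℝ × V => f z.1 z.2)
      (fderivWithin ℝ (fun z : ℝ × V => f z.1 z.2) (Ico 0 T ×ˢ univ) (t, x))
      (Ico 0 T ×ˢ univ) (t, x) :=
    ((hf.differentiableOn one_ne_zero) (t, x) ⟨ht, mem_univ _⟩).hasFDerivWithinAt
  have h2 : HasFDerivAt (fun y : V => ((t, y) : ℝ × V)) (ContinuousLinearMap.inr ℝ ℝ V) x :=
    hasFDerivAt_prodMk_right t x
  have h3 : HasFDerivWithinAt (fun y : V => f t y)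
      ((fderivWithin ℝ (fun z : ℝ × V => f z.1 z.2) (Ico 0 T ×ˢ univ) (t, x)).comp
        (ContinuousLinearMap.inr ℝ ℝ V)) univ x :=
    HasFDerivWithinAt.comp (g := fun z : ℝ × V => f z.1 z.2) (t := Ico 0 T ×ˢ univ) x h1
      h2.hasFDerivWithinAt (fun y _ => ⟨ht, mem_univ _⟩)
  rw [hasFDerivWithinAt_univ] at h3
  unfold pd
  have h4 : fderiv ℝ (f t) x = _ := h3.fderiv
  rw [h4]
  simp

theorem cont_slice_pd (hf : ContDiffOn ℝ 1 (fun z : ℝ × V => f z.1 z.2) (Ico 0 T ×ˢ univ))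
    (j : Fin 3) : ContinuousOn (fun z : ℝ × V => pd j (f z.1) z.2) (Ico 0 T ×ˢ univ) := by
  have h1 : ContinuousOn (fderivWithin ℝ (fun z : ℝ × V => f z.1 z.2) (Ico 0 T ×ˢ univ))
      (Ico 0 T ×ˢ univ) := hf.continuousOn_fderivWithin (uniqueDiff T) le_rfl
  have h2 : ContinuousOn (fun z : ℝ × V => fderivWithin ℝ (fun z : ℝ × V => f z.1 z.2)
      (Ico 0 T ×ˢ univ) z (0, Pi.single j 1)) (Ico 0 T ×ˢ univ) :=
    h1.clm_apply continuousOn_const
  refine h2.congr fun z hz => ?_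
  exact slice_pd hf hz.1 j z.2

theorem to_Ioo (hf : ContDiffOn ℝ 1 (fun z : ℝ × V => f z.1 z.2) (Ico 0 T ×ˢ univ)) :
    ContDiffOn ℝ 1 (fun z : ℝ × V => f z.1 z.2) (Ioo 0 T ×ˢ univ) :=
  hf.mono (prod_mono Ioo_subset_Ico_self subset_rfl)

theorem slice_dt (hf : ContDiffOn ℝ 1 (fun z : ℝ × V => f z.1 z.2) (Ico 0 T ×ˢ univ)) {t : ℝ}
    (ht : t ∈ Ioo 0 T) (x : V) : HasDerivAt (fun s => f s x) (deriv (fun s => f s x) t) t :=
  (slice_deriv (to_Ioo hf) ht x).differentiableAt.hasDerivAt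

theorem cont_dt (hf : ContDiffOn ℝ 1 (fun z : ℝ × V => f z.1 z.2) (Ico 0 T ×ˢ univ)) {t : ℝ}
    (ht : t ∈ Ioo 0 T) : Continuous (fun x => deriv (fun s => f s x) t) := by
  have hO : IsOpen (Ioo 0 T ×ˢ (univ : Set V)) := isOpen_Ioo.prod isOpen_univ
  have hd : ContinuousOn (fun z : ℝ × V =>
      fderiv ℝ (fun z : ℝ × V => f z.1 z.2) z (1, 0)) (Ioo 0 T ×ˢ univ) :=
    ((to_Ioo hf).continuousOn_fderiv_of_isOpen hO le_rfl).clm_apply continuousOn_const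
  have h := hd.comp_continuous (f := fun x : V => ((t, x) : ℝ × V)) (by fun_prop)
      (fun x => ⟨ht, mem_univ _⟩)
  refine h.congr fun x => ?_
  exact (slice_deriv (to_Ioo hf) ht x).deriv.symm

end slices

section sol

variable {ι : Type*} [Fintype ι] {T : ℝ} {u : ℝ → V → Fin 3 → Matrix ι ι ℂ}
    {P : ℝ → V → Matrix ι ι ℂ}

theorem Sol.cp (h : Sol ι T u P) {t : ℝ} (ht : t ∈ Ico 0 T) (j : Fin 3) (p q : ι) :
    CP (fun y => u t y j p q) where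
  c1 := slice_c1 (f := fun t y => u t y j p q) (h.c1_u j p q) ht
  per := fun i x => by simp only [h.per_u t ht i x]

theorem Sol.cpP (h : Sol ι T u P) {t : ℝ} (ht : t ∈ Ico 0 T) (p q : ι) :
    CP (fun y => P t y p q) where
  c1 := slice_c1 (f := fun t y => P t y p q) (h.c1_P p q) ht
  per := fun i x => by simp only [h.per_P t ht i x]

theorem adv_apply (u dv : Fin 3 → Matrix ι ι ℂ) (p q : ι) :
    adv u dv p q = (1 / 2 : ℂ) * ∑ i, ∑ l, (u i p l * dv i l q + dv i p l * u i l q) := by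
  unfold adv
  rw [Matrix.smul_apply, smul_eq_mul, Matrix.sum_apply]
  congr 1
  refine Finset.sum_congr rfl fun i _ => ?_
  rw [Matrix.add_apply, Matrix.mul_apply, Matrix.mul_apply, ← Finset.sum_add_distrib]

end sol

end Pool.Agent.N978.ME
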