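import Pool.Agent.N978.ME.Symm2

/-!
The structure of the solutions with the special initial values.
-/

open MeasureTheory Set Filter Topology Matrix
open scoped ContDiff

namespace Pool.Agent.N978.ME

open H459R3.NS

/-- `δ_{jp} - δ_{jq}` -/
def lam (j p q : Fin 3) : ℂ := (if j = p then 1 else 0) - (if j = q then 1 else 0)

/-- The fields `e^{i(x_p - x_q)} (w(s) + i (δ_{jp} - δ_{jq}) g(s))`, `s = x_0 + x_1 + x_2`, for
`p ≠ q`. -/
noncomputable def dat (w g : ℝ → ℝ) (x : V) (j p q : Fin 3) : ℂ :=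
  if p = q then 0 else Complex.exp (Complex.I * ((x p : ℂ) - x q))
    * ((w (x 0 + x 1 + x 2) : ℂ) + Complex.I * lam j p q * g (x 0 + x 1 + x 2))

section data

variable {w g : ℝ → ℝ}

theorem dat_diag {h : V} (hh : h 0 + h 1 + h 2 = 0) (x : V) (j p q : Fin 3) :
    Complex.exp (-(Complex.I * h p)) * (starRingEnd ℂ) (Complex.exp (-(Complex.I * h q)))
      * dat w g (x + h) j p q = dat w g x j p q := by
  unfold dat
  by_cases hpq : p = q
  · rw [if_pos hpq, if_pos hpq, mul_zero]
  · rw [if_neg hpq, if_neg hpq]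
    have hs : (x + h) 0 + (x + h) 1 + (x + h) 2 = x 0 + x 1 + x 2 := by
      simp only [Pi.add_apply]; linarith
    rw [hs, ← Complex.exp_conj, ← mul_assoc, ← Complex.exp_add, ← Complex.exp_add]
    congr 2
    simp only [map_neg, map_mul, Complex.conj_I, Complex.conj_ofReal, Pi.add_apply]
    push_cast
    ring

theorem dat_neg (hw : ∀ s, w (-s) = -w s) (hg : ∀ s, g (-s) = g s) (x : V) (j p q : Fin 3) :
    - dat w g (-x) j q p = dat w g x j p q := by
  unfold dat
  by_cases hpq : p = q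
  · rw [if_pos hpq, if_pos hpq.symm, neg_zero]
  · rw [if_neg hpq, if_neg (Ne.symm hpq)]
    have hs : (-x) 0 + (-x) 1 + (-x) 2 = -(x 0 + x 1 + x 2) := by
      simp only [Pi.neg_apply]; ring
    rw [hs, hw, hg]
    have e : Complex.I * (((-x) q : ℝ) : ℂ) - Complex.I * (((-x) p : ℝ) : ℂ)
        = Complex.I * ((x p : ℂ) - x q) := by
      simp only [Pi.neg_apply]; push_cast; ring
    rw [mul_sub, e]
    have hl : lam j q p = - lam j p q := by unfold lam; ring
    rw [hl]
    push_cast
    ring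

theorem dat_S (x : V) (j p q : Fin 3) :
    ∑ k, (RS j k : ℂ) * dat w g (ST x) k q p = dat w g x j p q := by
  unfold dat
  by_cases hpq : p = q
  · simp [hpq]
  · rw [if_neg hpq]
    simp only [if_neg (Ne.symm hpq)]
    have hs : ST x 0 + ST x 1 + ST x 2 = x 0 + x 1 + x 2 := by
      simp only [ST]; ring
    have e : Complex.I * (((ST x q : ℝ) : ℂ) - ((ST x p : ℝ) : ℂ))
        = Complex.I * ((x p : ℂ) - x q) := by
      simp only [ST]; push_cast; ring
    rw [hs, e]
    have h1 : ∑ k, (RS j k : ℂ) = 1 := by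
      rw [Fin.sum_univ_three]
      fin_cases j <;> simp [RS] <;> norm_num
    have h2 : ∑ k, (RS j k : ℂ) * lam k q p = lam j p q := by
      rw [Fin.sum_univ_three]
      fin_cases j <;> fin_cases p <;> fin_cases q <;> simp_all [RS, lam] <;> norm_num
    have h3 : ∀ k, (RS j k : ℂ) * (Complex.exp (Complex.I * ((x p : ℂ) - x q))
        * ((w (x 0 + x 1 + x 2) : ℂ) + Complex.I * lam k q p * g (x 0 + x 1 + x 2)))
        = Complex.exp (Complex.I * ((x p : ℂ) - x q)) * (w (x 0 + x 1 + x 2) : ℂ) * (RS j k : ℂ)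
          + Complex.exp (Complex.I * ((x p : ℂ) - x q)) * Complex.I * g (x 0 + x 1 + x 2)
            * ((RS j k : ℂ) * lam k q p) := by
      intro k; ring
    simp_rw [h3]
    rw [Finset.sum_add_distrib, ← Finset.mul_sum, ← Finset.mul_sum, h1, h2]
    ring

theorem dat_perm (σ : Equiv.Perm (Fin 3)) (x : V) (j p q : Fin 3) :
    dat w g (fun k => x (σ.symm k)) (σ j) (σ p) (σ q) = dat w g x j p q := by
  unfold dat
  have hs : x (σ.symm 0) + x (σ.symm 1) + x (σ.symm 2) = x 0 + x 1 + x 2 := by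
    have := Equiv.sum_comp σ.symm x
    simpa [Fin.sum_univ_three] using this
  have hl : lam (σ j) (σ p) (σ q) = lam j p q := by
    unfold lam
    simp
  by_cases hpq : p = q
  · rw [if_pos hpq, if_pos (by rw [hpq])]
  · rw [if_neg hpq, if_neg (fun h => hpq (σ.injective h))]
    simp only [Equiv.symm_apply_apply, hs, hl]

end data

section struct

variable {T : ℝ} {u : ℝ → V → Fin 3 → Matrix (Fin 3) (Fin 3) ℂ}
    {P : ℝ → V → Matrix (Fin 3) (Fin 3) ℂ}

/-- the profile `w` -/
noncomputable def wf (u : ℝ → V → Fin 3 → Matrix (Fin 3) (Fin 3) ℂ) (t s : ℝ) : ℝ :=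
  (u t (fun _ => s / 3) 2 0 1).re

/-- the profile `g` -/
noncomputable def gf (u : ℝ → V → Fin 3 → Matrix (Fin 3) (Fin 3) ℂ) (t s : ℝ) : ℝ :=
  (u t (fun _ => s / 3) 0 0 1).im

theorem exists_perm : ∀ p q : Fin 3, p ≠ q → ∃ σ : Equiv.Perm (Fin 3), σ 0 = p ∧ σ 1 = q := by
  decide

variable (hu : Sol (Fin 3) T u P) (hpu : ∀ t ∈ Ico 0 T, Per2 (u t))
    (hpP : ∀ t ∈ Ico 0 T, Per2 (P t)) {w0 g0 : ℝ → ℝ} (hw0 : ∀ s, w0 (-s) = -w0 s)
    (hg0 : ∀ s, g0 (-s) = g0 s) (h0 : ∀ x j p q, u 0 x j p q = dat w0 g0 x j p q)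

include hu h0 in
theorem str_T {t : ℝ} (ht : t ∈ Ico 0 T) (x : V) (j p q : Fin 3) :
    u t x j p q = Complex.exp (Complex.I * ((x p : ℂ) - x q))
      * u t (fun _ => (x 0 + x 1 + x 2) / 3) j p q := by
  set h : V := fun k => (x 0 + x 1 + x 2) / 3 - x k with hh
  have hsum : h 0 + h 1 + h 2 = 0 := by simp only [hh]; ring
  have h1 := sym_diag hu (d := fun p => Complex.exp (-(Complex.I * h p))) (h := h) (fun p => by
      rw [← Complex.exp_conj, ← Complex.exp_add]
      simp) (fun x j p q => by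
      rw [h0, h0]
      exact dat_diag hsum x j p q) ht x j p q
  have e : x + h = fun _ => (x 0 + x 1 + x 2) / 3 := by
    funext k
    simp only [hh, Pi.add_apply]
    ring
  rw [e] at h1
  rw [← h1]
  congr 1
  rw [← Complex.exp_conj, ← Complex.exp_add]
  congr 1
  simp only [map_neg, map_mul, Complex.conj_I, Complex.conj_ofReal, hh]
  push_cast
  ring

include hu hw0 hg0 h0 in
theorem str_neg {t : ℝ} (ht : t ∈ Ico 0 T) (s : ℝ) (j p q : Fin 3) :
    - u t (fun _ => -s / 3) j q p = u t (fun _ => s / 3) j p q := by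
  have h1 := sym_neg hu (fun x j p q => by
      rw [h0, h0]
      exact dat_neg hw0 hg0 x j p q) ht (fun _ => s / 3) j p q
  have e : (-(fun _ : Fin 3 => s / 3) : V) = fun _ => -s / 3 := by
    funext k
    simp only [Pi.neg_apply]
    ring
  rw [e] at h1
  exact h1

include hu h0 in
theorem str_S {t : ℝ} (ht : t ∈ Ico 0 T) (s : ℝ) (j p q : Fin 3) :
    ∑ k, (RS j k : ℂ) * u t (fun _ => s / 3) k q p = u t (fun _ => s / 3) j p q := by
  have h1 := sym_S hu (fun x j p q => by
      simp_rw [h0]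
      exact dat_S x j p q) ht (fun _ => s / 3) j p q
  have e : ST (fun _ : Fin 3 => s / 3) = fun _ => s / 3 := by
    funext k
    simp only [ST]
    ring
  rw [e] at h1
  exact h1

include hu hpu hpP h0 in
theorem str_perm {t : ℝ} (ht : t ∈ Ico 0 T) (s : ℝ) (σ : Equiv.Perm (Fin 3)) (j p q : Fin 3) :
    u t (fun _ => s / 3) (σ j) (σ p) (σ q) = u t (fun _ => s / 3) j p q :=
  sym_perm hu hpu hpP σ (fun x j p q => by
      rw [h0, h0]
      exact dat_perm σ x j p q) ht (fun _ => s / 3) j p q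

include hu in
theorem str_herm {t : ℝ} (ht : t ∈ Ico 0 T) (x : V) (j p q : Fin 3) :
    u t x j q p = (starRingEnd ℂ) (u t x j p q) := by
  have := (hu.herm t ht x j).apply q p
  rw [← this]
  rfl

include hu h0 in
/-- the real part is independent of `j` and the sum of the imaginary parts vanishes -/
theorem str_reim {t : ℝ} (ht : t ∈ Ico 0 T) (s : ℝ) (p q : Fin 3) :
    (∀ j, (u t (fun _ => s / 3) j p q).re = (u t (fun _ => s / 3) 2 p q).re) ∧
    (u t (fun _ => s / 3) 0 p q).im + (u t (fun _ => s / 3) 1 p q).im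
      + (u t (fun _ => s / 3) 2 p q).im = 0 := by
  have h1 := fun j => str_S hu h0 ht s j p q
  simp_rw [str_herm hu ht _ _ p q] at h1
  have h2 : ∀ j, (∑ k, RS j k * (u t (fun _ => s / 3) k p q).re)
      = (u t (fun _ => s / 3) j p q).re := by
    intro j
    rw [← h1 j, Complex.re_sum]
    refine Finset.sum_congr rfl fun k _ => ?_
    rw [Complex.re_ofReal_mul, Complex.conj_re]
  have h3 : ∀ j, (∑ k, RS j k * -(u t (fun _ => s / 3) k p q).im)
      = (u t (fun _ => s / 3) j p q).im := by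
    intro j
    rw [← h1 j, Complex.im_sum]
    refine Finset.sum_congr rfl fun k _ => ?_
    rw [Complex.im_ofReal_mul, Complex.conj_im]
  simp only [Fin.sum_univ_three, RS, Matrix.of_apply] at h2 h3
  have a0 := h2 0
  have a1 := h2 1
  have a2 := h2 2
  have b0 := h3 0
  simp at a0 a1 a2 b0
  refine ⟨fun j => ?_, by linarith⟩
  fin_cases j
  · show (u t (fun _ => s / 3) 0 p q).re = _
    linarith
  · show (u t (fun _ => s / 3) 1 p q).re = _
    linarith
  · rfl

include hu hpu hpP h0 in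
theorem str_01 {t : ℝ} (ht : t ∈ Ico 0 T) (s : ℝ) (j : Fin 3) :
    u t (fun _ => s / 3) j 0 1 = (wf u t s : ℂ) + Complex.I * lam j 0 1 * (gf u t s : ℂ) := by
  obtain ⟨hre, him⟩ := str_reim hu h0 ht s 0 1
  have h2 : (u t (fun _ => s / 3) 2 0 1).im = 0 := by
    have h3 := str_perm hu hpu hpP h0 ht s (Equiv.swap 0 1) 2 0 1
    have e1 : (Equiv.swap (0 : Fin 3) 1) 2 = 2 := by decide
    have e2 : (Equiv.swap (0 : Fin 3) 1) 0 = 1 := by decide
    have e3 : (Equiv.swap (0 : Fin 3) 1) 1 = 0 := by decide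
    rw [e1, e2, e3, str_herm hu ht _ 2 0 1] at h3
    have h4 := congrArg Complex.im h3
    rw [Complex.conj_im] at h4
    linarith
  rw [h2, add_zero] at him
  apply Complex.ext
  · rw [hre j]
    unfold wf gf lam
    fin_cases j <;> simp
  · unfold wf gf lam
    fin_cases j
    · simp
    · simp
      linarith
    · simp [h2]

include hu hw0 hg0 h0 in
theorem str_diag {t : ℝ} (ht : t ∈ Ico 0 T) (s : ℝ) (j p : Fin 3) :
    u t (fun _ => s / 3) j p p = 0 := by
  -- the diagonal entries are real and independent of `j`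
  have hreal : ∀ s j, (u t (fun _ => s / 3) j p p) = (((u t (fun _ => s / 3) 2 p p).re : ℝ) : ℂ) := by
    intro s j
    have h1 := str_herm hu ht (fun _ => s / 3) j p p
    have h2 := congrArg Complex.im h1
    rw [Complex.conj_im] at h2
    apply Complex.ext
    · rw [(str_reim hu h0 ht s p p).1 j]; simp
    · simp; linarith
  set f : ℝ → ℝ := fun s => (u t (fun _ => s / 3) 2 p p).re with hf
  have hux : ∀ x k, u t x k p p = ((f (x 0 + x 1 + x 2) : ℝ) : ℂ) := by
    intro x k
    rw [str_T hu h0 ht x k p p, hreal]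
    simp [hf]
  -- differentiability of f
  have hline : ∀ s : ℝ, HasDerivAt (fun s : ℝ => (fun _ : Fin 3 => s / 3 : V)) (fun _ => 1 / 3) s := by
    intro s
    rw [hasDerivAt_pi]
    intro _
    exact (hasDerivAt_id s).div_const 3
  have hfd : ∀ s, HasDerivAt (fun s => ((f s : ℝ) : ℂ)) 0 s := by
    intro s
    have h1 : HasFDerivAt (fun y => u t y 2 p p) (fderiv ℝ (fun y => u t y 2 p p) (fun _ => s / 3))
        (fun _ => s / 3) := ((hu.cp ht 2 p p).diff _).hasFDerivAt
    have h2 := h1.comp_hasDerivAt s (hline s)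
    have h3 : (fun s => ((f s : ℝ) : ℂ)) = (fun y => u t y 2 p p) ∘ fun s : ℝ => (fun _ : Fin 3 => s / 3) := by
      funext s
      simp only [Function.comp_apply]
      rw [hux]
      congr 2
      ring
    rw [h3]
    refine h2.congr_deriv ?_
    have h4 : ((fun _ => 1 / 3) : V) = ∑ k, (1 / 3 : ℝ) • (Pi.single k (1 : ℝ) : V) := by
      funext k
      simp [Finset.sum_apply, Pi.single_apply]
    rw [h4, map_sum]
    have h5 := hu.divfree t ht (fun _ => s / 3) p p
    have h6 : ∀ k, pd k (fun y => u t y k p p) (fun _ => s / 3)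
        = fderiv ℝ (fun y => u t y 2 p p) (fun _ => s / 3) (Pi.single k 1) := by
      intro k
      unfold pd
      have h7 : (fun y => u t y k p p) = fun y => u t y 2 p p := by
        funext y; rw [hux, hux]
      rw [h7]
    simp_rw [h6] at h5
    simp_rw [map_smul]
    rw [← Finset.smul_sum, h5, smul_zero]
  have hconst : ∀ s, ((f s : ℝ) : ℂ) = ((f 0 : ℝ) : ℂ) := by
    intro s
    exact is_const_of_deriv_eq_zero (fun s => (hfd s).differentiableAt) (fun s => (hfd s).deriv) s 0
  have hodd := str_neg hu hw0 hg0 h0 ht 0 2 p p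
  simp only [neg_zero, zero_div] at hodd
  have hz : u t (fun _ => 0) 2 p p = 0 := by
    have := self_eq_neg.1 hodd.symm
    exact this
  have hf0 : f 0 = 0 := by
    simp only [hf, zero_div, hz, Complex.zero_re]
  rw [hreal s j]
  have := hconst s
  simp only [hf] at this hf0 ⊢
  rw [this, hf0]
  simp

include hu hpu hpP hw0 hg0 h0 in
/-- The structure of the solution. -/
theorem struct {t : ℝ} (ht : t ∈ Ico 0 T) (x : V) (j p q : Fin 3) :
    u t x j p q = dat (wf u t) (gf u t) x j p q := by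
  unfold dat
  rw [str_T hu h0 ht x j p q]
  by_cases hpq : p = q
  · rw [if_pos hpq, hpq, str_diag hu hw0 hg0 h0 ht, mul_zero]
  · rw [if_neg hpq]
    congr 1
    obtain ⟨σ, hσ0, hσ1⟩ := exists_perm p q hpq
    have h1 := str_perm hu hpu hpP h0 ht (x 0 + x 1 + x 2) σ (σ.symm j) 0 1
    rw [Equiv.apply_symm_apply, hσ0, hσ1] at h1
    rw [h1, str_01 hu hpu hpP h0 ht]
    have h2 : lam (σ.symm j) 0 1 = lam j p q := by
      unfold lam
      have e1 : (σ.symm j = 0) = (j = p) := by
        rw [← hσ0]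
        exact propext (Equiv.symm_apply_eq σ)
      have e2 : (σ.symm j = 1) = (j = q) := by
        rw [← hσ1]
        exact propext (Equiv.symm_apply_eq σ)
      simp only [e1, e2]
    rw [h2]

include hu hw0 hg0 h0 in
theorem wf_zero {t : ℝ} (ht : t ∈ Ico 0 T) (hpu : ∀ t ∈ Ico 0 T, Per2 (u t))
    (hpP : ∀ t ∈ Ico 0 T, Per2 (P t)) : wf u t 0 = 0 := by
  have h1 := str_neg hu hw0 hg0 h0 ht 0 2 0 1
  rw [str_herm hu ht _ 2 0 1] at h1
  have h2 := congrArg Complex.re h1
  simp only [neg_zero, zero_div, Complex.neg_re, Complex.conj_re] at h2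
  unfold wf
  simp only [zero_div]
  linarith

end struct

end Pool.Agent.N978.ME
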