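import Pool.Agent.N978.ME.Uniq2

/-!
Symmetries of the Euler equations with values in Hermitian matrices.
-/

open MeasureTheory Set Filter Topology Matrix
open scoped ContDiff

namespace Pool.Agent.N978.ME

open H459R3.NS

variable {ι : Type*} [Fintype ι] [DecidableEq ι] {T : ℝ} {u v : ℝ → V → Fin 3 → Matrix ι ι ℂ}
    {P Q : ℝ → V → Matrix ι ι ℂ}

/-- the affine map `x ↦ Rᵀ x + h` -/
def Lm (R : Matrix (Fin 3) (Fin 3) ℝ) (h : V) (x : V) : V := Rᵀ *ᵥ x + h

theorem hasFDerivAt_Lm (R : Matrix (Fin 3) (Fin 3) ℝ) (h x : V) :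
    HasFDerivAt (Lm R h) (LinearMap.toContinuousLinearMap (Matrix.mulVecLin Rᵀ)) x := by
  have h1 : HasFDerivAt (fun x : V => LinearMap.toContinuousLinearMap (Matrix.mulVecLin Rᵀ) x + h)
      (LinearMap.toContinuousLinearMap (Matrix.mulVecLin Rᵀ)) x :=
    (LinearMap.toContinuousLinearMap (Matrix.mulVecLin Rᵀ)).hasFDerivAt.add_const h
  exact h1

theorem contDiff_Lm (R : Matrix (Fin 3) (Fin 3) ℝ) (h : V) {n : WithTop ℕ∞} :
    ContDiff ℝ n (Lm R h) := by
  have h1 : ContDiff ℝ n (fun x : V => LinearMap.toContinuousLinearMap (Matrix.mulVecLin Rᵀ) x + h) :=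
    (LinearMap.toContinuousLinearMap (Matrix.mulVecLin Rᵀ)).contDiff.add contDiff_const
  exact h1

theorem pd_comp_Lm (R : Matrix (Fin 3) (Fin 3) ℝ) (h x : V) {f : V → ℂ}
    (hf : DifferentiableAt ℝ f (Lm R h x)) (i : Fin 3) :
    pd i (fun x => f (Lm R h x)) x = ∑ m, (R i m : ℂ) * pd m f (Lm R h x) := by
  have h1 : HasFDerivAt (fun x => f (Lm R h x)) _ x := hf.hasFDerivAt.comp x (hasFDerivAt_Lm R h x)
  unfold pd
  rw [h1.fderiv]
  simp only [ContinuousLinearMap.comp_apply, LinearMap.coe_toContinuousLinearMap',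
    Matrix.mulVecLin_apply]
  have h2 : Rᵀ *ᵥ (Pi.single i (1 : ℝ)) = ∑ m, R i m • (Pi.single m (1 : ℝ) : V) := by
    funext k
    simp [Matrix.mulVec_single, Pi.single_apply, Finset.sum_apply]
  rw [h2, map_sum]
  refine Finset.sum_congr rfl fun m _ => ?_
  rw [map_smul]
  simp

theorem Phi_apply (Φ : Matrix ι ι ℂ →ₗ[ℂ] Matrix ι ι ℂ) (A : Matrix ι ι ℂ) (p q : ι) :
    Φ A p q = ∑ r, ∑ s, Φ (Matrix.single r s 1) p q * A r s := by
  conv_lhs => rw [Matrix.matrix_eq_sum_single A]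
  rw [map_sum, Matrix.sum_apply]
  refine Finset.sum_congr rfl fun r _ => ?_
  rw [map_sum, Matrix.sum_apply]
  refine Finset.sum_congr rfl fun s _ => ?_
  have h1 : Matrix.single r s (A r s) = A r s • Matrix.single r s (1 : ℂ) := by
    rw [Matrix.smul_single, smul_eq_mul, mul_one]
  rw [h1, map_smul, Matrix.smul_apply, smul_eq_mul, mul_comm]

/-- derivative of a linear function of a matrix field -/
theorem pd_Phi (Φ : Matrix ι ι ℂ →ₗ[ℂ] Matrix ι ι ℂ) {F : V → Matrix ι ι ℂ} {x : V}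
    (hF : ∀ p q, DifferentiableAt ℝ (fun y => F y p q) x) (i : Fin 3) (p q : ι) :
    pd i (fun y => Φ (F y) p q) x = Φ (pdM i F x) p q := by
  have e : (fun y => Φ (F y) p q) = fun y => ∑ r, ∑ s, Φ (Matrix.single r s 1) p q * F y r s := by
    funext y; exact Phi_apply Φ _ p q
  have d1 : ∀ r s : ι, DifferentiableAt ℝ (fun y => Φ (Matrix.single r s 1) p q * F y r s) x :=
    fun r s => (hF r s).const_mul _
  have d2 : ∀ r : ι, DifferentiableAt ℝ
      (fun y => ∑ s, Φ (Matrix.single r s 1) p q * F y r s) x :=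
    fun r => DifferentiableAt.fun_sum fun s _ => d1 r s
  rw [e, pd_sum' fun r _ => d2 r, Phi_apply Φ (pdM i F x)]
  refine Finset.sum_congr rfl fun r _ => ?_
  rw [pd_sum' fun s _ => d1 r s]
  refine Finset.sum_congr rfl fun s _ => ?_
  rw [pd_const_mul' (hF r s)]
  rfl

/-- the transformed velocity -/
noncomputable def trU (R : Matrix (Fin 3) (Fin 3) ℝ) (h : V) (Φ : Matrix ι ι ℂ →ₗ[ℂ] Matrix ι ι ℂ)
    (u : ℝ → V → Fin 3 → Matrix ι ι ℂ) (t : ℝ) (x : V) (j : Fin 3) : Matrix ι ι ℂ :=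
  ∑ k, (R j k : ℂ) • Φ (u t (Lm R h x) k)

/-- the transformed pressure -/
noncomputable def trP (R : Matrix (Fin 3) (Fin 3) ℝ) (h : V) (Φ : Matrix ι ι ℂ →ₗ[ℂ] Matrix ι ι ℂ)
    (P : ℝ → V → Matrix ι ι ℂ) (t : ℝ) (x : V) : Matrix ι ι ℂ := Φ (P t (Lm R h x))

theorem trU_apply (R : Matrix (Fin 3) (Fin 3) ℝ) (h : V) (Φ : Matrix ι ι ℂ →ₗ[ℂ] Matrix ι ι ℂ)
    (u : ℝ → V → Fin 3 → Matrix ι ι ℂ) (t : ℝ) (x : V) (j : Fin 3) (p q : ι) :
    trU R h Φ u t x j p q = ∑ k, (R j k : ℂ) * Φ (u t (Lm R h x) k) p q := by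
  unfold trU
  rw [Matrix.sum_apply]
  rfl

theorem orth_sum {E : Type*} [AddCommGroup E] [Module ℂ E] {R : Matrix (Fin 3) (Fin 3) ℝ}
    (hR : Rᵀ * R = 1) (G : Fin 3 → Fin 3 → E) :
    ∑ i, ∑ a, ∑ m, ((R i a : ℂ) * (R i m : ℂ)) • G a m = ∑ a, G a a := by
  have h1 : ∀ a m, ∑ i, (R i a : ℂ) * (R i m : ℂ) = if a = m then 1 else 0 := by
    intro a m
    have h2 := congrFun (congrFun hR a) m
    rw [Matrix.mul_apply] at h2
    simp only [Matrix.transpose_apply, Matrix.one_apply] at h2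
    have h3 := congrArg (fun r : ℝ => (r : ℂ)) h2
    push_cast at h3
    rw [h3]
    split_ifs <;> simp
  calc ∑ i, ∑ a, ∑ m, ((R i a : ℂ) * (R i m : ℂ)) • G a m
      = ∑ a, ∑ m, ∑ i, ((R i a : ℂ) * (R i m : ℂ)) • G a m := by
        rw [Finset.sum_comm]
        exact Finset.sum_congr rfl fun a _ => Finset.sum_comm
    _ = ∑ a, ∑ m, (if a = m then (1 : ℂ) else 0) • G a m := by
        refine Finset.sum_congr rfl fun a _ => Finset.sum_congr rfl fun m _ => ?_
        rw [← Finset.sum_smul, h1]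
    _ = ∑ a, G a a := by
        refine Finset.sum_congr rfl fun a _ => ?_
        simp

section tr

variable {R : Matrix (Fin 3) (Fin 3) ℝ} {h : V} {Φ : Matrix ι ι ℂ →ₗ[ℂ] Matrix ι ι ℂ}
  (hu : Sol ι T u P)

include hu

theorem diff_u {t : ℝ} (ht : t ∈ Ico 0 T) (k : Fin 3) (x : V) (p q : ι) :
    DifferentiableAt ℝ (fun y => u t y k p q) x := (hu.cp ht k p q).diff x

theorem diff_uL {t : ℝ} (ht : t ∈ Ico 0 T) (k : Fin 3) (x : V) (p q : ι) :
    DifferentiableAt ℝ (fun y => Φ (u t y k) p q) x := by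
  have e : (fun y => Φ (u t y k) p q)
      = fun y => ∑ r, ∑ s, Φ (Matrix.single r s 1) p q * u t y k r s := by
    funext y; exact Phi_apply Φ _ p q
  rw [e]
  exact DifferentiableAt.fun_sum fun r _ => DifferentiableAt.fun_sum fun s _ =>
    (diff_u hu ht k x r s).const_mul _

theorem pd_trU {t : ℝ} (ht : t ∈ Ico 0 T) (i j : Fin 3) (x : V) :
    pdM i (fun y => trU R h Φ u t y j) x
      = ∑ k, ∑ m, ((R j k : ℂ) * (R i m : ℂ)) • Φ (pdM m (fun y => u t y k) (Lm R h x)) := by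
  ext p q
  have e : (fun y => trU R h Φ u t y j p q)
      = fun y => ∑ k, (R j k : ℂ) * Φ (u t (Lm R h y) k) p q := by
    funext y; exact trU_apply R h Φ u t y j p q
  have d0 : ∀ k : Fin 3, DifferentiableAt ℝ (fun y => Φ (u t y k) p q) (Lm R h x) :=
    fun k => diff_uL hu ht k _ p q
  have d1 : ∀ k : Fin 3, DifferentiableAt ℝ (fun y => Φ (u t (Lm R h y) k) p q) x := fun k =>
    (d0 k).comp x (hasFDerivAt_Lm R h x).differentiableAt
  show pd i (fun y => trU R h Φ u t y j p q) x = _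
  rw [e, pd_sum' fun k _ => (d1 k).const_mul _, Matrix.sum_apply]
  refine Finset.sum_congr rfl fun k _ => ?_
  rw [pd_const_mul' (d1 k), pd_comp_Lm R h x (f := fun y => Φ (u t y k) p q) (d0 k), Finset.mul_sum,
    Matrix.sum_apply]
  refine Finset.sum_congr rfl fun m _ => ?_
  rw [pd_Phi Φ (fun r s => diff_u hu ht k _ r s), Matrix.smul_apply, smul_eq_mul, mul_assoc]

theorem div_trU (hR : Rᵀ * R = 1) {t : ℝ} (ht : t ∈ Ico 0 T) (x : V) (p q : ι) :
    ∑ j, pd j (fun y => trU R h Φ u t y j p q) x = 0 := by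
  have h1 : ∀ j, pd j (fun y => trU R h Φ u t y j p q) x
      = (∑ k, ∑ m, ((R j k : ℂ) * (R j m : ℂ)) • Φ (pdM m (fun y => u t y k) (Lm R h x))) p q := by
    intro j
    rw [← pd_trU hu ht j j x]
    rfl
  simp_rw [h1]
  rw [← Matrix.sum_apply, orth_sum hR (fun k m => Φ (pdM m (fun y => u t y k) (Lm R h x))),
    ← map_sum]
  have h2 : ∑ k, pdM k (fun y => u t y k) (Lm R h x) = 0 := by
    ext r s
    rw [Matrix.sum_apply]
    exact hu.divfree t ht (Lm R h x) r s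
  rw [h2, map_zero]
  rfl

theorem dt_trU {t : ℝ} (ht : t ∈ Ioo 0 T) (x : V) (j : Fin 3) (p q : ι) :
    deriv (fun s => trU R h Φ u s x j p q) t
      = ∑ k, (R j k : ℂ) * Φ (Matrix.of fun r s => deriv (fun τ => u τ (Lm R h x) k r s) t) p q := by
  have e : (fun s => trU R h Φ u s x j p q) = fun s => ∑ k, (R j k : ℂ)
      * ∑ r, ∑ s', Φ (Matrix.single r s' 1) p q * u s (Lm R h x) k r s' := by
    funext s
    rw [trU_apply]
    exact Finset.sum_congr rfl fun k _ => by rw [Phi_apply]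
  have h1 : HasDerivAt (fun s => ∑ k, (R j k : ℂ)
      * ∑ r, ∑ s', Φ (Matrix.single r s' 1) p q * u s (Lm R h x) k r s')
      (∑ k, (R j k : ℂ) * ∑ r, ∑ s', Φ (Matrix.single r s' 1) p q
        * deriv (fun τ => u τ (Lm R h x) k r s') t) t :=
    HasDerivAt.fun_sum fun k _ => (HasDerivAt.fun_sum fun r _ => HasDerivAt.fun_sum fun s' _ =>
      (slice_dt (f := fun t y => u t y k r s') (hu.c1_u k r s') ht (Lm R h x)).const_mul _).const_mul _
  rw [e, h1.deriv]
  refine Finset.sum_congr rfl fun k _ => ?_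
  rw [Phi_apply Φ (Matrix.of fun r s => deriv (fun τ => u τ (Lm R h x) k r s) t)]
  rfl

theorem adv_trU (hR : Rᵀ * R = 1) (hJ : ∀ A B, Φ (A * B + B * A) = Φ A * Φ B + Φ B * Φ A)
    {t : ℝ} (ht : t ∈ Ico 0 T) (x : V) (j : Fin 3) :
    adv (trU R h Φ u t x) (fun i => pdM i (fun y => trU R h Φ u t y j) x)
      = ∑ k, (R j k : ℂ) • Φ (adv (u t (Lm R h x)) (fun i => pdM i (fun y => u t y k) (Lm R h x))) := by
  unfold adv
  set G : Fin 3 → Fin 3 → Matrix ι ι ℂ := fun m k => Φ (pdM m (fun y => u t y k) (Lm R h x)) with hG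
  set U : Fin 3 → Matrix ι ι ℂ := fun a => Φ (u t (Lm R h x) a) with hU
  have h1 : ∀ i, trU R h Φ u t x i * pdM i (fun y => trU R h Φ u t y j) x
      + pdM i (fun y => trU R h Φ u t y j) x * trU R h Φ u t x i
      = ∑ a, ∑ m, ((R i a : ℂ) * (R i m : ℂ)) • ∑ k, (R j k : ℂ) • (U a * G m k + G m k * U a) := by
    intro i
    rw [pd_trU hu ht i j x]
    unfold trU
    have e1 : ∑ k, ∑ m, ((R j k : ℂ) * (R i m : ℂ)) • Φ (pdM m (fun y => u t y k) (Lm R h x))
        = ∑ m, (R i m : ℂ) • ∑ k, (R j k : ℂ) • G m k := by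
      rw [Finset.sum_comm]
      refine Finset.sum_congr rfl fun m _ => ?_
      rw [Finset.smul_sum]
      refine Finset.sum_congr rfl fun k _ => ?_
      rw [smul_smul, mul_comm]
    have e2 : ∑ k, (R i k : ℂ) • Φ (u t (Lm R h x) k) = ∑ a, (R i a : ℂ) • U a := rfl
    rw [e1, e2, Finset.sum_mul_sum, Finset.sum_mul_sum]
    rw [Finset.sum_comm (f := fun m a => ((R i m : ℂ) • ∑ k, (R j k : ℂ) • G m k)
      * ((R i a : ℂ) • U a)), ← Finset.sum_add_distrib]
    refine Finset.sum_congr rfl fun a _ => ?_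
    rw [← Finset.sum_add_distrib]
    refine Finset.sum_congr rfl fun m _ => ?_
    rw [smul_mul_smul_comm, smul_mul_smul_comm, mul_comm (R i m : ℂ), ← smul_add]
    congr 1
    rw [Finset.mul_sum, Finset.sum_mul, ← Finset.sum_add_distrib]
    refine Finset.sum_congr rfl fun k _ => ?_
    rw [mul_smul_comm, smul_mul_assoc, smul_add]
  simp_rw [h1]
  rw [orth_sum hR (fun a m => ∑ k, (R j k : ℂ) • (U a * G m k + G m k * U a)), Finset.sum_comm,
    Finset.smul_sum]
  refine Finset.sum_congr rfl fun k _ => ?_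
  rw [← Finset.smul_sum, map_smul, map_sum, smul_comm]
  congr 2
  refine Finset.sum_congr rfl fun a _ => ?_
  rw [hJ]

theorem pd_trP {t : ℝ} (ht : t ∈ Ico 0 T) (j : Fin 3) (x : V) (p q : ι) :
    pd j (fun y => trP R h Φ P t y p q) x
      = ∑ k, (R j k : ℂ) * Φ (pdM k (P t) (Lm R h x)) p q := by
  have d0 : ∀ r s : ι, DifferentiableAt ℝ (fun y => P t y r s) (Lm R h x) :=
    fun r s => (hu.cpP ht r s).diff _
  have d1 : DifferentiableAt ℝ (fun y => Φ (P t y) p q) (Lm R h x) := by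
    have e : (fun y => Φ (P t y) p q)
        = fun y => ∑ r, ∑ s, Φ (Matrix.single r s 1) p q * P t y r s := by
      funext y; exact Phi_apply Φ _ p q
    rw [e]
    exact DifferentiableAt.fun_sum fun r _ => DifferentiableAt.fun_sum fun s _ =>
      (d0 r s).const_mul _
  show pd j (fun y => Φ (P t (Lm R h y)) p q) x = _
  rw [pd_comp_Lm R h x (f := fun y => Φ (P t y) p q) d1]
  refine Finset.sum_congr rfl fun k _ => ?_
  rw [pd_Phi Φ d0]

theorem Sol.trans (hR : Rᵀ * R = 1) (hJ : ∀ A B, Φ (A * B + B * A) = Φ A * Φ B + Φ B * Φ A)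
    (hH : ∀ A, A.IsHermitian → (Φ A).IsHermitian)
    (hpu : ∀ t ∈ Ico 0 T, PerB (trU R h Φ u t)) (hpP : ∀ t ∈ Ico 0 T, PerB (trP R h Φ P t)) :
    Sol ι T (trU R h Φ u) (trP R h Φ P) := by
  have hm : MapsTo (fun z : ℝ × V => ((z.1, Lm R h z.2) : ℝ × V)) (Ico 0 T ×ˢ univ)
      (Ico 0 T ×ˢ univ) := fun z hz => ⟨hz.1, mem_univ _⟩
  have hg : ContDiffOn ℝ 1 (fun z : ℝ × V => ((z.1, Lm R h z.2) : ℝ × V))
      (Ico 0 T ×ˢ univ) :=
    (contDiff_fst.prodMk ((contDiff_Lm R h).comp contDiff_snd)).contDiffOn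
  refine ⟨fun j p q => ?_, fun p q => ?_, hpu, hpP, fun t ht x j => ?_, fun t ht x p q =>
    div_trU hu hR ht x p q, fun t ht x j p q => ?_⟩
  · have e : (fun z : ℝ × V => trU R h Φ u z.1 z.2 j p q) = fun z => ∑ k, (R j k : ℂ)
        * ∑ r, ∑ s', Φ (Matrix.single r s' 1) p q * u z.1 (Lm R h z.2) k r s' := by
      funext z
      rw [trU_apply]
      exact Finset.sum_congr rfl fun k _ => by rw [Phi_apply]
    rw [e]
    refine ContDiffOn.sum fun k _ => contDiffOn_const.mul (ContDiffOn.sum fun r _ =>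
      ContDiffOn.sum fun s' _ => contDiffOn_const.mul ?_)
    exact (hu.c1_u k r s').comp hg hm
  · have e : (fun z : ℝ × V => trP R h Φ P z.1 z.2 p q) = fun z =>
        ∑ r, ∑ s', Φ (Matrix.single r s' 1) p q * P z.1 (Lm R h z.2) r s' := by
      funext z
      exact Phi_apply Φ _ p q
    rw [e]
    refine ContDiffOn.sum fun r _ => ContDiffOn.sum fun s' _ => contDiffOn_const.mul ?_
    exact (hu.c1_P r s').comp hg hm
  · unfold trU
    have h1 : ∀ k, ((R j k : ℂ) • Φ (u t (Lm R h x) k)).IsHermitian := by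
      intro k
      have h2 := hH _ (hu.herm t ht (Lm R h x) k)
      unfold Matrix.IsHermitian at h2 ⊢
      rw [Matrix.conjTranspose_smul, h2]
      congr 1
      simp
    unfold Matrix.IsHermitian
    rw [Matrix.conjTranspose_sum]
    exact Finset.sum_congr rfl fun k _ => h1 k
  · have hI : t ∈ Ico 0 T := ⟨ht.1.le, ht.2⟩
    rw [dt_trU hu ht, adv_trU hu hR hJ hI, pd_trP hu hI, Matrix.sum_apply]
    rw [← Finset.sum_add_distrib, ← Finset.sum_add_distrib]
    refine Finset.sum_eq_zero fun k _ => ?_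
    rw [Matrix.smul_apply, smul_eq_mul, ← mul_add, ← mul_add, ← Matrix.add_apply, ← Matrix.add_apply,
      ← map_add, ← map_add]
    have h1 : (Matrix.of fun r s => deriv (fun τ => u τ (Lm R h x) k r s) t)
        + adv (u t (Lm R h x)) (fun i => pdM i (fun y => u t y k) (Lm R h x))
        + pdM k (P t) (Lm R h x) = 0 := by
      ext r s
      exact hu.momentum t ht (Lm R h x) k r s
    rw [h1, map_zero, Matrix.zero_apply, mul_zero]

/-- The solution has the symmetries of the initial values. -/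
theorem Sol.sym (hR : Rᵀ * R = 1) (hJ : ∀ A B, Φ (A * B + B * A) = Φ A * Φ B + Φ B * Φ A)
    (hH : ∀ A, A.IsHermitian → (Φ A).IsHermitian)
    (hpu : ∀ t ∈ Ico 0 T, PerB (trU R h Φ u t)) (hpP : ∀ t ∈ Ico 0 T, PerB (trP R h Φ P t))
    (h0 : trU R h Φ u 0 = u 0) {t : ℝ} (ht : t ∈ Ico 0 T) (x : V) (j : Fin 3) :
    ∑ k, (R j k : ℂ) • Φ (u t (Lm R h x) k) = u t x j := by
  have h1 := uniq (Sol.trans hu hR hJ hH hpu hpP) hu h0 ht
  exact congrFun (congrFun h1 x) j

end tr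

end Pool.Agent.N978.ME
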