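import Pool.Agent.N978.ME.Symm

/-!
The particular symmetries used for the reduction.
-/

open MeasureTheory Set Filter Topology Matrix
open scoped ContDiff

namespace Pool.Agent.N978.ME

open H459R3.NS

theorem PerB.sub {F : Type*} {f : V → F} (hf : PerB f) (i : Fin 3) (x : V) :
    f (x - BL (Pi.single i 1)) = f x := by
  have := hf i (x - BL (Pi.single i 1))
  rw [sub_add_cancel] at this
  exact this.symm

section diag

variable {ι : Type*} [Fintype ι] [DecidableEq ι] {T : ℝ} {u : ℝ → V → Fin 3 → Matrix ι ι ℂ}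
    {P : ℝ → V → Matrix ι ι ℂ}

/-- conjugation by a diagonal matrix -/
noncomputable def phiD (d : ι → ℂ) : Matrix ι ι ℂ →ₗ[ℂ] Matrix ι ι ℂ where
  toFun A := Matrix.of fun p q => d p * (starRingEnd ℂ) (d q) * A p q
  map_add' A B := by
    ext p q
    simp only [Matrix.of_apply, Matrix.add_apply]
    ring
  map_smul' r A := by
    ext p q
    simp only [Matrix.of_apply, Matrix.smul_apply, smul_eq_mul, RingHom.id_apply]
    ring

theorem phiD_apply (d : ι → ℂ) (A : Matrix ι ι ℂ) (p q : ι) :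
    phiD d A p q = d p * (starRingEnd ℂ) (d q) * A p q := rfl

theorem phiD_mul {d : ι → ℂ} (hd : ∀ p, d p * (starRingEnd ℂ) (d p) = 1) (A B : Matrix ι ι ℂ) :
    phiD d (A * B) = phiD d A * phiD d B := by
  ext p q
  rw [phiD_apply, Matrix.mul_apply, Matrix.mul_apply, Finset.mul_sum]
  refine Finset.sum_congr rfl fun l _ => ?_
  rw [phiD_apply, phiD_apply]
  linear_combination (-(d p * (starRingEnd ℂ) (d q) * (A p l * B l q))) * hd l

theorem phiD_jordan {d : ι → ℂ} (hd : ∀ p, d p * (starRingEnd ℂ) (d p) = 1) (A B : Matrix ι ι ℂ) :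
    phiD d (A * B + B * A) = phiD d A * phiD d B + phiD d B * phiD d A := by
  rw [map_add, phiD_mul hd, phiD_mul hd]

theorem phiD_herm {d : ι → ℂ} {A : Matrix ι ι ℂ} (hA : A.IsHermitian) :
    (phiD d A).IsHermitian := by
  ext p q
  rw [Matrix.conjTranspose_apply, phiD_apply, phiD_apply]
  have h1 := hA.apply p q
  rw [star_mul', star_mul', h1]
  simp only [RCLike.star_def, Complex.conj_conj]
  ring

theorem Lm_one (h x : V) : Lm 1 h x = x + h := by
  unfold Lm
  rw [Matrix.transpose_one, Matrix.one_mulVec]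

theorem trU_one (h : V) (Φ : Matrix ι ι ℂ →ₗ[ℂ] Matrix ι ι ℂ)
    (u : ℝ → V → Fin 3 → Matrix ι ι ℂ) (t : ℝ) (x : V) (j : Fin 3) :
    trU 1 h Φ u t x j = Φ (u t (x + h) j) := by
  unfold trU
  rw [Lm_one, Finset.sum_eq_single j]
  · simp
  · intro b _ hb
    rw [Matrix.one_apply_ne hb.symm]
    simp
  · intro hb; exact absurd (Finset.mem_univ j) hb

theorem sym_diag (hu : Sol ι T u P) {d : ι → ℂ} (hd : ∀ p, d p * (starRingEnd ℂ) (d p) = 1) {h : V}
    (h0 : ∀ x j p q, d p * (starRingEnd ℂ) (d q) * u 0 (x + h) j p q = u 0 x j p q)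
    {t : ℝ} (ht : t ∈ Ico 0 T) (x : V) (j : Fin 3) (p q : ι) :
    d p * (starRingEnd ℂ) (d q) * u t (x + h) j p q = u t x j p q := by
  have h1 : trU 1 h (phiD d) u 0 = u 0 := by
    funext x j
    ext p q
    rw [trU_one, phiD_apply, h0]
  have h2 := uniq (Sol.trans (R := 1) (h := h) hu (by rw [Matrix.transpose_one, one_mul])
    (phiD_jordan hd) (fun A hA => phiD_herm hA) ?_ ?_) hu h1 ht
  · have h3 := congrFun (congrFun (congrFun (congrFun h2 x) j) p) q
    rw [trU_one, phiD_apply] at h3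
    exact h3
  · intro t ht i x
    funext j
    rw [trU_one, trU_one, add_right_comm, hu.per_u t ht i (x + h)]
  · intro t ht i x
    unfold trP
    rw [Lm_one, Lm_one, add_right_comm, hu.per_P t ht i (x + h)]

/-- the transposition -/
noncomputable def phiT : Matrix ι ι ℂ →ₗ[ℂ] Matrix ι ι ℂ where
  toFun A := Aᵀ
  map_add' A B := Matrix.transpose_add A B
  map_smul' r A := Matrix.transpose_smul r A

theorem phiT_apply (A : Matrix ι ι ℂ) (p q : ι) : phiT A p q = A q p := rfl

theorem phiT_jordan (A B : Matrix ι ι ℂ) :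
    phiT (A * B + B * A) = phiT A * phiT B + phiT B * phiT A := by
  show (A * B + B * A)ᵀ = Aᵀ * Bᵀ + Bᵀ * Aᵀ
  rw [Matrix.transpose_add, Matrix.transpose_mul, Matrix.transpose_mul, add_comm]

theorem phiT_herm {A : Matrix ι ι ℂ} (hA : A.IsHermitian) : (phiT A).IsHermitian :=
  hA.transpose

theorem Lm_neg (x : V) : Lm (-1) 0 x = -x := by
  unfold Lm
  rw [Matrix.transpose_neg, Matrix.transpose_one, Matrix.neg_mulVec, Matrix.one_mulVec, add_zero]

theorem trU_neg (u : ℝ → V → Fin 3 → Matrix ι ι ℂ) (t : ℝ) (x : V) (j : Fin 3) (p q : ι) :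
    trU (-1) 0 phiT u t x j p q = - u t (-x) j q p := by
  rw [trU_apply, Lm_neg, Finset.sum_eq_single j]
  · rw [phiT_apply]; simp
  · intro b _ hb
    rw [Matrix.neg_apply, Matrix.one_apply_ne hb.symm]
    simp
  · intro hb; exact absurd (Finset.mem_univ j) hb

theorem sym_neg (hu : Sol ι T u P)
    (h0 : ∀ x j p q, - u 0 (-x) j q p = u 0 x j p q)
    {t : ℝ} (ht : t ∈ Ico 0 T) (x : V) (j : Fin 3) (p q : ι) :
    - u t (-x) j q p = u t x j p q := by
  have h1 : trU (-1) 0 phiT u 0 = u 0 := by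
    funext x j
    ext p q
    rw [trU_neg, h0]
  have h2 := uniq (Sol.trans (R := -1) (h := 0) hu (by
      rw [Matrix.transpose_neg, Matrix.transpose_one, neg_mul_neg, one_mul])
    phiT_jordan (fun A hA => phiT_herm hA) ?_ ?_) hu h1 ht
  · have h3 := congrFun (congrFun (congrFun (congrFun h2 x) j) p) q
    rw [trU_neg] at h3
    exact h3
  · intro t ht i x
    funext j
    ext p q
    rw [trU_neg, trU_neg, neg_add, ← sub_eq_add_neg, PerB.sub (hu.per_u t ht) i (-x)]
  · intro t ht i x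
    unfold trP
    rw [Lm_neg, Lm_neg, neg_add, ← sub_eq_add_neg, PerB.sub (hu.per_P t ht) i (-x)]

/-- the half turn about the axis `(1, 1, 1)` -/
noncomputable def RS : Matrix (Fin 3) (Fin 3) ℝ := Matrix.of fun j k => 2 / 3 - if j = k then 1 else 0

theorem RS_transpose : RSᵀ = RS := by
  ext j k
  simp only [RS, Matrix.transpose_apply, Matrix.of_apply, eq_comm]

theorem RS_orth : RSᵀ * RS = 1 := by
  rw [RS_transpose]
  ext j k
  rw [Matrix.mul_apply]
  simp only [RS, Matrix.of_apply, Fin.sum_univ_three]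
  fin_cases j <;> fin_cases k <;> simp <;> norm_num

/-- the half turn about the axis `(1, 1, 1)` -/
noncomputable def ST (x : V) : V := fun k => 2 / 3 * (x 0 + x 1 + x 2) - x k

theorem Lm_RS (x : V) : Lm RS 0 x = ST x := by
  unfold Lm
  rw [RS_transpose, add_zero]
  funext k
  simp only [RS, ST, Matrix.mulVec, dotProduct, Matrix.of_apply, Fin.sum_univ_three]
  fin_cases k <;> simp <;> ring

theorem ST_per {F : Type*} {f : V → F} (hf : PerB f) (i : Fin 3) (x : V) :
    f (ST (x + BL (Pi.single i 1))) = f (ST x) := by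
  fin_cases i
  · have e : ST (x + BL (Pi.single 0 1)) = ST x - BL (Pi.single 0 1) := by
      rw [BL_apply]
      funext k
      fin_cases k <;> simp [ST] <;> ring
    show f (ST (x + BL (Pi.single 0 1))) = _
    rw [e, PerB.sub hf]
  · have e : ST (x + BL (Pi.single 1 1)) = ST x - BL (Pi.single 1 1) := by
      rw [BL_apply]
      funext k
      fin_cases k <;> simp [ST] <;> ring
    show f (ST (x + BL (Pi.single 1 1))) = _
    rw [e, PerB.sub hf]
  · have e : ST (x + BL (Pi.single 2 1)) = ST x + BL (Pi.single 2 1) := by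
      rw [BL_apply]
      funext k
      fin_cases k <;> simp [ST] <;> ring
    show f (ST (x + BL (Pi.single 2 1))) = _
    rw [e, hf]

theorem sym_S (hu : Sol ι T u P)
    (h0 : ∀ x j p q, ∑ k, (RS j k : ℂ) * u 0 (ST x) k q p = u 0 x j p q)
    {t : ℝ} (ht : t ∈ Ico 0 T) (x : V) (j : Fin 3) (p q : ι) :
    ∑ k, (RS j k : ℂ) * u t (ST x) k q p = u t x j p q := by
  have htr : ∀ t x j p q, trU RS 0 phiT u t x j p q = ∑ k, (RS j k : ℂ) * u t (ST x) k q p := by
    intro t x j p q
    rw [trU_apply, Lm_RS]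
    rfl
  have h1 : trU RS 0 phiT u 0 = u 0 := by
    funext x j
    ext p q
    rw [htr, h0]
  have h2 := uniq (Sol.trans (R := RS) (h := 0) hu RS_orth
    phiT_jordan (fun A hA => phiT_herm hA) ?_ ?_) hu h1 ht
  · have h3 := congrFun (congrFun (congrFun (congrFun h2 x) j) p) q
    rw [htr] at h3
    exact h3
  · intro t ht i x
    funext j
    ext p q
    rw [htr, htr, ST_per (hu.per_u t ht)]
  · intro t ht i x
    unfold trP
    rw [Lm_RS, Lm_RS, ST_per (hu.per_P t ht)]

end diag

section perm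

variable {T : ℝ} {u : ℝ → V → Fin 3 → Matrix (Fin 3) (Fin 3) ℂ}
    {P : ℝ → V → Matrix (Fin 3) (Fin 3) ℂ}

/-- a permutation of the indices -/
noncomputable def phiP (σ : Equiv.Perm (Fin 3)) :
    Matrix (Fin 3) (Fin 3) ℂ →ₗ[ℂ] Matrix (Fin 3) (Fin 3) ℂ where
  toFun A := A.submatrix σ σ
  map_add' A B := rfl
  map_smul' r A := rfl

theorem phiP_apply (σ : Equiv.Perm (Fin 3)) (A : Matrix (Fin 3) (Fin 3) ℂ) (p q : Fin 3) :
    phiP σ A p q = A (σ p) (σ q) := rfl

theorem phiP_jordan (σ : Equiv.Perm (Fin 3)) (A B : Matrix (Fin 3) (Fin 3) ℂ) :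
    phiP σ (A * B + B * A) = phiP σ A * phiP σ B + phiP σ B * phiP σ A := by
  show (A * B + B * A).submatrix σ σ = A.submatrix σ σ * B.submatrix σ σ
    + B.submatrix σ σ * A.submatrix σ σ
  rw [Matrix.submatrix_mul_equiv, Matrix.submatrix_mul_equiv]
  rfl

theorem phiP_herm (σ : Equiv.Perm (Fin 3)) {A : Matrix (Fin 3) (Fin 3) ℂ} (hA : A.IsHermitian) :
    (phiP σ A).IsHermitian := hA.submatrix σ

/-- the permutation matrix -/
noncomputable def RP (σ : Equiv.Perm (Fin 3)) : Matrix (Fin 3) (Fin 3) ℝ :=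
  Matrix.of fun j k => if k = σ j then 1 else 0

theorem RP_orth (σ : Equiv.Perm (Fin 3)) : (RP σ)ᵀ * RP σ = 1 := by
  ext j k
  rw [Matrix.mul_apply]
  simp only [RP, Matrix.transpose_apply, Matrix.of_apply]
  rw [Finset.sum_eq_single (σ.symm j)]
  · simp [Matrix.one_apply, eq_comm]
  · intro b _ hb
    have : j ≠ σ b := by
      rintro rfl
      exact hb (by simp)
    simp [this]
  · intro hb; exact absurd (Finset.mem_univ _) hb

theorem Lm_RP (σ : Equiv.Perm (Fin 3)) (x : V) : Lm (RP σ) 0 x = fun k => x (σ.symm k) := by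
  unfold Lm
  rw [add_zero]
  funext k
  simp only [RP, Matrix.mulVec, dotProduct, Matrix.transpose_apply, Matrix.of_apply]
  rw [Finset.sum_eq_single (σ.symm k)]
  · simp
  · intro b _ hb
    have : k ≠ σ b := by
      rintro rfl
      exact hb (by simp)
    simp [this]
  · intro hb; exact absurd (Finset.mem_univ _) hb

theorem perm_per {F : Type*} {f : V → F} (hf : Per2 f) (σ : Equiv.Perm (Fin 3)) :
    Per2 (fun x : V => f (fun k => x (σ.symm k))) := by
  intro i x
  have e : (fun k => (x + Pi.single i (2 * Real.pi) : V) (σ.symm k))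
      = (fun k => x (σ.symm k)) + Pi.single (σ i) (2 * Real.pi) := by
    funext k
    simp only [Pi.add_apply, Pi.single_apply]
    congr 1
    by_cases hk : σ.symm k = i
    · rw [if_pos hk, if_pos (by rw [← hk]; simp)]
    · rw [if_neg hk, if_neg (fun h => hk (by rw [h]; simp))]
  show f (fun k => (x + Pi.single i (2 * Real.pi) : V) (σ.symm k)) = _
  rw [e, hf]

theorem sym_perm (hu : Sol (Fin 3) T u P) (hpu : ∀ t ∈ Ico 0 T, Per2 (u t))
    (hpP : ∀ t ∈ Ico 0 T, Per2 (P t)) (σ : Equiv.Perm (Fin 3))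
    (h0 : ∀ x j p q, u 0 (fun k => x (σ.symm k)) (σ j) (σ p) (σ q) = u 0 x j p q)
    {t : ℝ} (ht : t ∈ Ico 0 T) (x : V) (j p q : Fin 3) :
    u t (fun k => x (σ.symm k)) (σ j) (σ p) (σ q) = u t x j p q := by
  have htr : ∀ t x j p q, trU (RP σ) 0 (phiP σ) u t x j p q
      = u t (fun k => x (σ.symm k)) (σ j) (σ p) (σ q) := by
    intro t x j p q
    rw [trU_apply, Lm_RP, Finset.sum_eq_single (σ j)]
    · simp [RP, phiP_apply]
    · intro b _ hb
      simp [RP, hb]
    · intro hb; exact absurd (Finset.mem_univ _) hb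
  have h1 : trU (RP σ) 0 (phiP σ) u 0 = u 0 := by
    funext x j
    ext p q
    rw [htr, h0]
  have h2 := uniq (Sol.trans (R := RP σ) (h := 0) hu (RP_orth σ)
    (phiP_jordan σ) (fun A hA => phiP_herm σ hA) ?_ ?_) hu h1 ht
  · have h3 := congrFun (congrFun (congrFun (congrFun h2 x) j) p) q
    rw [htr] at h3
    exact h3
  · intro t ht
    refine perB_of_per2 fun i x => ?_
    funext j
    ext p q
    rw [htr, htr]
    have := perm_per (hpu t ht) σ i x
    simp only at this
    rw [this]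
  · intro t ht
    refine perB_of_per2 fun i x => ?_
    unfold trP
    rw [Lm_RP, Lm_RP]
    have := perm_per (hpP t ht) σ i x
    simp only at this
    rw [this]

end perm

end Pool.Agent.N978.ME
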