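import Pool.Agent.N978.ME.Sol

/-!
Uniqueness of classical solutions: the energy of the difference.
-/

open MeasureTheory Set Filter Topology Matrix
open scoped ContDiff

namespace Pool.Agent.N978.ME

open H459R3.NS

variable {ι : Type*} [Fintype ι] {T : ℝ} {u v : ℝ → V → Fin 3 → Matrix ι ι ℂ}
    {P Q : ℝ → V → Matrix ι ι ℂ}

theorem sum_cyc (b : ι → ι → ι → ℂ) : ∑ p, ∑ q, ∑ l, b p q l = ∑ p, ∑ q, ∑ l, b q l p := by
  calc ∑ p, ∑ q, ∑ l, b p q l = ∑ p, ∑ l, ∑ q, b p q l := Finset.sum_congr rfl fun p _ =>
        Finset.sum_comm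
    _ = ∑ l, ∑ p, ∑ q, b p q l := Finset.sum_comm
    _ = ∑ p, ∑ q, ∑ l, b q l p := rfl

section fixed

variable (hu : Sol ι T u P) (hv : Sol ι T v Q)

include hu hv

theorem cpW {t : ℝ} (ht : t ∈ Ico 0 T) (j : Fin 3) (p q : ι) :
    CP (fun x => u t x j p q - v t x j p q) := (hu.cp ht j p q).sub (hv.cp ht j p q)

theorem divW {t : ℝ} (ht : t ∈ Ico 0 T) (p q : ι) (x : V) :
    ∑ j, pd j (fun x => u t x j p q - v t x j p q) x = 0 := by
  have : ∀ j, pd j (fun x => u t x j p q - v t x j p q) x
      = pd j (fun x => u t x j p q) x - pd j (fun x => v t x j p q) x := fun j =>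
    pd_sub' ((hu.cp ht j p q).diff x) ((hv.cp ht j p q).diff x) j
  simp_rw [this]
  rw [Finset.sum_sub_distrib, hu.divfree t ht x p q, hv.divfree t ht x p q, sub_zero]

theorem dW_eq {t : ℝ} (ht : t ∈ Ioo 0 T) (j : Fin 3) (p q : ι) (x : V) :
    deriv (fun s => u s x j p q) t - deriv (fun s => v s x j p q) t
      = -((1 / 2 : ℂ) * ∑ i, ∑ l, (u t x i p l * pd i (fun x => u t x j l q - v t x j l q) x
          + pd i (fun x => u t x j p l - v t x j p l) x * u t x i l q
          + ((u t x i p l - v t x i p l) * pd i (fun y => v t y j l q) x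
          + pd i (fun y => v t y j p l) x * (u t x i l q - v t x i l q))))
        - pd j (fun y => P t y p q - Q t y p q) x := by
  have hI : t ∈ Ico 0 T := ⟨ht.1.le, ht.2⟩
  have h1 := hu.momentum t ht x j p q
  have h2 := hv.momentum t ht x j p q
  rw [adv_apply] at h1 h2
  have e : ∀ (i : Fin 3) (l : ι), u t x i p l * pd i (fun x => u t x j l q - v t x j l q) x
          + pd i (fun x => u t x j p l - v t x j p l) x * u t x i l q
          + ((u t x i p l - v t x i p l) * pd i (fun y => v t y j l q) x
          + pd i (fun y => v t y j p l) x * (u t x i l q - v t x i l q))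
      = (u t x i p l * pdM i (fun y => u t y j) x l q + pdM i (fun y => u t y j) x p l * u t x i l q)
        - (v t x i p l * pdM i (fun y => v t y j) x l q
          + pdM i (fun y => v t y j) x p l * v t x i l q) := by
    intro i l
    rw [pd_sub' ((hu.cp hI j l q).diff x) ((hv.cp hI j l q).diff x),
      pd_sub' ((hu.cp hI j p l).diff x) ((hv.cp hI j p l).diff x)]
    simp only [pdM, Matrix.of_apply]
    ring
  simp_rw [e, Finset.sum_sub_distrib]
  rw [pd_sub' ((hu.cpP hI p q).diff x) ((hv.cpP hI p q).diff x)]
  linear_combination h1 - h2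

theorem av_W_dW {t : ℝ} (ht : t ∈ Ioo 0 T) :
    av (fun x => ∑ j, ∑ p, ∑ q, (u t x j q p - v t x j q p)
        * (deriv (fun s => u s x j p q) t - deriv (fun s => v s x j p q) t))
      = -((1 / 2 : ℂ) * ∑ j, ∑ p, ∑ q, ∑ i, ∑ l, av (fun x => (u t x j q p - v t x j q p)
          * ((u t x i p l - v t x i p l) * pd i (fun y => v t y j l q) x
            + pd i (fun y => v t y j p l) x * (u t x i l q - v t x i l q)))) := by
  have hI : t ∈ Ico 0 T := ⟨ht.1.le, ht.2⟩
  have hW := fun j p q => cpW hu hv hI j p q
  have e : ∀ x, ∑ j, ∑ p, ∑ q, (u t x j q p - v t x j q p)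
        * (deriv (fun s => u s x j p q) t - deriv (fun s => v s x j p q) t)
      = ∑ j, ∑ p, ∑ q, (-(1 / 2 : ℂ) * ∑ i, ∑ l,
          (u t x i p l * ((u t x j q p - v t x j q p) * pd i (fun x => u t x j l q - v t x j l q) x)
          + u t x i l q * ((u t x j q p - v t x j q p) * pd i (fun x => u t x j p l - v t x j p l) x)
          + (u t x j q p - v t x j q p)
            * ((u t x i p l - v t x i p l) * pd i (fun y => v t y j l q) x
            + pd i (fun y => v t y j p l) x * (u t x i l q - v t x i l q)))
        - (u t x j q p - v t x j q p) * pd j (fun y => P t y p q - Q t y p q) x) := by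
    intro x
    refine Finset.sum_congr rfl fun j _ => Finset.sum_congr rfl fun p _ =>
      Finset.sum_congr rfl fun q _ => ?_
    rw [dW_eq hu hv ht, mul_sub]
    congr 1
    rw [mul_neg, ← neg_mul, neg_mul_comm, ← neg_mul, mul_left_comm, Finset.mul_sum]
    congr 1
    rw [Finset.sum_congr rfl]
    intro i _
    rw [Finset.mul_sum]
    refine Finset.sum_congr rfl fun l _ => ?_
    ring
  -- continuity of all the terms
  have cW := fun j p q => (hW j p q).cont
  have cdW := fun i j p q => (hW j p q).pd_cont i
  have cU := fun j p q => (hu.cp hI j p q).cont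
  have cdV := fun i j p q => (hv.cp hI j p q).pd_cont i
  have cA : ∀ (j : Fin 3) (p q : ι) (i : Fin 3) (l : ι), Continuous (fun x =>
      u t x i p l * ((u t x j q p - v t x j q p) * pd i (fun x => u t x j l q - v t x j l q) x)) :=
    fun j p q i l => cmul (cU i p l) (cmul (cW j q p) (cdW i j l q))
  have cB : ∀ (j : Fin 3) (p q : ι) (i : Fin 3) (l : ι), Continuous (fun x =>
      u t x i l q * ((u t x j q p - v t x j q p) * pd i (fun x => u t x j p l - v t x j p l) x)) :=
    fun j p q i l => cmul (cU i l q) (cmul (cW j q p) (cdW i j p l))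
  have cR : ∀ (j : Fin 3) (p q : ι) (i : Fin 3) (l : ι), Continuous (fun x =>
      (u t x j q p - v t x j q p)
            * ((u t x i p l - v t x i p l) * pd i (fun y => v t y j l q) x
            + pd i (fun y => v t y j p l) x * (u t x i l q - v t x i l q))) :=
    fun j p q i l => cmul (cW j q p) (cadd (cmul (cW i p l) (cdV i j l q))
      (cmul (cdV i j p l) (cW i l q)))
  have cP : ∀ (j : Fin 3) (p q : ι), Continuous (fun x => (u t x j q p - v t x j q p)
      * pd j (fun y => P t y p q - Q t y p q) x) :=
    fun j p q => cmul (cW j q p) (((hu.cpP hI p q).sub (hv.cpP hI p q)).pd_cont j)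
  have cABR : ∀ (j : Fin 3) (p q : ι) (i : Fin 3) (l : ι), Continuous (fun x =>
      u t x i p l * ((u t x j q p - v t x j q p) * pd i (fun x => u t x j l q - v t x j l q) x)
      + u t x i l q * ((u t x j q p - v t x j q p) * pd i (fun x => u t x j p l - v t x j p l) x)
      + (u t x j q p - v t x j q p)
            * ((u t x i p l - v t x i p l) * pd i (fun y => v t y j l q) x
            + pd i (fun y => v t y j p l) x * (u t x i l q - v t x i l q))) :=
    fun j p q i l => cadd (cadd (cA j p q i l) (cB j p q i l)) (cR j p q i l)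
  have cS : ∀ (j : Fin 3) (p q : ι), Continuous (fun x => ∑ i, ∑ l,
      (u t x i p l * ((u t x j q p - v t x j q p) * pd i (fun x => u t x j l q - v t x j l q) x)
      + u t x i l q * ((u t x j q p - v t x j q p) * pd i (fun x => u t x j p l - v t x j p l) x)
      + (u t x j q p - v t x j q p)
            * ((u t x i p l - v t x i p l) * pd i (fun y => v t y j l q) x
            + pd i (fun y => v t y j p l) x * (u t x i l q - v t x i l q)))) :=
    fun j p q => csum fun i _ => csum fun l _ => cABR j p q i l
  have cS' : ∀ (j : Fin 3) (p q : ι), Continuous (fun x => (-(1 / 2 : ℂ)) * ∑ i, ∑ l,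
      (u t x i p l * ((u t x j q p - v t x j q p) * pd i (fun x => u t x j l q - v t x j l q) x)
      + u t x i l q * ((u t x j q p - v t x j q p) * pd i (fun x => u t x j p l - v t x j p l) x)
      + (u t x j q p - v t x j q p)
            * ((u t x i p l - v t x i p l) * pd i (fun y => v t y j l q) x
            + pd i (fun y => v t y j p l) x * (u t x i l q - v t x i l q)))) :=
    fun j p q => cmul continuous_const (cS j p q)
  simp_rw [e]
  rw [av_sum fun j _ => csum fun p _ => csum fun q _ => csub (cS' j p q) (cP j p q)]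
  have e2 : ∀ j : Fin 3, av (fun x => ∑ p, ∑ q, (-(1 / 2 : ℂ) * ∑ i, ∑ l,
          (u t x i p l * ((u t x j q p - v t x j q p) * pd i (fun x => u t x j l q - v t x j l q) x)
          + u t x i l q * ((u t x j q p - v t x j q p) * pd i (fun x => u t x j p l - v t x j p l) x)
          + (u t x j q p - v t x j q p)
            * ((u t x i p l - v t x i p l) * pd i (fun y => v t y j l q) x
            + pd i (fun y => v t y j p l) x * (u t x i l q - v t x i l q)))
        - (u t x j q p - v t x j q p) * pd j (fun y => P t y p q - Q t y p q) x))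
      = ∑ p, ∑ q, (-(1 / 2 : ℂ) * ∑ i, ∑ l,
          (av (fun x => u t x i p l * ((u t x j q p - v t x j q p)
              * pd i (fun x => u t x j l q - v t x j l q) x))
          + av (fun x => u t x i l q * ((u t x j q p - v t x j q p)
              * pd i (fun x => u t x j p l - v t x j p l) x))
          + av (fun x => (u t x j q p - v t x j q p)
            * ((u t x i p l - v t x i p l) * pd i (fun y => v t y j l q) x
            + pd i (fun y => v t y j p l) x * (u t x i l q - v t x i l q))))
        - av (fun x => (u t x j q p - v t x j q p)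
            * pd j (fun y => P t y p q - Q t y p q) x)) := by
    intro j
    rw [av_sum fun p _ => csum fun q _ => csub (cS' j p q) (cP j p q)]
    refine Finset.sum_congr rfl fun p _ => ?_
    rw [av_sum fun q _ => csub (cS' j p q) (cP j p q)]
    refine Finset.sum_congr rfl fun q _ => ?_
    rw [av_sub (cS' j p q) (cP j p q), av_const_mul, av_sum fun i _ => csum fun l _ => cABR j p q i l]
    congr 2
    refine Finset.sum_congr rfl fun i _ => ?_
    rw [av_sum fun l _ => cABR j p q i l]
    refine Finset.sum_congr rfl fun l _ => ?_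
    rw [av_add (cadd (cA j p q i l) (cB j p q i l)) (cR j p q i l),
      av_add (cA j p q i l) (cB j p q i l)]
  simp_rw [e2]
  -- the pressure
  have zP : ∑ j : Fin 3, ∑ p, ∑ q, av (fun x => (u t x j q p - v t x j q p)
            * pd j (fun y => P t y p q - Q t y p q) x) = 0 := by
    rw [Finset.sum_comm]
    refine Finset.sum_eq_zero fun p _ => ?_
    rw [Finset.sum_comm]
    refine Finset.sum_eq_zero fun q _ => ?_
    exact press' (w := fun j x => u t x j q p - v t x j q p) (fun j => hW j q p)
      (fun x => divW hu hv hI q p x) ((hu.cpP hI p q).sub (hv.cpP hI p q))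
  -- the transport terms
  have zT : ∀ j : Fin 3, (∑ p, ∑ q, ∑ i, ∑ l, av (fun x => u t x i p l * ((u t x j q p - v t x j q p)
              * pd i (fun x => u t x j l q - v t x j l q) x)))
          + (∑ p, ∑ q, ∑ i, ∑ l, av (fun x => u t x i l q * ((u t x j q p - v t x j q p)
              * pd i (fun x => u t x j p l - v t x j p l) x))) = 0 := by
    intro j
    have h1 : ∀ p q : ι, ∑ i, ∑ l, av (fun x => u t x i l q * ((u t x j q p - v t x j q p)
              * pd i (fun x => u t x j p l - v t x j p l) x))
        = ∑ l, ∑ i, av (fun x => u t x i l q * ((u t x j q p - v t x j q p)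
              * pd i (fun x => u t x j p l - v t x j p l) x)) := fun p q => Finset.sum_comm
    have h2 : ∀ p q : ι, ∑ i, ∑ l, av (fun x => u t x i p l * ((u t x j q p - v t x j q p)
              * pd i (fun x => u t x j l q - v t x j l q) x))
        = ∑ l, ∑ i, av (fun x => u t x i p l * ((u t x j q p - v t x j q p)
              * pd i (fun x => u t x j l q - v t x j l q) x)) := fun p q => Finset.sum_comm
    simp_rw [h1, h2]
    rw [sum_cyc (fun p q l => ∑ i, av (fun x => u t x i l q * ((u t x j q p - v t x j q p)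
              * pd i (fun x => u t x j p l - v t x j p l) x))), ← Finset.sum_add_distrib]
    refine Finset.sum_eq_zero fun p _ => ?_
    rw [← Finset.sum_add_distrib]
    refine Finset.sum_eq_zero fun q _ => ?_
    rw [← Finset.sum_add_distrib]
    refine Finset.sum_eq_zero fun l _ => ?_
    rw [transport' (u := fun i x => u t x i p l) (fun i => hu.cp hI i p l)
      (fun x => hu.divfree t hI x p l) (hW j q p) (hW j l q)]
    ring
  have hS : ∀ j : Fin 3, ∑ p, ∑ q, (-(1 / 2 : ℂ) * ∑ i, ∑ l,
          (av (fun x => u t x i p l * ((u t x j q p - v t x j q p)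
              * pd i (fun x => u t x j l q - v t x j l q) x))
          + av (fun x => u t x i l q * ((u t x j q p - v t x j q p)
              * pd i (fun x => u t x j p l - v t x j p l) x))
          + av (fun x => (u t x j q p - v t x j q p)
            * ((u t x i p l - v t x i p l) * pd i (fun y => v t y j l q) x
            + pd i (fun y => v t y j p l) x * (u t x i l q - v t x i l q))))
        - av (fun x => (u t x j q p - v t x j q p)
            * pd j (fun y => P t y p q - Q t y p q) x))
      = -(1 / 2 : ℂ) * (∑ p, ∑ q, ∑ i, ∑ l, av (fun x => (u t x j q p - v t x j q p)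
            * ((u t x i p l - v t x i p l) * pd i (fun y => v t y j l q) x
            + pd i (fun y => v t y j p l) x * (u t x i l q - v t x i l q))))
        - ∑ p, ∑ q, av (fun x => (u t x j q p - v t x j q p)
            * pd j (fun y => P t y p q - Q t y p q) x) := by
    intro j
    have := zT j
    simp_rw [Finset.sum_sub_distrib, ← Finset.mul_sum, Finset.sum_add_distrib]
    linear_combination (-(1 / 2 : ℂ)) * this
  simp_rw [hS]
  rw [Finset.sum_sub_distrib, zP, sub_zero, ← Finset.mul_sum]
  ring

/-- the energy of the difference -/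
noncomputable def dEc (u v : ℝ → V → Fin 3 → Matrix ι ι ℂ) (t : ℝ) : ℂ :=
  av (fun x => ∑ j, ∑ p, ∑ q, (u t x j p q - v t x j p q) * (u t x j q p - v t x j q p))

theorem dEc_deriv {t : ℝ} (ht : t ∈ Ioo 0 T) :
    HasDerivAt (dEc u v) (-(∑ j, ∑ p, ∑ q, ∑ i, ∑ l, av (fun x => (u t x j q p - v t x j q p)
          * ((u t x i p l - v t x i p l) * pd i (fun y => v t y j l q) x
            + pd i (fun y => v t y j p l) x * (u t x i l q - v t x i l q))))) t := by
  have hI : t ∈ Ico 0 T := ⟨ht.1.le, ht.2⟩
  have hF : ContDiffOn ℝ 1 (fun z : ℝ × V => ∑ j, ∑ p, ∑ q,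
      (u z.1 (BL z.2) j p q - v z.1 (BL z.2) j p q)
        * (u z.1 (BL z.2) j q p - v z.1 (BL z.2) j q p))
        (Ioo 0 T ×ˢ univ) := by
    have hm : MapsTo (fun z : ℝ × V => ((z.1, BL z.2) : ℝ × V)) (Ioo 0 T ×ˢ univ)
        (Ioo 0 T ×ˢ univ) := fun z hz => ⟨hz.1, mem_univ _⟩
    have hg : ContDiffOn ℝ 1 (fun z : ℝ × V => ((z.1, BL z.2) : ℝ × V))
        (Ioo 0 T ×ˢ univ) := by
      refine (contDiff_fst.prodMk ?_).contDiffOn
      exact BL.contDiff.comp contDiff_snd
    have h1 : ∀ j p q, ContDiffOn ℝ 1 (fun z : ℝ × V => u z.1 (BL z.2) j p q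
        - v z.1 (BL z.2) j p q) (Ioo 0 T ×ˢ univ) := by
      intro j p q
      have a1 := (to_Ioo (f := fun t y => u t y j p q) (hu.c1_u j p q)).comp hg hm
      have a2 := (to_Ioo (f := fun t y => v t y j p q) (hv.c1_u j p q)).comp hg hm
      exact a1.sub a2
    refine ContDiffOn.sum fun j _ => ContDiffOn.sum fun p _ => ContDiffOn.sum fun q _ => ?_
    exact (h1 j p q).mul (h1 j q p)
  have key := deriv_int (F := fun s y => ∑ j, ∑ p, ∑ q,
      (u s (BL y) j p q - v s (BL y) j p q)
        * (u s (BL y) j q p - v s (BL y) j q p)) hF ht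
  refine key.congr_deriv ?_
  have hd : ∀ j p q x, HasDerivAt (fun s => u s x j p q - v s x j p q)
      (deriv (fun s => u s x j p q) t - deriv (fun s => v s x j p q) t) t := fun j p q x =>
    (slice_dt (f := fun t y => u t y j p q) (hu.c1_u j p q) ht x).sub
      (slice_dt (f := fun t y => v t y j p q) (hv.c1_u j p q) ht x)
  have hd2 : ∀ x, deriv (fun s => ∑ j, ∑ p, ∑ q,
      (u s x j p q - v s x j p q) * (u s x j q p - v s x j q p)) t
      = 2 * ∑ j, ∑ p, ∑ q, (u t x j q p - v t x j q p)
        * (deriv (fun s => u s x j p q) t - deriv (fun s => v s x j p q) t) := by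
    intro x
    have h1 : HasDerivAt (fun s => ∑ j, ∑ p, ∑ q,
      (u s x j p q - v s x j p q) * (u s x j q p - v s x j q p))
      (∑ j, ∑ p, ∑ q, ((deriv (fun s => u s x j p q) t - deriv (fun s => v s x j p q) t)
          * (u t x j q p - v t x j q p)
        + (u t x j p q - v t x j p q)
          * (deriv (fun s => u s x j q p) t - deriv (fun s => v s x j q p) t))) t :=
      HasDerivAt.fun_sum fun j _ => HasDerivAt.fun_sum fun p _ => HasDerivAt.fun_sum fun q _ =>
        (hd j p q x).mul (hd j q p x)
    rw [h1.deriv]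
    simp_rw [Finset.sum_add_distrib]
    have h2 : ∀ j : Fin 3, ∑ p, ∑ q, (u t x j p q - v t x j p q)
          * (deriv (fun s => u s x j q p) t - deriv (fun s => v s x j q p) t)
        = ∑ p, ∑ q, (u t x j q p - v t x j q p)
          * (deriv (fun s => u s x j p q) t - deriv (fun s => v s x j p q) t) := fun j =>
      Finset.sum_comm
    simp_rw [h2]
    rw [two_mul]
    congr 1
    refine Finset.sum_congr rfl fun j _ => Finset.sum_congr rfl fun p _ =>
      Finset.sum_congr rfl fun q _ => by ring
  have h3 : (∫ x in cube, deriv (fun s => ∑ j, ∑ p, ∑ q,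
      (u s (BL x) j p q - v s (BL x) j p q)
        * (u s (BL x) j q p - v s (BL x) j q p)) t)
      = 2 * av (fun x => ∑ j, ∑ p, ∑ q, (u t x j q p - v t x j q p)
        * (deriv (fun s => u s x j p q) t - deriv (fun s => v s x j p q) t)) := by
    rw [← av_const_mul]
    unfold av
    congr 1
    funext y
    exact hd2 _
  rw [h3, av_W_dW hu hv ht]
  ring

theorem dEc_cont : ContinuousOn (dEc u v) (Ico 0 T) := by
  have hm : MapsTo (fun z : ℝ × V => ((z.1, BL z.2) : ℝ × V)) (Ico 0 T ×ˢ univ)
      (Ico 0 T ×ˢ univ) := fun z hz => ⟨hz.1, mem_univ _⟩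
  have hg : ContinuousOn (fun z : ℝ × V => ((z.1, BL z.2) : ℝ × V))
      (Ico 0 T ×ˢ univ) := by fun_prop
  have h1 : ∀ j p q, ContinuousOn (fun z : ℝ × V => u z.1 (BL z.2) j p q
      - v z.1 (BL z.2) j p q) (Ico 0 T ×ˢ univ) := by
    intro j p q
    have a1 := (hu.c1_u j p q).continuousOn.comp hg hm
    have a2 := (hv.c1_u j p q).continuousOn.comp hg hm
    exact a1.sub a2
  refine cont_int (F := fun s y => ∑ j, ∑ p, ∑ q,
      (u s (BL y) j p q - v s (BL y) j p q)
        * (u s (BL y) j q p - v s (BL y) j q p)) ?_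
  refine continuousOn_finsetSum _ fun j _ => continuousOn_finsetSum _ fun p _ =>
    continuousOn_finsetSum _ fun q _ => ?_
  exact (h1 j p q).mul (h1 j q p)

end fixed

end Pool.Agent.N978.ME
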