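import Pool.Agent.N978.ME.Uniq

/-!
Uniqueness of classical solutions.
-/

open MeasureTheory Set Filter Topology Matrix
open scoped ContDiff

namespace Pool.Agent.N978.ME

open H459R3.NS

variable {ι : Type*} [Fintype ι] {T : ℝ} {u v : ℝ → V → Fin 3 → Matrix ι ι ℂ}
    {P Q : ℝ → V → Matrix ι ι ℂ}

/-- the real energy of the difference -/
noncomputable def dEr (u v : ℝ → V → Fin 3 → Matrix ι ι ℂ) (t : ℝ) : ℝ :=
  ∫ y in cube, ∑ j, ∑ p, ∑ q,
    ‖u t (BL y) j p q - v t (BL y) j p q‖ ^ 2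

theorem dEr_nonneg (u v : ℝ → V → Fin 3 → Matrix ι ι ℂ) (t : ℝ) : 0 ≤ dEr u v t :=
  integral_nonneg fun _ => by positivity

section fixed

variable (hu : Sol ι T u P) (hv : Sol ι T v Q)

include hu hv

theorem herm_mul {t : ℝ} (ht : t ∈ Ico 0 T) (x : V) (j : Fin 3) (p q : ι) :
    (u t x j p q - v t x j p q) * (u t x j q p - v t x j q p)
      = ((‖u t x j p q - v t x j p q‖ ^ 2 : ℝ) : ℂ) := by
  have h1 : u t x j q p - v t x j q p = (starRingEnd ℂ) (u t x j p q - v t x j p q) := by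
    have a1 := (hu.herm t ht x j).apply q p
    have a2 := (hv.herm t ht x j).apply q p
    rw [map_sub]
    rw [← a1, ← a2]
    simp
  rw [h1, Complex.mul_conj, Complex.normSq_eq_norm_sq]

theorem dEc_eq {t : ℝ} (ht : t ∈ Ico 0 T) : dEc u v t = ((dEr u v t : ℝ) : ℂ) := by
  unfold dEc dEr av
  rw [← integral_complex_ofReal]
  congr 1
  funext y
  push_cast
  refine Finset.sum_congr rfl fun j _ => Finset.sum_congr rfl fun p _ =>
      Finset.sum_congr rfl fun q _ => ?_
  rw [herm_mul hu hv ht]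
  push_cast
  rfl

theorem grad_bound {s : ℝ} (hs : s < T) :
    ∃ M, 0 ≤ M ∧ ∀ t ∈ Icc 0 s, ∀ y ∈ cube, ∀ i j p q,
      ‖pd i (fun x => v t x j p q) (BL y)‖ ≤ M := by
  have h1 : ∀ (i j : Fin 3) (p q : ι), ∃ M, ∀ t ∈ Icc 0 s, ∀ y ∈ cube,
      ‖pd i (fun x => v t x j p q) (BL y)‖ ≤ M := by
    intro i j p q
    have h2 := cont_slice_pd (f := fun t x => v t x j p q) (hv.c1_u j p q) i
    have hm : MapsTo (fun z : ℝ × V => ((z.1, BL z.2) : ℝ × V)) (Icc 0 s ×ˢ cube)
      (Ico 0 T ×ˢ univ) := fun z hz => ⟨⟨hz.1.1, hz.1.2.trans_lt hs⟩, mem_univ _⟩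
    have hg : ContinuousOn (fun z : ℝ × V => ((z.1, BL z.2) : ℝ × V))
      (Icc 0 s ×ˢ cube) := by fun_prop
    have h3 := h2.comp hg hm
    obtain ⟨M, hM⟩ := (isCompact_Icc.prod (isCompact_Icc (a := (0 : V)) (b := 1))).exists_bound_of_continuousOn h3
    exact ⟨M, fun t ht y hy => hM (t, y) ⟨ht, hy⟩⟩
  choose M hM using h1
  refine ⟨∑ i, ∑ j, ∑ p, ∑ q, |M i j p q|, by positivity, fun t ht y hy i j p q => ?_⟩
  calc ‖pd i (fun x => v t x j p q) (BL y)‖
      ≤ |M i j p q| := (hM i j p q t ht y hy).trans (le_abs_self _)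
    _ ≤ ∑ q, |M i j p q| := Finset.single_le_sum (f := fun q => |M i j p q|)
        (fun _ _ => abs_nonneg _) (Finset.mem_univ q)
    _ ≤ ∑ p, ∑ q, |M i j p q| := Finset.single_le_sum (f := fun p => ∑ q, |M i j p q|)
        (fun _ _ => by positivity) (Finset.mem_univ p)
    _ ≤ ∑ j, ∑ p, ∑ q, |M i j p q| := Finset.single_le_sum (f := fun j => ∑ p, ∑ q, |M i j p q|)
        (fun _ _ => by positivity) (Finset.mem_univ j)
    _ ≤ _ := Finset.single_le_sum (f := fun i => ∑ j, ∑ p, ∑ q, |M i j p q|)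
        (fun _ _ => by positivity) (Finset.mem_univ i)

theorem R_bound {t : ℝ} (ht : t ∈ Ico 0 T) {M : ℝ} (hM0 : 0 ≤ M)
    (hM : ∀ y ∈ cube, ∀ i j p q, ‖pd i (fun x => v t x j p q) (BL y)‖ ≤ M) :
    ‖∑ j, ∑ p, ∑ q, ∑ i : Fin 3, ∑ l, av (fun x => (u t x j q p - v t x j q p)
          * ((u t x i p l - v t x i p l) * pd i (fun y => v t y j l q) x
            + pd i (fun y => v t y j p l) x * (u t x i l q - v t x i l q)))‖
      ≤ (∑ _j : Fin 3, ∑ _p : ι, ∑ _q : ι, ∑ _i : Fin 3, ∑ _l : ι, (2 * M)) * dEr u v t := by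
  have hW : ∀ x, ∀ j p q, ‖u t x j p q - v t x j p q‖ ^ 2
      ≤ ∑ j, ∑ p, ∑ q, ‖u t x j p q - v t x j p q‖ ^ 2 := by
    intro x j p q
    calc ‖u t x j p q - v t x j p q‖ ^ 2 ≤ ∑ q, ‖u t x j p q - v t x j p q‖ ^ 2 :=
          Finset.single_le_sum (f := fun q => ‖u t x j p q - v t x j p q‖ ^ 2)
            (fun _ _ => sq_nonneg _) (Finset.mem_univ q)
      _ ≤ ∑ p, ∑ q, ‖u t x j p q - v t x j p q‖ ^ 2 :=
          Finset.single_le_sum (f := fun p => ∑ q, ‖u t x j p q - v t x j p q‖ ^ 2)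
            (fun _ _ => by positivity) (Finset.mem_univ p)
      _ ≤ _ := Finset.single_le_sum (f := fun j => ∑ p, ∑ q, ‖u t x j p q - v t x j p q‖ ^ 2)
            (fun _ _ => by positivity) (Finset.mem_univ j)
  have hc : Continuous (fun x => ∑ j, ∑ p, ∑ q, ‖u t x j p q - v t x j p q‖ ^ 2) := by
    refine continuous_finsetSum _ fun j _ => continuous_finsetSum _ fun p _ =>
      continuous_finsetSum _ fun q _ => ?_
    exact (cpW hu hv ht j p q).cont.norm.pow 2
  have hint : IntegrableOn (fun y : V => ∑ j, ∑ p, ∑ q,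
      ‖u t (BL y) j p q - v t (BL y) j p q‖ ^ 2) cube :=
    integrableOn_cube (hc.comp BL.continuous)
  have key : ∀ (j : Fin 3) (p q : ι) (i : Fin 3) (l : ι),
      ‖av (fun x => (u t x j q p - v t x j q p)
          * ((u t x i p l - v t x i p l) * pd i (fun y => v t y j l q) x
            + pd i (fun y => v t y j p l) x * (u t x i l q - v t x i l q)))‖
      ≤ 2 * M * dEr u v t := by
    intro j p q i l
    unfold dEr
    rw [← integral_const_mul]
    refine norm_integral_le_of_norm_le (hint.const_mul (2 * M)) ?_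
    refine ae_restrict_of_forall_mem measurableSet_Icc fun y hy => ?_
    rw [norm_mul]
    set x := BL y with hx
    have b1 := hM y hy i j l q
    have b2 := hM y hy i j p l
    rw [← hx] at b1 b2
    set S := ∑ j, ∑ p, ∑ q, ‖u t x j p q - v t x j p q‖ ^ 2 with hS
    have w1 := hW x j q p
    have w2 := hW x i p l
    have w3 := hW x i l q
    rw [← hS] at w1 w2 w3
    have n1 : ‖(u t x i p l - v t x i p l) * pd i (fun y => v t y j l q) x
            + pd i (fun y => v t y j p l) x * (u t x i l q - v t x i l q)‖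
        ≤ ‖u t x i p l - v t x i p l‖ * M + M * ‖u t x i l q - v t x i l q‖ := by
      refine (norm_add_le _ _).trans (add_le_add ?_ ?_)
      · rw [norm_mul]
        exact mul_le_mul_of_nonneg_left b1 (norm_nonneg _)
      · rw [norm_mul]
        exact mul_le_mul_of_nonneg_right b2 (norm_nonneg _)
    have n2 := mul_le_mul_of_nonneg_left n1 (norm_nonneg (u t x j q p - v t x j q p))
    refine n2.trans ?_
    have a1 := norm_nonneg (u t x j q p - v t x j q p)
    have a2 := norm_nonneg (u t x i p l - v t x i p l)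
    have a3 := norm_nonneg (u t x i l q - v t x i l q)
    set α := ‖u t x j q p - v t x j q p‖
    set β := ‖u t x i p l - v t x i p l‖
    set γ := ‖u t x i l q - v t x i l q‖
    have c1 : α * β ≤ S := by nlinarith [sq_nonneg (α - β)]
    have c2 : α * γ ≤ S := by nlinarith [sq_nonneg (α - γ)]
    nlinarith [mul_le_mul_of_nonneg_left c1 hM0, mul_le_mul_of_nonneg_left c2 hM0]
  simp_rw [Finset.sum_mul]
  refine (norm_sum_le _ _).trans (Finset.sum_le_sum fun j _ => ?_)
  refine (norm_sum_le _ _).trans (Finset.sum_le_sum fun p _ => ?_)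
  refine (norm_sum_le _ _).trans (Finset.sum_le_sum fun q _ => ?_)
  refine (norm_sum_le _ _).trans (Finset.sum_le_sum fun i _ => ?_)
  exact (norm_sum_le _ _).trans (Finset.sum_le_sum fun l _ => key j p q i l)

theorem dEr_zero (h0 : u 0 = v 0) {s : ℝ} (hs : s ∈ Ico 0 T) : dEr u v s = 0 := by
  obtain ⟨M, hM0, hM⟩ := grad_bound hu hv hs.2
  set L : ℝ := (∑ _j : Fin 3, ∑ _p : ι, ∑ _q : ι, ∑ _i : Fin 3, ∑ _l : ι, (2 * M)) with hL
  have hE0 : dEr u v 0 = 0 := by
    unfold dEr
    simp [h0]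
  have hre : ∀ t ∈ Ico 0 T, dEr u v t = (dEc u v t).re := by
    intro t ht
    rw [dEc_eq hu hv ht, Complex.ofReal_re]
  have hsub : Icc 0 s ⊆ Ico 0 T := Icc_subset_Ico_right hs.2
  have hcont : ContinuousOn (dEr u v) (Icc 0 s) := by
    have h1 : ContinuousOn (fun t => (dEc u v t).re) (Icc 0 s) :=
      Complex.continuous_re.comp_continuousOn ((dEc_cont hu hv).mono hsub)
    exact h1.congr fun t ht => hre t (hsub ht)
  have hder : ∀ t ∈ Ioo 0 s, ∃ D : ℝ, D ≤ L * dEr u v t ∧ HasDerivAt (dEr u v) D t := by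
    intro t ht
    have ht' : t ∈ Ioo 0 T := ⟨ht.1, ht.2.trans hs.2⟩
    have hI : t ∈ Ico 0 T := ⟨ht.1.le, ht'.2⟩
    have h1 := dEc_deriv hu hv ht'
    have h2 := R_bound hu hv hI hM0 (hM t ⟨ht.1.le, ht.2.le⟩)
    set R := ∑ j, ∑ p, ∑ q, ∑ i : Fin 3, ∑ l, av (fun x => (u t x j q p - v t x j q p)
          * ((u t x i p l - v t x i p l) * pd i (fun y => v t y j l q) x
            + pd i (fun y => v t y j p l) x * (u t x i l q - v t x i l q))) with hR
    refine ⟨(-R).re, ?_, ?_⟩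
    · have h3 := Complex.abs_re_le_norm (-R)
      rw [norm_neg] at h3
      exact (le_abs_self _).trans (h3.trans h2)
    · have h3 : HasDerivAt (fun t => (dEc u v t).re) (-R).re t :=
        (Complex.reCLM.hasFDerivAt.comp_hasDerivAt t h1)
      refine h3.congr_of_eventuallyEq ?_
      filter_upwards [Ioo_mem_nhds ht'.1 ht'.2] with τ hτ
      exact hre τ ⟨hτ.1.le, hτ.2⟩
  have hexp : ∀ t, HasDerivAt (fun t => Real.exp (-L * t)) (Real.exp (-L * t) * (-L)) t := by
    intro t
    have := ((hasDerivAt_id t).const_mul (-L)).exp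
    simpa using this
  have hanti : AntitoneOn (fun t => dEr u v t * Real.exp (-L * t)) (Icc 0 s) := by
    refine antitoneOn_of_deriv_nonpos (convex_Icc 0 s) ?_ ?_ ?_
    · exact hcont.mul (by fun_prop)
    · rw [interior_Icc]
      intro t ht
      obtain ⟨D, hD, hd⟩ := hder t ht
      exact (hd.mul (hexp t)).differentiableAt.differentiableWithinAt
    · rw [interior_Icc]
      intro t ht
      obtain ⟨D, hD, hd⟩ := hder t ht
      have hd2 : HasDerivAt (fun t => dEr u v t * Real.exp (-L * t)) _ t := hd.mul (hexp t)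
      rw [hd2.deriv]
      have h3 := Real.exp_pos (-L * t)
      nlinarith
  have h5 := hanti (left_mem_Icc.2 hs.1) (right_mem_Icc.2 hs.1) hs.1
  simp only [hE0, zero_mul] at h5
  have h6 : dEr u v s ≤ 0 := by
    by_contra hcon
    push Not at hcon
    exact absurd h5 (not_le.2 (mul_pos hcon (Real.exp_pos _)))
  exact le_antisymm h6 (dEr_nonneg u v s)

/-- Uniqueness of classical solutions. -/
theorem uniq (h0 : u 0 = v 0) {t : ℝ} (ht : t ∈ Ico 0 T) : u t = v t := by
  have h1 := dEr_zero hu hv h0 ht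
  have hper : PerB (fun x => ∑ j, ∑ p, ∑ q, ‖u t x j p q - v t x j p q‖ ^ 2) := by
    intro i x
    simp only [hu.per_u t ht i x, hv.per_u t ht i x]
  have hc : Continuous (fun x => ∑ j, ∑ p, ∑ q, ‖u t x j p q - v t x j p q‖ ^ 2) := by
    refine continuous_finsetSum _ fun j _ => continuous_finsetSum _ fun p _ =>
      continuous_finsetSum _ fun q _ => ?_
    exact (cpW hu hv ht j p q).cont.norm.pow 2
  funext x j
  ext p q
  have h2 := zero_of_int hc hper (fun x => by positivity) h1 x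
  have h3 := (Finset.sum_eq_zero_iff_of_nonneg (fun j _ => by positivity)).1 h2 j (Finset.mem_univ j)
  have h4 := (Finset.sum_eq_zero_iff_of_nonneg (fun j _ => by positivity)).1 h3 p (Finset.mem_univ p)
  have h5 := (Finset.sum_eq_zero_iff_of_nonneg (fun j _ => by positivity)).1 h4 q (Finset.mem_univ q)
  have h6 : ‖u t x j p q - v t x j p q‖ = 0 := by
    exact pow_eq_zero_iff two_ne_zero |>.1 h5
  exact sub_eq_zero.1 (norm_eq_zero.1 h6)

end fixed

end Pool.Agent.N978.ME
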